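import Pool.Agent.Rot7.NullLoc

/-!
# Normalisation of an action which is linear off a small set

PROOF. Let `h`, `φ`, `A₀` be as in `AlmostLinear`; `f` is the homeomorphism `φ`
(`homeo_of_isDiffeo`), `g₀` the homeomorphism `g` (`homeo_of_isDiffeo hg.diffeo`), `g' = f * g₀ *
f⁻¹`, `h' = h * f⁻¹`. `h' (g' x) = h (g (f⁻¹ x)) = rotS n (h' x)`. (a) If `OnS2 x` then `h' = id`
near `x`: let `y = h⁻¹ x`, `h (g y) = rotS n x = x = h y`, so `g y = y`, `h = φ` near `y`, `f y =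
h y = x`, so `y = f⁻¹ x` and `h' z = h (f⁻¹ z) = f (f⁻¹ z) = z` for `z` near `x`. (b) `g' = rotS
n` near `x`: `g' x = f (g y) = f y = x`, so for `z` near `x` both `z` and `g' z` are near `x`, `g'
z = h' (g' z) = rotS n (h' z) = rotS n z`. So `NormAct n g' h'`. Let `A = {x | ¬ LocalDiffeoAt h'
x}`, a closed set (`LDA.eventually`), disjoint from a neighbourhood of the 2-sphere by (a). `g' x
∈ A ↔ x ∈ A`: `h' ∘ g' = rotS n ∘ h'`, `g'` and `rotS n` are diffeomorphisms (`ld_mul`, `ld_inv`,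
`ld_rotA`). `A ⊆ f '' A₀`: if `f⁻¹ x ∉ A₀` then `LocalDiffeoAt h (f⁻¹ x)`, so `LocalDiffeoAt h'
x`. The three cases: `NullLength A₀`: `null_homeo`, `null_mono`. `NullLength (h '' A₀)`: `h' '' A
⊆ h' '' (f '' A₀) = h '' A₀`. `InTranslates n g A₀` with `φ₀`: `f ∘ φ₀` works for `g'` and `A`
(`g'^[k] (f x) = f (g^[k] x)`).
-/

set_option autoImplicit false

open scoped ContDiff Topology Manifold
open Set Filter Metric

namespace Pool.Agent.Rot7

open Pool.Agent.HopfCov hiding pr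
open Pool.Agent.HopfCov.Smooth
open Pool.Agent.HopfFin
open Pool.Agent.Rot4
open Pool.Agent.Rot5
open Pool.Agent.Rot6

theorem almost_norm {n : ℕ} (hn : 2 ≤ n) {g : Sph4 → Sph4} (hg : UnknotAction n g)
    (hA : AlmostLinear n g) : ∃ (f g' h' : Sph4 ≃ₜ Sph4) (A : Set Sph4),
      (∀ x, LocalDiffeoAt f x) ∧ (∀ x, f (g x) = g' (f x)) ∧ NormAct n g' h' ∧ IsClosed A ∧
      (NearS2 fun x => x ∉ A) ∧ (∀ x, g' x ∈ A ↔ x ∈ A) ∧ (∀ x, x ∉ A → LocalDiffeoAt h' x) ∧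
      (NullLength A ∨ NullLength (h' '' A) ∨ InTranslates n g' A) := by
  obtain ⟨h, φ, A₀, hc, ⟨hφ, hφ2⟩, ⟨-, hA₀⟩, hcase⟩ := hA
  obtain ⟨f, hf, hfl⟩ := homeo_of_isDiffeo hφ
  obtain ⟨g₀, hg₀, hgl⟩ := homeo_of_isDiffeo hg.diffeo
  have hfs : ∀ x, f (f⁻¹ x) = x := fun x => f.apply_symm_apply x
  have hsf : ∀ x, f⁻¹ (f x) = x := fun x => f.symm_apply_apply x
  have hfil : ∀ x, LocalDiffeoAt (f⁻¹ : Sph4 ≃ₜ Sph4) x := fun x => by
    have h1 := ld_inv (hfl (f⁻¹ x))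
    rwa [hfs] at h1
  set g' : Sph4 ≃ₜ Sph4 := f * g₀ * f⁻¹ with hg'
  set h' : Sph4 ≃ₜ Sph4 := h * f⁻¹ with hh'
  have g'a : ∀ x, g' x = f (g (f⁻¹ x)) := fun x => by
    show f (g₀ (f⁻¹ x)) = _
    rw [hg₀]
  have h'a : ∀ x, h' x = h (f⁻¹ x) := fun _ => rfl
  have hcj : ∀ x, f (g x) = g' (f x) := fun x => by rw [g'a, hsf]
  have hit : ∀ (k : ℕ) (x : Sph4), g'^[k] (f x) = f (g^[k] x) := by
    intro k x
    induction k with
    | zero => rfl
    | succ k ih => rw [Function.iterate_succ_apply', Function.iterate_succ_apply', hcj, ih]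
  have hconj : ∀ x, h' (g' x) = rotS n (h' x) := fun x => by
    rw [h'a, g'a, hsf, hc]
    rfl
  -- the fixed points
  have hfix : ∀ x, OnS2 x → ∃ y, h y = x ∧ g y = y ∧ f y = x ∧ f⁻¹ x = y := by
    intro x hx
    have h1 : h (h.symm x) = x := h.apply_symm_apply x
    have h2 : g (h.symm x) = h.symm x := by
      apply h.injective
      rw [hc, h1]
      exact (rotS_fix_iff hn).2 hx
    have h3 : f (h.symm x) = x := by
      rw [hf, ← (hφ2 _ h2).self_of_nhds, h1]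
    exact ⟨h.symm x, h1, h2, h3, by rw [← hsf (h.symm x), h3]⟩
  have hnear1 : NearS2 fun x => h' x = x := by
    intro x hx
    obtain ⟨y, h1, h2, h3, h4⟩ := hfix x hx
    have h5 : Tendsto (f⁻¹ : Sph4 ≃ₜ Sph4) (𝓝 x) (𝓝 y) := by
      rw [← h4]
      exact (f⁻¹).continuous.continuousAt
    filter_upwards [h5.eventually (hφ2 y h2)] with z hz
    show h' z = z
    rw [h'a, hz, ← hf, hfs]
  have hnear2 : NearS2 fun x => g' x = rotS n x := by
    intro x hx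
    obtain ⟨y, h1, h2, h3, h4⟩ := hfix x hx
    have h5 : g' x = x := by rw [g'a, h4, h2, h3]
    have h6 : Tendsto g' (𝓝 x) (𝓝 x) := by
      have h7 := g'.continuous.continuousAt (x := x)
      unfold ContinuousAt at h7
      rwa [h5] at h7
    filter_upwards [h6.eventually (hnear1 x hx), hnear1 x hx] with z hz1 hz2
    show g' z = rotS n z
    have h8 := hconj z
    rw [hz2] at h8
    rw [← h8]
    exact hz1.symm
  have hg'l : ∀ x, LocalDiffeoAt g' x := fun x =>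
    ld_mul (f := f * g₀) (g := f⁻¹) (ld_mul (f := f) (g := g₀) (hfl _) (hgl _)) (hfil x)
  -- the singular set
  have hr : ∀ x, LocalDiffeoAt (rotHS (2 * Real.pi / n)) x := fun x => ld_rotA _ x
  have hm : rotHS (2 * Real.pi / n) * h' = h' * g' := by
    ext1 x
    show rotHS (2 * Real.pi / n) (h' x) = h' (g' x)
    rw [hconj]
    rfl
  have hld1 : ∀ x, LocalDiffeoAt h' (g' x) → LocalDiffeoAt h' x := by
    intro x hx
    have h1 : LocalDiffeoAt (h' * g' : Sph4 ≃ₜ Sph4) x := ld_mul hx (hg'l x)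
    rw [← hm] at h1
    have h2 : LocalDiffeoAt ((rotHS (2 * Real.pi / n))⁻¹ : Sph4 ≃ₜ Sph4)
        ((rotHS (2 * Real.pi / n) * h' : Sph4 ≃ₜ Sph4) x) := ld_inv (hr (h' x))
    have h3 := ld_mul h2 h1
    rwa [inv_mul_cancel_left] at h3
  have hld2 : ∀ x, LocalDiffeoAt h' x → LocalDiffeoAt h' (g' x) := by
    intro x hx
    have h1 : LocalDiffeoAt (rotHS (2 * Real.pi / n) * h' : Sph4 ≃ₜ Sph4) x := ld_mul (hr _) hx
    rw [hm] at h1
    have h2 : LocalDiffeoAt (g'⁻¹ : Sph4 ≃ₜ Sph4) (g' x) := ld_inv (hg'l x)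
    have h4 : (g'⁻¹ : Sph4 ≃ₜ Sph4) (g' x) = x := g'.symm_apply_apply x
    have h3 : LocalDiffeoAt (h' * g' * g'⁻¹ : Sph4 ≃ₜ Sph4) (g' x) :=
      ld_mul (by rw [h4]; exact h1) h2
    rwa [mul_inv_cancel_right] at h3
  have hsub : ∀ x, ¬ LocalDiffeoAt h' x → ∃ a ∈ A₀, f a = x := by
    intro x hx
    refine ⟨f⁻¹ x, ?_, hfs x⟩
    by_contra h1
    exact hx (ld_mul (hA₀ _ h1) (hfil x))
  refine ⟨f, g', h', {x | ¬ LocalDiffeoAt h' x}, hfl, hcj, ⟨hg'l, hnear2, hnear1, hconj⟩, ?_, ?_,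
    ?_, ?_, ?_⟩
  · rw [← isOpen_compl_iff, isOpen_iff_mem_nhds]
    intro x hx
    have h1 : LocalDiffeoAt h' x := not_not.1 hx
    have h2 : ∀ᶠ y in 𝓝 x, LocalDiffeoAt h' y := LDA.eventually h1
    filter_upwards [h2] with y hy using not_not.2 hy
  · intro x hx
    have h1 : LocalDiffeoAt h' x := by
      refine ld_congr (ld_one x) ?_
      filter_upwards [hnear1 x hx] with z hz using hz.symm
    have h2 : ∀ᶠ y in 𝓝 x, LocalDiffeoAt h' y := LDA.eventually h1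
    filter_upwards [h2] with y hy using not_not.2 hy
  · intro x
    exact not_congr ⟨hld1 x, hld2 x⟩
  · intro x hx
    exact not_not.1 hx
  · rcases hcase with h1 | h1 | h1
    · refine Or.inl (null_mono (null_homeo hfl h1) ?_)
      intro x hx
      obtain ⟨a, ha, hax⟩ := hsub x hx
      exact ⟨a, ha, hax⟩
    · refine Or.inr (Or.inl (null_mono h1 ?_))
      rintro _ ⟨x, hx, rfl⟩
      obtain ⟨a, ha, hax⟩ := hsub x hx
      exact ⟨a, ha, by rw [h'a, ← hax, hsf]⟩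
    · obtain ⟨φ₀, k1, k2, k3, k4⟩ := h1
      refine Or.inr (Or.inr ⟨fun x => f (φ₀ x), f.isOpenEmbedding.comp k1, ?_, ?_, ?_⟩)
      · intro x
        exact LDA.comp' (f := φ₀) (g := f) (hfl (φ₀ x)) (k2 x)
      · intro x y k hk0 hk
        rw [hit]
        exact fun h5 => k3 x y k hk0 hk (f.injective h5)
      · intro x hx
        obtain ⟨a, ha, hax⟩ := hsub x hx
        obtain ⟨k, z, hz⟩ := k4 a ha
        exact ⟨k, z, by rw [← hax, hz, hit]⟩

end Pool.Agent.Rot7
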