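import Pool.Agent.Rot7.NullLoc

/-!
# An action which is linear off one orbit is almost linear

PROOF. `exists_type` (`Rot6/MainC.lean`) gives `d` with `SingularType n g d`; take `h`, `φ`, `y`
from it and `A = {x | ∃ k : ℕ, x = g^[k] y}`. `g^[n] = id` (`hg.pow`), so `A` is the image of `{k
| k < n}` (`g^[k] = g^[k % n]`), a finite set: closed (the sphere is Hausdorff), `null_finite`.
-/

set_option autoImplicit false

open scoped ContDiff Topology Manifold
open Set Filter Metric

namespace Pool.Agent.Rot7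

open Pool.Agent.HopfCov hiding pr
open Pool.Agent.HopfCov.Smooth
open Pool.Agent.HopfFin
open Pool.Agent.Rot4
open Pool.Agent.Rot5
open Pool.Agent.Rot6

private theorem AlmOf_t2 : T2Space Sph4.carrier :=
  inferInstanceAs (T2Space (sphere (0 : EuclideanSpace ℝ (Fin 5)) 1))

theorem almost_of_off {n : ℕ} (hn : 2 ≤ n) {g : Sph4 → Sph4} (hg : UnknotAction n g)
    (hL : LinearOffOneOrbit g) : AlmostLinear n g := by
  obtain ⟨d, hd⟩ := (exists_type hn g).1 ⟨hg, hL⟩
  obtain ⟨h, φ, y, α, β, h1, h2, ⟨-, h3⟩, -, -, -⟩ := hd.ex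
  have hfin : ({x | ∃ k : ℕ, x = g^[k] y} : Set Sph4).Finite := by
    refine ((Set.finite_lt_nat n).image fun k => g^[k] y).subset ?_
    rintro x ⟨k, rfl⟩
    refine ⟨k % n, Nat.mod_lt _ (by omega), ?_⟩
    show g^[k % n] y = g^[k] y
    have hper : ∀ (m : ℕ), g^[n * m] y = y := by
      intro m
      induction m with
      | zero => rfl
      | succ m ih =>
        rw [Nat.mul_succ, Function.iterate_add_apply, hg.pow, ih]
    conv_rhs => rw [← Nat.mod_add_div k n, Function.iterate_add_apply, hper]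
  have : T2Space Sph4.carrier := AlmOf_t2
  exact ⟨h, φ, {x | ∃ k : ℕ, x = g^[k] y}, h1, h2,
    ⟨hfin.isClosed, fun x hx => h3 x fun k hk => hx ⟨k, hk⟩⟩, Or.inl (null_finite hfin)⟩

end Pool.Agent.Rot7
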