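import Pool.Agent.Rot7.Block

/-!
# Straightening of the direction `e₃`

PROOF. Let `w₃ y = (fderiv ℝ G (pxL y) e3) 3`, `w₄ y = (fderiv ℝ G (pxL y) e3) 4`, `r y = √(w₃² +
w₄²)`, `ρ y = pxL y + (r y)⁻¹ • (w₃ y • pvL y - w₄ y • JL y)` (the rotation of the last two
coordinates by minus the angle of `w`). `ρ (rotE t y) = rotE t (ρ y)`: `px_rotE`, so `w (rotE t y)
= w y`; `pv_rotE`, `J_rotE`, `rotE_eq`. `ρ (c • y) = c • ρ y` for `c > 0`: `w (c • y) = w y`
(`fderiv_hom`). `ρ y = y` on the plane (`pvL y = 0`, `JL y = 0`). Let `x ≠ 0`, `pv2 x = 0`, `L =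
fderiv ℝ G x`: `L v = v` on the plane (`fderiv_fix`), `0 < detA L` (`detA_pos_of_det`, `hG.det`),
so `(w₃ x, w₄ x) ≠ 0`. Near `x`: `pxL` is continuous, `G` is smooth near `x` (`hG.smooth`), so
`w₃`, `w₄` are smooth (`ContDiffAt.fderiv_right`) and not both zero, `ρ` is smooth at `y` and at
`G y` for `y` near `x`, and `ρ ∘ G` is smooth. The derivative of `ρ` at `x` is `u ↦ pxL u + (r
x)⁻¹ • (w₃ x • pvL u - w₄ x • JL u)` (product rule, `pvL x = JL x = 0`). So the derivative `L'` of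
`ρ ∘ G` at `x` (`G x = x`) satisfies `L' v = v` on the plane and the last two coordinates of `L'
e3` are `(r x)⁻¹ (w₃² + w₄², 0)`, the last one of `L' e4` is `(r x)⁻¹ (w₃ (L e4)₄ - w₄ (L e4)₃) =
(r x)⁻¹ detA L > 0`: `Upper L'`. This gives `Straight` and, with `Upper.det`, the field `det` of
`Fix5`.
-/

set_option autoImplicit false

open scoped ContDiff Topology Manifold
open Set Filter Metric

namespace Pool.Agent.Rot7

open Pool.Agent.HopfCov hiding pr
open Pool.Agent.HopfCov.Smooth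
open Pool.Agent.HopfFin
open Pool.Agent.Rot4
open Pool.Agent.Rot5
open Pool.Agent.Rot6

private noncomputable def Angle_w (G : E5 → E5) (i : Fin 5) (y : E5) : ℝ :=
  (fderiv ℝ G (pxL y) e3) i

private noncomputable def Angle_r (G : E5 → E5) (y : E5) : ℝ :=
  Real.sqrt (Angle_w G 3 y ^ 2 + Angle_w G 4 y ^ 2)

private noncomputable def Angle_rho (G : E5 → E5) (y : E5) : E5 :=
  pxL y + ((Angle_r G y)⁻¹ * Angle_w G 3 y) • pvL y -
    ((Angle_r G y)⁻¹ * Angle_w G 4 y) • JL y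

private theorem Angle_w_rot (G : E5 → E5) (i : Fin 5) (t : ℝ) (y : E5) :
    Angle_w G i (rotE t y) = Angle_w G i y := by
  unfold Angle_w
  rw [px_rotE]

private theorem Angle_rho_rot (G : E5 → E5) (t : ℝ) (y : E5) :
    Angle_rho G (rotE t y) = rotE t (Angle_rho G y) := by
  unfold Angle_rho Angle_r
  rw [Angle_w_rot, Angle_w_rot, px_rotE, pv_rotE, J_rotE, rotE_eq]
  simp only [map_add, map_sub, map_smul, px_px, px_pv, px_J, pv_px, pv_pv, pv_J, J_px, J_pv, J_J]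
  module

private theorem Angle_w_smul {G : E5 → E5} (hG : ∀ c : ℝ, 0 < c → ∀ x, G (c • x) = c • G x)
    (i : Fin 5) {c : ℝ} (hc : 0 < c) (y : E5) : Angle_w G i (c • y) = Angle_w G i y := by
  unfold Angle_w
  rw [map_smul, fderiv_hom hG hc]

private theorem Angle_rho_smul {G : E5 → E5} (hG : ∀ c : ℝ, 0 < c → ∀ x, G (c • x) = c • G x)
    {c : ℝ} (hc : 0 < c) (y : E5) : Angle_rho G (c • y) = c • Angle_rho G y := by
  unfold Angle_rho Angle_r
  rw [Angle_w_smul hG _ hc, Angle_w_smul hG _ hc]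
  simp only [map_smul]
  module

private theorem Angle_J {y : E5} (h : pv2 y = 0) : JL y = 0 := by
  rw [← J_pv, pv2_eq_zero.1 h, map_zero]

private theorem Angle_rho_plane (G : E5 → E5) {y : E5} (h : pv2 y = 0) : Angle_rho G y = y := by
  unfold Angle_rho
  rw [Angle_J h, pv2_eq_zero.1 h, px_of_plane h, smul_zero, smul_zero, add_zero, sub_zero]

private theorem Angle_w_smooth {G : E5 → E5} {y : E5} (h : ContDiffAt ℝ ∞ G (pxL y))
    (i : Fin 5) : ContDiffAt ℝ ∞ (Angle_w G i) y := by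
  have h1 : ContDiffAt ℝ ∞ (fderiv ℝ G) (pxL y) :=
    h.fderiv_right (m := ∞) (by exact_mod_cast le_top)
  have h2 : ContDiffAt ℝ ∞ (fun z => fderiv ℝ G (pxL z)) y :=
    h1.comp y pxL.contDiff.contDiffAt
  have h3 : ContDiffAt ℝ ∞ (fun z => fderiv ℝ G (pxL z) e3) y := h2.clm_apply contDiffAt_const
  exact ((EuclideanSpace.proj (𝕜 := ℝ) i).contDiff.contDiffAt).comp y h3

private theorem Angle_r_smooth {G : E5 → E5} {y : E5} (h : ContDiffAt ℝ ∞ G (pxL y))
    (h0 : Angle_w G 3 y ^ 2 + Angle_w G 4 y ^ 2 ≠ 0) :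
    ContDiffAt ℝ ∞ (fun z => (Angle_r G z)⁻¹) y := by
  have h1 : ContDiffAt ℝ ∞ (fun z => Angle_w G 3 z ^ 2 + Angle_w G 4 z ^ 2) y :=
    ((Angle_w_smooth h 3).pow 2).add ((Angle_w_smooth h 4).pow 2)
  have h2 : ContDiffAt ℝ ∞ (Angle_r G) y := h1.sqrt h0
  refine h2.inv ?_
  unfold Angle_r
  exact (Real.sqrt_ne_zero (by positivity)).2 h0

private theorem Angle_rho_smooth {G : E5 → E5} {y : E5} (h : ContDiffAt ℝ ∞ G (pxL y))
    (h0 : Angle_w G 3 y ^ 2 + Angle_w G 4 y ^ 2 ≠ 0) : ContDiffAt ℝ ∞ (Angle_rho G) y := by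
  have h1 := Angle_r_smooth h h0
  unfold Angle_rho
  exact (pxL.contDiff.contDiffAt.add ((h1.mul (Angle_w_smooth h 3)).smul
    pvL.contDiff.contDiffAt)).sub ((h1.mul (Angle_w_smooth h 4)).smul JL.contDiff.contDiffAt)

private theorem Angle_rho_fderiv {G : E5 → E5} {x : E5} (hx : pv2 x = 0)
    (h : ContDiffAt ℝ ∞ G (pxL x)) (h0 : Angle_w G 3 x ^ 2 + Angle_w G 4 x ^ 2 ≠ 0) :
    HasFDerivAt (Angle_rho G) (pxL + ((Angle_r G x)⁻¹ * Angle_w G 3 x) • pvL -
      ((Angle_r G x)⁻¹ * Angle_w G 4 x) • JL) x := by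
  have h1 := Angle_r_smooth h h0
  have ha : DifferentiableAt ℝ (fun z => (Angle_r G z)⁻¹ * Angle_w G 3 z) x :=
    (h1.mul (Angle_w_smooth h 3)).differentiableAt (by simp)
  have hb : DifferentiableAt ℝ (fun z => (Angle_r G z)⁻¹ * Angle_w G 4 z) x :=
    (h1.mul (Angle_w_smooth h 4)).differentiableAt (by simp)
  have h2 := (pxL.hasFDerivAt (x := x)).add (ha.hasFDerivAt.smul (pvL.hasFDerivAt (x := x)))
  have h3 := h2.sub (hb.hasFDerivAt.smul (JL.hasFDerivAt (x := x)))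
  refine h3.congr_fderiv ?_
  rw [Angle_J hx, pv2_eq_zero.1 hx]
  simp

theorem exists_straight {G : E5 → E5} (hG : Fix5 G) : ∃ ρ : E5 → E5,
    (∀ (t : ℝ) (y : E5), ρ (rotE t y) = rotE t (ρ y)) ∧ Fix5 (fun y => ρ (G y)) ∧
      ∀ x, x ≠ 0 → pv2 x = 0 → Upper (fderiv ℝ (fun y => ρ (G y)) x) := by
  have hup : ∀ x, x ≠ 0 → pv2 x = 0 → Angle_w G 3 x ^ 2 + Angle_w G 4 x ^ 2 ≠ 0 ∧
      Upper (fderiv ℝ (fun y => Angle_rho G (G y)) x) := by
    intro x hx0 hx
    have hsm : ContDiffAt ℝ ∞ G x := (hG.smooth x hx0 hx).self_of_nhds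
    have hd : DifferentiableAt ℝ G x := hsm.differentiableAt (by simp)
    have hpx : pxL x = x := px_of_plane hx
    have hGx : G x = x := hG.plane x hx
    set L := fderiv ℝ G x with hL
    have hfix : ∀ v, pv2 v = 0 → L v = v := fun v hv => fderiv_fix hx hd hG.plane hv
    have hdet : 0 < detA L := detA_pos_of_det hfix (hG.det x hx0 hx)
    have hdet' : 0 < (L e3) 3 * (L e4) 4 - (L e4) 3 * (L e3) 4 := hdet
    have hw3 : Angle_w G 3 x = (L e3) 3 := by unfold Angle_w; rw [hpx]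
    have hw4 : Angle_w G 4 x = (L e3) 4 := by unfold Angle_w; rw [hpx]
    have h0 : Angle_w G 3 x ^ 2 + Angle_w G 4 x ^ 2 ≠ 0 := by
      rw [hw3, hw4]
      intro h
      have h3 : (L e3) 3 = 0 := by nlinarith [sq_nonneg ((L e3) 3), sq_nonneg ((L e3) 4)]
      have h4 : (L e3) 4 = 0 := by nlinarith [sq_nonneg ((L e3) 3), sq_nonneg ((L e3) 4)]
      rw [h3, h4] at hdet'
      simp at hdet'
    have hpos : 0 < Angle_w G 3 x ^ 2 + Angle_w G 4 x ^ 2 := lt_of_le_of_ne (by positivity) h0.symm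
    have hr : 0 < Angle_r G x := Real.sqrt_pos.2 hpos
    have hsm' : ContDiffAt ℝ ∞ G (pxL x) := by rw [hpx]; exact hsm
    have hρ := Angle_rho_fderiv hx hsm' h0
    set R : E5 →L[ℝ] E5 := pxL + ((Angle_r G x)⁻¹ * Angle_w G 3 x) • pvL -
      ((Angle_r G x)⁻¹ * Angle_w G 4 x) • JL with hR
    have hρ' : HasFDerivAt (Angle_rho G) R (G x) := by rw [hGx]; exact hρ
    have hcomp : fderiv ℝ (fun y => Angle_rho G (G y)) x = R.comp L :=
      (hρ'.comp x hd.hasFDerivAt).fderiv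
    have hR3 : ∀ v, (R v) 3 = (Angle_r G x)⁻¹ * ((L e3) 3 * v 3 + (L e3) 4 * v 4) := by
      intro v
      rw [hR, hw3, hw4]
      have e1 : (pxL v) 3 = 0 := rfl
      have e2 : (pvL v) 3 = v 3 := rfl
      have e3 : (JL v) 3 = -v 4 := rfl
      simp only [_root_.sub_apply, _root_.add_apply,
        _root_.smul_apply, PiLp.sub_apply, PiLp.add_apply, PiLp.smul_apply,
        smul_eq_mul, e1, e2, e3]
      ring
    have hR4 : ∀ v, (R v) 4 = (Angle_r G x)⁻¹ * ((L e3) 3 * v 4 - (L e3) 4 * v 3) := by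
      intro v
      rw [hR, hw3, hw4]
      have e1 : (pxL v) 4 = 0 := rfl
      have e2 : (pvL v) 4 = v 4 := rfl
      have e3 : (JL v) 4 = v 3 := rfl
      simp only [_root_.sub_apply, _root_.add_apply,
        _root_.smul_apply, PiLp.sub_apply, PiLp.add_apply, PiLp.smul_apply,
        smul_eq_mul, e1, e2, e3]
      ring
    have hri : 0 < (Angle_r G x)⁻¹ := inv_pos.2 hr
    rw [hw3, hw4] at hpos
    refine ⟨h0, ?_⟩
    rw [hcomp]
    refine ⟨fun v hv => ?_, ?_, ?_, ?_⟩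
    · rw [ContinuousLinearMap.comp_apply, hfix v hv, hR]
      simp only [_root_.sub_apply, _root_.add_apply,
        _root_.smul_apply]
      rw [Angle_J hv, pv2_eq_zero.1 hv, px_of_plane hv, smul_zero, smul_zero, add_zero, sub_zero]
    · rw [ContinuousLinearMap.comp_apply, hR3]
      refine mul_pos hri ?_
      nlinarith [hpos]
    · rw [ContinuousLinearMap.comp_apply, hR4]
      ring
    · rw [ContinuousLinearMap.comp_apply, hR4]
      refine mul_pos hri ?_
      nlinarith [hdet']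
  refine ⟨Angle_rho G, Angle_rho_rot G, ⟨?_, ?_, ?_, ?_⟩, fun x hx0 hx => (hup x hx0 hx).2⟩
  · intro c hc x
    show Angle_rho G (G (c • x)) = c • Angle_rho G (G x)
    rw [hG.smul c hc, Angle_rho_smul hG.smul hc]
  · intro x hx
    show Angle_rho G (G x) = x
    rw [hG.plane x hx, Angle_rho_plane G hx]
  · intro x hx0 hx
    have hpx : pxL x = x := px_of_plane hx
    have hGx : G x = x := hG.plane x hx
    have hsm := hG.smooth x hx0 hx
    have hsmx : ContDiffAt ℝ ∞ G (pxL x) := by rw [hpx]; exact hsm.self_of_nhds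
    have h1 : ∀ᶠ y in 𝓝 x, ContDiffAt ℝ ∞ G (pxL y) := by
      have hc : Tendsto (fun y => pxL y) (𝓝 x) (𝓝 x) := by
        have := pxL.continuous.tendsto x
        rwa [hpx] at this
      exact hc.eventually hsm
    have h2 : ∀ᶠ y in 𝓝 x, Angle_w G 3 y ^ 2 + Angle_w G 4 y ^ 2 ≠ 0 := by
      have hc : ContinuousAt (fun z => Angle_w G 3 z ^ 2 + Angle_w G 4 z ^ 2) x :=
        (((Angle_w_smooth hsmx 3).pow 2).add ((Angle_w_smooth hsmx 4).pow 2)).continuousAt
      exact hc.eventually_ne (hup x hx0 hx).1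
    have h3 : ∀ᶠ y in 𝓝 x, ContDiffAt ℝ ∞ (Angle_rho G) y := by
      filter_upwards [h1, h2] with y hy hy'
      exact Angle_rho_smooth hy hy'
    have h4 : ∀ᶠ y in 𝓝 x, ContDiffAt ℝ ∞ (Angle_rho G) (G y) := by
      have hc : Tendsto G (𝓝 x) (𝓝 x) := by
        have := hsm.self_of_nhds.continuousAt.tendsto
        rwa [hGx] at this
      exact hc.eventually h3
    filter_upwards [hsm, h4] with y hy hy'
    exact hy'.comp y hy
  · intro x hx0 hx χ h0 h1
    exact (hup x hx0 hx).2.det h0 h1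

end Pool.Agent.Rot7
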