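import Pool.Agent.Rot7.Defs

/-!
# The rotated half equators

PROOF. Write the last two coordinates as a complex number `w = vec x 3 + i vec x 4`; the rotation
by `t` multiplies it by `exp (i t)`, and `OnHalf x` means `w` is real and `≥ 0`. `half_rot`: `vec
x 4 = 0`, `0 ≤ vec x 3`, and the last coordinate of the rotated point is `sin t * vec x 3 = 0`,
the fourth `cos t * vec x 3 ≥ 0`, `t = k * (2 π / n)`, `0 < t < 2 π`: if `vec x 3 > 0` then `sin t
= 0`, so `t = π` (`Real.sin_eq_zero_iff` or `t < π`, `t > π` excluded by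
`Real.sin_pos_of_pos_of_lt_pi` and its negative analogue), `cos t = -1`, contradiction.
`exists_angle`: `w ≠ 0` for `z`, `w = r exp (i θ)`, `r > 0` (`Complex.arg`, or
`Complex.norm_mul_exp_arg_mul_I`); `t = θ + π / n`. The point in question has the number `r exp (i
s)`, `s = (2 k - 1) π / n`; it is real and `≥ 0` only if `cos s = 1` (and `sin s = 0`), i.e. `s =
2 π m` for an integer `m` (`Real.cos_eq_one_iff`), `2 k - 1 = 2 m n`, an odd number would be even.
-/

set_option autoImplicit false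

open scoped ContDiff Topology Manifold
open Set Filter Metric

namespace Pool.Agent.Rot7

open Pool.Agent.HopfCov hiding pr
open Pool.Agent.HopfCov.Smooth
open Pool.Agent.HopfFin
open Pool.Agent.Rot4
open Pool.Agent.Rot5
open Pool.Agent.Rot6

private theorem cos_one_of {t : ℝ} (h1 : Real.sin t = 0) (h2 : 0 ≤ Real.cos t) :
    Real.cos t = 1 := by
  rcases (Real.sin_eq_zero_iff_cos_eq).1 h1 with h | h
  · exact h
  · rw [h] at h2
    norm_num at h2

theorem half_rot {n k : ℕ} (hk : 0 < k) (hkn : k < n) {x : Sph4} (h1 : OnHalf x)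
    (h2 : OnHalf ((rotS n)^[k] x)) : OnS2 x := by
  refine ⟨?_, h1.1⟩
  by_contra hne
  have hpos : 0 < vec x 3 := lt_of_le_of_ne h1.2 (Ne.symm hne)
  rw [rotS_iterate] at h2
  have e4 : Real.sin (k * (2 * Real.pi / n)) * vec x 3 +
      Real.cos (k * (2 * Real.pi / n)) * vec x 4 = 0 := h2.1
  have e3 : 0 ≤ Real.cos (k * (2 * Real.pi / n)) * vec x 3 -
      Real.sin (k * (2 * Real.pi / n)) * vec x 4 := h2.2
  rw [h1.1, mul_zero, add_zero] at e4
  rw [h1.1, mul_zero, sub_zero] at e3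
  have hs := (mul_eq_zero.1 e4).resolve_right hpos.ne'
  have hc : 0 ≤ Real.cos (k * (2 * Real.pi / n)) := nonneg_of_mul_nonneg_left e3 hpos
  obtain ⟨m, hm⟩ := (Real.cos_eq_one_iff _).1 (cos_one_of hs hc)
  have hn : (0 : ℝ) < n := Nat.cast_pos.2 (hk.trans hkn)
  have hpi := Real.pi_pos
  have hmn : (m : ℝ) * n = k := by
    field_simp at hm
    linarith
  have h3 : m * n = k := by exact_mod_cast hmn
  have h4 : (0 : ℤ) < m := by
    by_contra h5
    have h6 : m * n ≤ 0 := mul_nonpos_of_nonpos_of_nonneg (not_lt.1 h5) (Int.natCast_nonneg n)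
    omega
  have h5 : (n : ℤ) ≤ m * n := by nlinarith [Int.natCast_nonneg n]
  omega

theorem exists_angle {n : ℕ} (hn : 0 < n) {z : Sph4} (hz : ¬ OnS2 z) :
    ∃ t : ℝ, ∀ k : ℕ, ¬ OnHalf (rotA (-t) ((rotS n)^[k] z)) := by
  set w : ℂ := ⟨vec z 3, vec z 4⟩ with hw
  have hw0 : w ≠ 0 := by
    intro h
    exact hz ⟨congrArg Complex.re h, congrArg Complex.im h⟩
  have hr : 0 < ‖w‖ := norm_pos_iff.2 hw0
  have e3 : vec z 3 = ‖w‖ * Real.cos (Complex.arg w) := (Complex.norm_mul_cos_arg w).symm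
  have e4 : vec z 4 = ‖w‖ * Real.sin (Complex.arg w) := (Complex.norm_mul_sin_arg w).symm
  refine ⟨Complex.arg w + Real.pi / n, fun k hk => ?_⟩
  rw [rotS_iterate, rotA_rotA] at hk
  set a : ℝ := -(Complex.arg w + Real.pi / n) + k * (2 * Real.pi / n) with ha
  have h4 : Real.sin a * vec z 3 + Real.cos a * vec z 4 = 0 := hk.1
  have h3 : 0 ≤ Real.cos a * vec z 3 - Real.sin a * vec z 4 := hk.2
  have h4' : ‖w‖ * Real.sin (a + Complex.arg w) = 0 := by
    rw [← h4, Real.sin_add, e3, e4]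
    ring
  have h3' : 0 ≤ ‖w‖ * Real.cos (a + Complex.arg w) := by
    have h5 : ‖w‖ * Real.cos (a + Complex.arg w) =
        Real.cos a * vec z 3 - Real.sin a * vec z 4 := by
      rw [Real.cos_add, e3, e4]
      ring
    rw [h5]
    exact h3
  have hs := (mul_eq_zero.1 h4').resolve_left hr.ne'
  have hc : 0 ≤ Real.cos (a + Complex.arg w) := nonneg_of_mul_nonneg_right h3' hr
  obtain ⟨m, hm⟩ := (Real.cos_eq_one_iff _).1 (cos_one_of hs hc)
  have hn' : (0 : ℝ) < n := Nat.cast_pos.2 hn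
  have hpi := Real.pi_pos
  have hmn : 2 * (m : ℝ) * n = 2 * k - 1 := by
    rw [ha] at hm
    field_simp at hm
    have h6 : Real.pi * (2 * (m : ℝ) * n - (2 * k - 1)) = 0 := by linarith
    rcases mul_eq_zero.1 h6 with h7 | h7
    · exact absurd h7 hpi.ne'
    · linarith
  have h8 : 2 * (m * n) = 2 * (k : ℤ) - 1 := by
    have h9 : ((2 * (m * n) : ℤ) : ℝ) = ((2 * (k : ℤ) - 1 : ℤ) : ℝ) := by
      push_cast
      linarith
    exact_mod_cast h9
  omega

theorem half_of_S2 {x : Sph4} (hx : OnS2 x) : OnHalf x := ⟨hx.2, hx.1.ge⟩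

end Pool.Agent.Rot7
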