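import Pool.Agent.Rot7.ExtPage
import Pool.Agent.Rot7.Pages

/-!
# An action which is linear off one orbit has a ball which is disjoint from its translates

PROOF. `exists_type` (`Rot6/MainC.lean`) gives `d` with `SingularType n g d`, with `h`, `φ`, `y`
as there (`h (g x) = rotS n (h x)`, `h = φ` near the fixed points of `g`, `LocalDiffeoAt h x` off
the orbit of `y`, `g y ≠ y`). The fixed points of `g` are the points `x` with `OnS2 (h x)` (`rotS
n (h x) = h (g x)`, `rotS_fix_iff`). So `z = h y` is not on the 2-sphere; take `t` from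
`exists_angle`. Let `u = (rotHS (-t) * h)⁻¹`. It is a local diffeomorphism at the points `x` with
`OnHalf x`: let `w = u x`, so `rotA (-t) (h w) = x`. If `w` is not in the orbit of `y` then
`LocalDiffeoAt h w`, use `ld_rotA`, `ld_mul`, `ld_inv`. If `w = g^[k] y` then `h w = (rotS n)^[k]
z` and `rotA (-t) (h w)` is not on the half equator, contradiction. Let `σ` be as in `extend_page`
for `u`. `IsDiffeo σ`: `isDiffeo_of_homeo`. If `OnS2 x` then `σ x = u x` (`half_of_S2`), `h (u x)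
= rotA t x = x` (up to `rotA_fix`), `OnS2 (h (u x))`, so `u x` is a fixed point. If `g (σ x) = σ
x` then `OnS2 (h (σ x))`; put `x' = rotA (-t) (h (σ x)) = h (σ x)`, `OnS2 x'`, so `u x' = σ x` and
`σ x' = u x' = σ x`, `x' = x`. If `OnHalf x`, `OnHalf y'`, `0 < k ≤ n - 1`, `g^[k] (σ x) = σ y'`:
`σ x = u x`, `σ y' = u y'`; apply `rotA (-t) ∘ h`: `h (g^[k] w) = (rotS n)^[k] (h w)` and the
rotations commute (`rotS_iterate`, `rotA_rotA`), so `(rotS n)^[k] x = y'`, and `half_rot` gives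
`OnS2 x`.
-/

set_option autoImplicit false

open scoped ContDiff Topology Manifold
open Set Filter Metric

namespace Pool.Agent.Rot7

open Pool.Agent.HopfCov hiding pr
open Pool.Agent.HopfCov.Smooth
open Pool.Agent.HopfFin
open Pool.Agent.Rot4
open Pool.Agent.Rot5
open Pool.Agent.Rot6

theorem ball_of_off {n : ℕ} (hn : 2 ≤ n) {g : Sph4 → Sph4} (hg : UnknotAction n g)
    (hL : LinearOffOneOrbit g) : DisjointBall (n - 1) g := by
  have hn0 : 0 < n := by omega
  obtain ⟨d, hd⟩ := (exists_type hn g).1 ⟨hg, hL⟩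
  obtain ⟨h, φ, y, α, β, hcj, -, ⟨hy, hld⟩, -, -, -⟩ := hd.ex
  have hit : ∀ (k : ℕ) (x : Sph4), h (g^[k] x) = (rotS n)^[k] (h x) := by
    intro k x
    induction k with
    | zero => rfl
    | succ k ih => rw [Function.iterate_succ_apply', Function.iterate_succ_apply', hcj, ih]
  have hfix : ∀ x, g x = x ↔ OnS2 (h x) := by
    intro x
    rw [← rotS_fix_iff hn, ← hcj]
    exact h.injective.eq_iff.symm
  have hz : ¬ OnS2 (h y) := fun h1 => hy ((hfix y).2 h1)
  obtain ⟨t, ht⟩ := exists_angle hn0 hz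
  obtain ⟨u, hu1, hu2, hu3⟩ : ∃ u : Sph4 ≃ₜ Sph4, (∀ x, rotA (-t) (h (u x)) = x) ∧
      (∀ w, u (rotA (-t) (h w)) = w) ∧
      ∀ x, LocalDiffeoAt h (u x) → LocalDiffeoAt u x := by
    refine ⟨(rotHS (-t) * h)⁻¹, fun x => (rotHS (-t) * h).apply_symm_apply x,
      fun w => (rotHS (-t) * h).symm_apply_apply w, fun x hx => ?_⟩
    have h1 : LocalDiffeoAt (rotHS (-t)) (h ((rotHS (-t) * h)⁻¹ x)) := ld_rotA (-t) _
    have h2 := ld_inv (ld_mul h1 hx)
    rwa [show (rotHS (-t) * h) ((rotHS (-t) * h)⁻¹ x) = x from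
      (rotHS (-t) * h).apply_symm_apply x] at h2
  have hu4 : ∀ x, h (u x) = rotA t x := by
    intro x
    have h1 : rotA t (rotA (-t) (h (u x))) = rotA t x := by rw [hu1]
    rwa [rotA_rotA, add_neg_cancel, rotA_zero] at h1
  have hu5 : ∀ x, OnHalf x → LocalDiffeoAt u x := by
    intro x hx
    refine hu3 x (hld _ fun k hk => ht k ?_)
    rw [← hit, ← hk, hu1]
    exact hx
  obtain ⟨σ, hσ1, hσ2⟩ := extend_page hu5
  refine ⟨σ, isDiffeo_of_homeo hσ1, fun x => ⟨fun h1 => ?_, fun h1 => ?_⟩, ?_⟩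
  · have h2 : OnS2 (h (σ x)) := (hfix _).1 h1
    have h3 : u (h (σ x)) = σ x := by
      have h4 := hu2 (σ x)
      rwa [rotA_fix h2] at h4
    have h5 : σ (h (σ x)) = σ x := by rw [hσ2 _ (half_of_S2 h2), h3]
    have h6 := σ.injective h5
    rwa [h6] at h2
  · rw [hσ2 x (half_of_S2 h1)]
    refine (hfix _).2 ?_
    rw [hu4, rotA_fix h1]
    exact h1
  · intro x y' k hx hy' hk hkm heq
    rw [hσ2 x hx, hσ2 y' hy'] at heq
    have h1 : (rotS n)^[k] x = y' := by
      have h2 : rotA (-t) (h (g^[k] (u x))) = y' := by rw [heq, hu1]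
      rw [hit, hu4, rotS_iterate, rotA_rotA, rotA_rotA] at h2
      rw [rotS_iterate, ← h2]
      congr 1
      ring
    have hkn : k < n := by omega
    exact half_rot hk hkn hx (by rw [h1]; exact hy')

theorem ball_mono {m m' : ℕ} (h : m ≤ m') {g : Sph4 → Sph4} (hB : DisjointBall m' g) :
    DisjointBall m g := by
  obtain ⟨σ, h1, h2, h3⟩ := hB
  exact ⟨σ, h1, h2, fun x y k hx hy hk hkm => h3 x y k hx hy hk (hkm.trans h)⟩

end Pool.Agent.Rot7
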