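import Pool.Agent.Rot7.Defs

/-!
# Linear maps which are the identity on the plane and upper triangular on the last two coordinates

PROOF. `Upper.det`: let `M = (1 - χ) • id + χ • L`, `M v = 0`; show `v = 0` (then the determinant
is not zero: `LinearMap.bot_lt_ker_of_det_eq_zero`, see the proofs in `Rot5/LinAlg.lean` or
`Rot5/QLin.lean`, `det_q`). `v = pxL v + v₃ e₃ + v₄ e₄`, `(L v)₄ = v₄ (L e₄)₄`, so `(1 - χ + χ (L
e₄)₄) v₄ = 0`, `v₄ = 0`; then `(L v)₃ = v₃ (L e₃)₃`, `v₃ = 0`; then `L v = v`, `M v = v`, `v = 0`.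
`Upper.inv`: for `v` in the plane `L' v = L' (L v) = v`. `e₃ = L' (L e₃) = L' (p + (L e₃)₃ e₃) = p
+ (L e₃)₃ (L' e₃)` with `p` in the plane, so `(L' e₃)₃ = 1 / (L e₃)₃`, `(L' e₃)₄ = 0`; `e₄ = L' (L
e₄) = p' + (L e₄)₃ (L' e₃) + (L e₄)₄ (L' e₄)`, the last coordinate gives `(L e₄)₄ (L' e₄)₄ = 1`.
`fderiv_fix`: `t ↦ F (x + t v) = x + t v` for all real `t` has the derivative `v` at `0`.
`detA_pos_of_det`: for `χ ∈ [0, 1]` let `M_χ = (1 - χ) • id + χ • L`; `detA M_χ ≠ 0` (`detA_ne`;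
`L` maps the plane to itself), it is continuous in `χ` (`continuous_detA`) and `1` for `χ = 0`,
hence positive for `χ = 1` (intermediate value theorem).
-/

set_option autoImplicit false

open scoped ContDiff Topology Manifold
open Set Filter Metric

namespace Pool.Agent.Rot7

open Pool.Agent.HopfCov hiding pr
open Pool.Agent.HopfCov.Smooth
open Pool.Agent.HopfFin
open Pool.Agent.Rot4
open Pool.Agent.Rot5
open Pool.Agent.Rot6

/-- the fifth basis vector -/
noncomputable def e4 : E5 := EuclideanSpace.single 4 1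

/-- the identity on the plane, upper triangular with a positive diagonal on the last two
coordinates -/
structure Upper (L : E5 →L[ℝ] E5) : Prop where
  plane : ∀ v, pv2 v = 0 → L v = v
  pos3 : 0 < (L e3) 3
  zero : (L e3) 4 = 0
  pos4 : 0 < (L e4) 4

private theorem Block_pv_zero {x : E5} (h3 : x 3 = 0) (h4 : x 4 = 0) : pvL x = 0 := by
  rw [pvL_apply]
  ext i
  fin_cases i
  · rfl
  · rfl
  · rfl
  · exact h3
  · exact h4

private theorem Block_pv_single (x : E5) : pvL x = x 3 • e3 + x 4 • e4 := by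
  rw [pvL_apply, e3, e4]
  ext i
  fin_cases i <;> simp

private theorem Block_coords {L : E5 →L[ℝ] E5} (hP : ∀ x, pv2 x = 0 → L x = x) (x : E5) :
    L x = pxL x + x 3 • L e3 + x 4 • L e4 := by
  conv_lhs => rw [← px_add_pv x]
  rw [map_add, Block_pv_single, map_add, map_smul, map_smul,
    hP (pxL x) (pv2_eq_zero.2 (Block_pv_zero rfl rfl)), add_assoc]

private theorem Block_c3 {L : E5 →L[ℝ] E5} (hP : ∀ x, pv2 x = 0 → L x = x) (x : E5) :
    (L x) 3 = (L e3) 3 * x 3 + (L e4) 3 * x 4 := by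
  have := congrArg (fun v : E5 => v 3) (Block_coords hP x)
  simp only [PiLp.add_apply, PiLp.smul_apply, smul_eq_mul] at this
  have h0 : (pxL x) 3 = 0 := rfl
  rw [this, h0]
  ring

private theorem Block_c4 {L : E5 →L[ℝ] E5} (hP : ∀ x, pv2 x = 0 → L x = x) (x : E5) :
    (L x) 4 = (L e3) 4 * x 3 + (L e4) 4 * x 4 := by
  have := congrArg (fun v : E5 => v 4) (Block_coords hP x)
  simp only [PiLp.add_apply, PiLp.smul_apply, smul_eq_mul] at this
  have h0 : (pxL x) 4 = 0 := rfl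
  rw [this, h0]
  ring

theorem Upper.det {L : E5 →L[ℝ] E5} (h : Upper L) {χ : ℝ} (h0 : 0 ≤ χ) (h1 : χ ≤ 1) :
    ((1 - χ) • ContinuousLinearMap.id ℝ E5 + χ • L).det ≠ 0 := by
  intro hdet
  have hdet2 : LinearMap.det ((((1 - χ) • ContinuousLinearMap.id ℝ E5 + χ • L :
    E5 →L[ℝ] E5)) : E5 →ₗ[ℝ] E5) = 0 := hdet
  rw [LinearMap.det_eq_zero_iff_ker_ne_bot, Submodule.ne_bot_iff] at hdet2
  obtain ⟨x, hx, hx0⟩ := hdet2
  have hM : (1 - χ) • x + χ • L x = 0 := hx
  have c3 := congrArg (fun v : E5 => v 3) hM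
  have c4 := congrArg (fun v : E5 => v 4) hM
  simp only [PiLp.add_apply, PiLp.smul_apply, PiLp.zero_apply, smul_eq_mul,
    Block_c3 h.plane x, Block_c4 h.plane x, h.zero] at c3 c4
  have p3 := h.pos3
  have p4 := h.pos4
  have hpos : ∀ a : ℝ, 0 < a → 0 < (1 - χ) + χ * a := by
    intro a ha
    rcases eq_or_lt_of_le h1 with h2 | h2
    · rw [h2]
      linarith
    · have := mul_nonneg h0 ha.le
      linarith
  have h4 : x 4 = 0 := by
    have : ((1 - χ) + χ * (L e4) 4) * x 4 = 0 := by linear_combination c4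
    rcases mul_eq_zero.1 this with h5 | h5
    · exact absurd h5 (hpos _ p4).ne'
    · exact h5
  have h3 : x 3 = 0 := by
    rw [h4] at c3
    have : ((1 - χ) + χ * (L e3) 3) * x 3 = 0 := by linear_combination c3
    rcases mul_eq_zero.1 this with h5 | h5
    · exact absurd h5 (hpos _ p3).ne'
    · exact h5
  rw [h.plane x (pv2_eq_zero.2 (Block_pv_zero h3 h4)), ← add_smul, sub_add_cancel, one_smul] at hM
  exact hx0 hM

theorem Upper.inv {L L' : E5 →L[ℝ] E5} (h : Upper L) (hL : ∀ v, L' (L v) = v) : Upper L' := by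
  have hP : ∀ v, pv2 v = 0 → L' v = v := fun v hv => by
    conv_lhs => rw [← h.plane v hv]
    exact hL v
  have p3 := h.pos3
  have p4 := h.pos4
  have a3 : (e3 : E5) 3 = 1 := by simp [e3]
  have a4 : (e3 : E5) 4 = 0 := by simp [e3]
  have b3 : (e4 : E5) 3 = 0 := by simp [e4]
  have b4 : (e4 : E5) 4 = 1 := by simp [e4]
  have c1 := Block_c3 hP (L e3)
  have c2 := Block_c4 hP (L e3)
  have d2 := Block_c4 hP (L e4)
  rw [hL, a3, h.zero, mul_zero, add_zero] at c1
  rw [hL, a4, h.zero, mul_zero, add_zero] at c2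
  rw [hL, b4] at d2
  have z : (L' e3) 4 = 0 := by
    rcases mul_eq_zero.1 c2.symm with h5 | h5
    · exact h5
    · exact absurd h5 p3.ne'
  rw [z, zero_mul, zero_add] at d2
  refine ⟨hP, ?_, z, ?_⟩
  · by_contra hc
    have := mul_nonpos_of_nonpos_of_nonneg (not_lt.1 hc) p3.le
    linarith
  · by_contra hc
    have := mul_nonpos_of_nonpos_of_nonneg (not_lt.1 hc) p4.le
    linarith

theorem fderiv_fix {F : E5 → E5} {x : E5} (hx : pv2 x = 0) (hd : DifferentiableAt ℝ F x)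
    (hP : ∀ y, pv2 y = 0 → F y = y) {v : E5} (hv : pv2 v = 0) : fderiv ℝ F x v = v := by
  have h1 : HasDerivAt (fun t : ℝ => F (x + t • v)) (fderiv ℝ F x v) 0 := by
    have h2 : HasDerivAt (fun t : ℝ => x + t • v) v 0 := by
      simpa using ((hasDerivAt_id (0 : ℝ)).smul_const v).const_add x
    have h3 : HasFDerivAt F (fderiv ℝ F x) (x + (0 : ℝ) • v) := by
      rw [zero_smul, add_zero]
      exact hd.hasFDerivAt
    exact h3.comp_hasDerivAt 0 h2
  have h4 : HasDerivAt (fun t : ℝ => F (x + t • v)) v 0 := by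
    have h5 : (fun t : ℝ => F (x + t • v)) = fun t : ℝ => x + t • v := by
      funext t
      apply hP
      rw [pv2_eq_zero] at hx hv ⊢
      rw [map_add, map_smul, hx, hv, smul_zero, add_zero]
    rw [h5]
    simpa using ((hasDerivAt_id (0 : ℝ)).smul_const v).const_add x
  exact h1.unique h4

theorem detA_pos_of_det {L : E5 →L[ℝ] E5} (hP : ∀ v, pv2 v = 0 → L v = v)
    (hd : ∀ χ : ℝ, 0 ≤ χ → χ ≤ 1 →
      ((1 - χ) • ContinuousLinearMap.id ℝ E5 + χ • L).det ≠ 0) : 0 < detA L := by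
  let M : ℝ → (E5 →L[ℝ] E5) := fun χ => (1 - χ) • ContinuousLinearMap.id ℝ E5 + χ • L
  have hM : Continuous M := by
    show Continuous fun χ : ℝ => (1 - χ) • ContinuousLinearMap.id ℝ E5 + χ • L
    fun_prop
  have hMP : ∀ (χ : ℝ) (x : E5), pvL x = 0 → pvL (M χ x) = 0 := by
    intro χ x hx
    have h1 : M χ x = (1 - χ) • x + χ • L x := rfl
    rw [h1, hP x (pv2_eq_zero.2 hx), ← add_smul, sub_add_cancel, one_smul, hx]
  have hne : ∀ χ : ℝ, 0 ≤ χ → χ ≤ 1 → detA (M χ) ≠ 0 := fun χ h0 h1 =>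
    detA_ne (hMP χ) (hd χ h0 h1)
  have hc : Continuous fun χ => detA (M χ) := continuous_detA.comp hM
  have h0 : detA (M 0) = 1 := by
    have : M 0 = ContinuousLinearMap.id ℝ E5 := by
      refine ContinuousLinearMap.ext fun v => ?_
      show (1 - (0 : ℝ)) • v + (0 : ℝ) • L v = v
      rw [sub_zero, one_smul, zero_smul, add_zero]
    rw [this]
    simp [detA]
  have h1 : M 1 = L := by
    refine ContinuousLinearMap.ext fun v => ?_
    show (1 - (1 : ℝ)) • v + (1 : ℝ) • L v = L v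
    rw [sub_self, one_smul, zero_smul, zero_add]
  by_contra hcon
  have hle : detA (M 1) ≤ 0 := by
    rw [h1]
    exact not_lt.1 hcon
  obtain ⟨c, hc1, hc2⟩ := intermediate_value_Icc' (zero_le_one' ℝ) hc.continuousOn
    (show (0 : ℝ) ∈ Set.Icc (detA (M 1)) (detA (M 0)) from ⟨hle, by rw [h0]; exact zero_le_one⟩)
  exact hne c hc1.1 hc1.2 hc2

end Pool.Agent.Rot7
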