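import Pool.Agent.Rot7.Iso

/-!
# The coordinates around the middle point of the half equator

PROOF. Let `P : E5 ≃ₗᵢ[ℝ] E5` be the coordinate isometry `P v = (v₃, v₁, v₂, -v₀, v₄)` (define it
by its formula, inverse `w ↦ (-w₃, w₁, w₂, w₀, w₄)`, norm: `EuclideanSpace.norm_eq`,
`Fin.sum_univ_five`; see `Faith_rot` in `Rot5/Faith.lean`). Then `cap y = resS P (sg y)` (compare
`capv` with `sgv`). So `cap` is an open embedding (`isOpenEmbedding_sg`, a homeomorphism) and a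
local diffeomorphism (`ld_sg`, `ld_resS`, `LDA.comp'`). `half_cap`: the coordinates of `cap y` are
those of `capv y`, the factor `(‖y‖ ^ 2 + 1)⁻¹` is positive. `half_range`: `sg_sgi` for the point
`(resS P)⁻¹ x`, which is not `infS`: otherwise `vec x = P e₀ = (0, 0, 0, -1, 0)`, `vec x 3 < 0`.
-/

set_option autoImplicit false

open scoped ContDiff Topology Manifold
open Set Filter Metric

namespace Pool.Agent.Rot7

open Pool.Agent.HopfCov hiding pr
open Pool.Agent.HopfCov.Smooth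
open Pool.Agent.HopfFin
open Pool.Agent.Rot4
open Pool.Agent.Rot5
open Pool.Agent.Rot6

/-- the coordinate isometry which maps the point at infinity to `(0, 0, 0, -1, 0)` -/
private noncomputable def CapEmb_P : E5 ≃ₗᵢ[ℝ] E5 where
  toFun v := WithLp.toLp 2 ![v 3, v 1, v 2, -v 0, v 4]
  map_add' v w := by
    ext i
    fin_cases i
    · rfl
    · rfl
    · rfl
    · exact neg_add (v 0) (w 0)
    · rfl
  map_smul' c v := by
    ext i
    fin_cases i
    · rfl
    · rfl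
    · rfl
    · exact (mul_neg c (v 0)).symm
    · rfl
  invFun w := WithLp.toLp 2 ![-w 3, w 1, w 2, w 0, w 4]
  left_inv v := by
    ext i
    fin_cases i
    · exact neg_neg (v 0)
    · rfl
    · rfl
    · rfl
    · rfl
  right_inv v := by
    ext i
    fin_cases i
    · rfl
    · rfl
    · rfl
    · exact neg_neg (v 3)
    · rfl
  norm_map' v := by
    rw [EuclideanSpace.norm_eq, EuclideanSpace.norm_eq]
    congr 1
    simp only [Fin.sum_univ_five, Real.norm_eq_abs, sq_abs]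
    show v 3 ^ 2 + v 1 ^ 2 + v 2 ^ 2 + (-v 0) ^ 2 + v 4 ^ 2 =
      v 0 ^ 2 + v 1 ^ 2 + v 2 ^ 2 + v 3 ^ 2 + v 4 ^ 2
    ring

private theorem CapEmb_apply (v : E5) :
    CapEmb_P v = WithLp.toLp 2 ![v 3, v 1, v 2, -v 0, v 4] := rfl

private theorem CapEmb_cap (y : E4) : cap y = resS CapEmb_P (sg y) := by
  apply vec_inj
  rw [vec_resS]
  show capv y = CapEmb_P (sgv y)
  unfold capv sgv
  rw [map_smul]
  congr 1
  rw [CapEmb_apply]
  ext i
  fin_cases i
  · rfl
  · rfl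
  · rfl
  · show 1 - ‖y‖ ^ 2 = -(‖y‖ ^ 2 - 1)
    ring
  · rfl

private theorem CapEmb_pos (y : E4) : 0 < (‖y‖ ^ 2 + 1)⁻¹ := by positivity

private theorem CapEmb_c3 (y : E4) : vec (cap y) 3 = (‖y‖ ^ 2 + 1)⁻¹ * (1 - ‖y‖ ^ 2) := rfl

private theorem CapEmb_c4 (y : E4) : vec (cap y) 4 = (‖y‖ ^ 2 + 1)⁻¹ * (2 * y 3) := rfl

theorem isOpenEmbedding_cap : Topology.IsOpenEmbedding cap := by
  have h1 : cap = resS CapEmb_P ∘ sg := funext CapEmb_cap
  rw [h1]
  exact (resS CapEmb_P).isOpenEmbedding.comp isOpenEmbedding_sg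

theorem ld_cap (y : E4) : LDA (Y := Sph4.carrier) cap y := by
  have h1 : cap = fun y => resS CapEmb_P (sg y) := funext CapEmb_cap
  rw [h1]
  exact LDA.comp' (X := E4) (Y := Sph4.carrier) (Z := Sph4.carrier)
    (ld_resS CapEmb_P (sg y)) (ld_sg y)

theorem half_cap {y : E4} : OnHalf (cap y) ↔ y 3 = 0 ∧ ‖y‖ ≤ 1 := by
  unfold OnHalf
  rw [CapEmb_c3, CapEmb_c4]
  have h1 := CapEmb_pos y
  constructor
  · rintro ⟨h2, h3⟩
    refine ⟨?_, ?_⟩
    · have h4 := (mul_eq_zero.1 h2).resolve_left h1.ne'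
      linarith
    · have h4 := nonneg_of_mul_nonneg_right h3 h1
      have h5 := norm_nonneg y
      nlinarith
  · rintro ⟨h2, h3⟩
    refine ⟨?_, mul_nonneg h1.le ?_⟩
    · rw [h2]
      ring
    · have h5 := norm_nonneg y
      nlinarith

theorem half_range {x : Sph4} (hx : OnHalf x) : ∃ y, cap y = x := by
  set z : Sph4 := (resS CapEmb_P).symm x with hz
  have hx' : resS CapEmb_P z = x := (resS CapEmb_P).apply_symm_apply x
  have h1 : z ≠ infS := by
    intro h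
    have h2 : vec x = CapEmb_P (vec infS) := by
      rw [← hx', h, vec_resS]
    have h3 : vec x 3 = -1 := by
      rw [h2, CapEmb_apply]
      show -(EuclideanSpace.single 0 1 : E5) 0 = -1
      simp
    have h4 := hx.2
    rw [h3] at h4
    linarith
  refine ⟨sgi z, ?_⟩
  rw [CapEmb_cap, sg_sgi h1, hx']

theorem refS_cap (y : E4) : refS (cap y) = cap (WithLp.toLp 2 ![y 0, y 1, y 2, -y 3]) := by
  have hn : ‖(WithLp.toLp 2 ![y 0, y 1, y 2, -y 3] : E4)‖ = ‖y‖ := by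
    rw [EuclideanSpace.norm_eq, EuclideanSpace.norm_eq]
    congr 1
    simp only [Fin.sum_univ_four, Real.norm_eq_abs, sq_abs]
    show y 0 ^ 2 + y 1 ^ 2 + y 2 ^ 2 + (-y 3) ^ 2 = y 0 ^ 2 + y 1 ^ 2 + y 2 ^ 2 + y 3 ^ 2
    ring
  apply vec_inj
  show refE (capv y) = capv (WithLp.toLp 2 ![y 0, y 1, y 2, -y 3])
  unfold capv
  rw [hn]
  ext i
  fin_cases i
  · rfl
  · rfl
  · rfl
  · rfl
  · show -((‖y‖ ^ 2 + 1)⁻¹ * (2 * y 3)) = (‖y‖ ^ 2 + 1)⁻¹ * (2 * -y 3)
    ring

end Pool.Agent.Rot7
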