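import Pool.Agent.Rot7.CapEmb
import Pool.Agent.HopfRem.Transport

/-!
# Extension of compactly supported diffeomorphisms of `ℝ⁴` to the sphere

PROOF. `exists_transport` (`HopfRem/Transport.lean`) with `κ = cap` gives `K` (the sphere is
Hausdorff). `K` is a local diffeomorphism at `cap y`: near `y`, `K ∘ cap = cap ∘ k` is a local
diffeomorphism (`ld_cap`, `ldAt_iff` in `HopfRem/ParRG.lean` for `k`), use `LDA.of_comp_right`. At
a point `x` off `cap '' C`, a compact and hence closed set, `K` is the identity near `x`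
(`ld_one`, `ld_congr`). A point which is not in the range of `cap` is off `cap '' C`.
-/

set_option autoImplicit false

open scoped ContDiff Topology Manifold
open Set Filter Metric

namespace Pool.Agent.Rot7

open Pool.Agent.HopfCov hiding pr
open Pool.Agent.HopfCov.Smooth
open Pool.Agent.HopfFin
open Pool.Agent.Rot4
open Pool.Agent.Rot5
open Pool.Agent.Rot6

private theorem CapExt_t2 : T2Space Sph4.carrier :=
  inferInstanceAs (T2Space (sphere (0 : E5) 1))

attribute [local instance] CapExt_t2

theorem cap_ext {k : E4 ≃ₜ E4} {C : Set E4} (hC : IsCompact C) (hk : ∀ x, x ∉ C → k x = x)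
    (hs : ∀ x, RG k x) : ∃ K : Sph4 ≃ₜ Sph4, (∀ y, K (cap y) = cap (k y)) ∧
      (∀ x, x ∉ cap '' C → K x = x) ∧ ∀ x, LocalDiffeoAt K x := by
  obtain ⟨K, h1, h2⟩ := exists_transport isOpenEmbedding_cap k hC hk
  refine ⟨K, h1, h2, fun x => ?_⟩
  by_cases hx : x ∈ range cap
  · obtain ⟨y, rfl⟩ := hx
    have h3 : LDA (X := E4) (Y := E4) k y :=
      ldAt_iff.2 (Eventually.of_forall hs)
    have h4 : LDA (X := E4) (Y := Sph4.carrier) (fun y => K (cap y)) y := by
      have h5 : (fun y => K (cap y)) = fun y => cap (k y) := funext h1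
      rw [h5]
      exact LDA.comp' (X := E4) (Y := E4) (Z := Sph4.carrier) (ld_cap (k y)) h3
    exact LDA.of_comp_right (X := E4) (Y := Sph4.carrier) (Z := Sph4.carrier) (ld_cap y) h4
  · have h3 : IsClosed (cap '' C) := (hC.image isOpenEmbedding_cap.continuous).isClosed
    have h4 : x ∉ cap '' C := fun h => hx (image_subset_range _ _ h)
    refine (LDA_id (X := Sph4.carrier) x).congr' ?_
    filter_upwards [h3.isOpen_compl.mem_nhds h4] with z hz
    exact (h2 z hz).symm

end Pool.Agent.Rot7
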