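import Pool.Agent.Rot5.StatementAct
import Pool.Agent.HopfRem.Statement4

/-!
# Smooth 3-balls bounded by the fixed 2-sphere; actions which are linear off a small set
-/

set_option autoImplicit false

open scoped ContDiff Topology Manifold
open Set Filter Metric

namespace Pool.Agent.HopfCov.Smooth

/-- the point lies on the half of the equator `x₄ = 0` which is bounded by the 2-sphere `OnS2`;
these points form a 3-ball -/
def OnHalf (x : Sph4) : Prop := vec x 4 = 0 ∧ 0 ≤ vec x 3

/-- the fixed points of `g` are the boundary of a smooth 3-ball, the image of the half equator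
under a diffeomorphism `σ`, which meets its images under `g, …, g ^ m` only in the boundary -/
def DisjointBall (m : ℕ) (g : Sph4 → Sph4) : Prop :=
  ∃ σ : Sph4 → Sph4, IsDiffeo σ ∧ (∀ x, g (σ x) = σ x ↔ OnS2 x) ∧
    ∀ (x y : Sph4) (k : ℕ), OnHalf x → OnHalf y → 0 < k → k ≤ m → g^[k] (σ x) = σ y → OnS2 x

/-- `A` lies in the union of the translates of an open subset of the 4-sphere which is
diffeomorphic to `ℝ⁴` and disjoint from its images under `g, …, g ^ (n - 1)` -/
def InTranslates (n : ℕ) (g : Sph4 → Sph4) (A : Set Sph4) : Prop :=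
  ∃ φ : E4 → Sph4, Topology.IsOpenEmbedding φ ∧ IsLocalDiffeomorph (𝓡 4) (𝓡 4) ∞ φ ∧
    (∀ (x y : E4) (k : ℕ), 0 < k → k < n → g^[k] (φ x) ≠ φ y) ∧
    ∀ a ∈ A, ∃ (k : ℕ) (x : E4), a = g^[k] (φ x)

/-- `g` is conjugate to the rotation by a homeomorphism `h` which agrees near the fixed points with
a diffeomorphism and is a local diffeomorphism off a closed set `A`, where `A` or `h A` has length
zero or `A` lies in the translates of an open ball -/
def AlmostLinear (n : ℕ) (g : Sph4 → Sph4) : Prop :=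
  ∃ (h : Sph4 ≃ₜ Sph4) (φ : Sph4 → Sph4) (A : Set Sph4),
    (∀ x, h (g x) = rotS n (h x)) ∧ (IsDiffeo φ ∧ ∀ x, g x = x → ∀ᶠ z in 𝓝 x, h z = φ z) ∧
    (IsClosed A ∧ ∀ x, x ∉ A → LocalDiffeoAt h x) ∧
    (NullLength A ∨ NullLength (h '' A) ∨ InTranslates n g A)

end Pool.Agent.HopfCov.Smooth
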