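import Pool.Agent.Rot6.MainC
import Pool.Agent.Rot7.StatementRec
import Pool.Agent.Rot5.ActIff

/-!
# Recognition of the actions which are linear off one orbit (library `Rot7`, owner helper64)

`OnHalf` is the half equator `x₄ = 0 ≤ x₃`, a 3-ball bounded by the fixed 2-sphere. `cap` is the
inverse of the stereographic projection centred at the middle point `(0, 0, 0, 1, 0)` of the half
equator; there the half equator is `{y | y 3 = 0, ‖y‖ ≤ 1}`. `Sect c y`: the last two coordinates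
of `y` lie in the sector `|y₄| ≤ c y₃`, `0 < y₃`. `Straight F`: at the points of the plane the
derivative of `F` maps `e₃` to a vector whose last two coordinates are positive and zero. `Up n A`
is the preimage of `A` in `ℝ⁴ ∖ 0`.
-/

set_option autoImplicit false

open scoped ContDiff Topology Manifold
open Set Filter Metric

namespace Pool.Agent.Rot7

open Pool.Agent.HopfCov hiding pr
open Pool.Agent.HopfCov.Smooth
open Pool.Agent.HopfFin
open Pool.Agent.Rot4
open Pool.Agent.Rot5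
open Pool.Agent.Rot6

/-- the fourth basis vector of `ℝ⁵` -/
noncomputable def e3 : E5 := EuclideanSpace.single 3 1

/-- the coordinates around the middle point of the half equator -/
noncomputable def capv (y : E4) : E5 :=
  (‖y‖ ^ 2 + 1)⁻¹ • WithLp.toLp 2 ![2 * y 2, 2 * y 0, 2 * y 1, 1 - ‖y‖ ^ 2, 2 * y 3]

theorem norm_capv (y : E4) : ‖capv y‖ = 1 := by
  have h1 : 0 < ‖y‖ ^ 2 + 1 := by positivity
  have h2 : ‖y‖ ^ 2 = y 0 ^ 2 + y 1 ^ 2 + y 2 ^ 2 + y 3 ^ 2 := by
    rw [EuclideanSpace.norm_sq_eq, Fin.sum_univ_four]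
    simp only [Real.norm_eq_abs, sq_abs]
  have h3 : ‖(WithLp.toLp 2 ![2 * y 2, 2 * y 0, 2 * y 1, 1 - ‖y‖ ^ 2, 2 * y 3] : E5)‖ ^ 2 =
      (‖y‖ ^ 2 + 1) ^ 2 := by
    rw [EuclideanSpace.norm_sq_eq, Fin.sum_univ_five]
    simp only [Real.norm_eq_abs, sq_abs]
    show (2 * y 2) ^ 2 + (2 * y 0) ^ 2 + (2 * y 1) ^ 2 + (1 - ‖y‖ ^ 2) ^ 2 + (2 * y 3) ^ 2 = _
    linear_combination (-4) * h2
  have h4 : ‖(WithLp.toLp 2 ![2 * y 2, 2 * y 0, 2 * y 1, 1 - ‖y‖ ^ 2, 2 * y 3] : E5)‖ =
      ‖y‖ ^ 2 + 1 := by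
    rw [← abs_of_nonneg (norm_nonneg _), ← abs_of_pos h1]
    exact sq_eq_sq_iff_abs_eq_abs _ _ |>.1 h3
  rw [capv, norm_smul, h4, norm_inv, Real.norm_of_nonneg h1.le, inv_mul_cancel₀ h1.ne']

/-- the coordinates around the middle point of the half equator -/
noncomputable def cap (y : E4) : Sph4 := ⟨capv y, mem_sphere_zero_iff_norm.2 (norm_capv y)⟩

/-- the last two coordinates lie in the sector -/
def Sect (c : ℝ) (y : E5) : Prop := 0 < y 3 ∧ |y 4| ≤ c * y 3

/-- the derivative at the points of the plane maps `e₃` to a positive multiple of `e₃` up to the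
plane -/
def Straight (F : E5 → E5) : Prop :=
  ∀ x, x ≠ 0 → pv2 x = 0 → 0 < (fderiv ℝ F x e3) 3 ∧ (fderiv ℝ F x e3) 4 = 0

/-- the points of `ℝ⁴ ∖ 0` off the ray which lie over `A` -/
def Up (n : ℕ) (A : Set Sph4) : Set E4 := {x | Om x ∧ sph n (q1 x) ∈ A}

end Pool.Agent.Rot7
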