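import Pool.Agent.Rot7.Defs

/-!
# Shrinking a flat ball

PROOF. `K = {y | y 3 = 0 ∧ ‖y‖ ≤ 1}` is compact (closed and bounded) and `K ⊆ O`, so there is `0 <
δ ≤ 1` with `cthickening δ K ⊆ O` (`IsCompact.exists_cthickening_subset_open`). Choose `ε > 0`, `ε
≤ 1` with `closedBall 0 ε ⊆ V`. Let `s₀` be the radial diffeomorphism of `hRad` (`SpecRadial`,
`HopfCov/Spec.lean`) with factor `ε` on `‖x‖ ≤ 1` and the identity for `‖x‖ ≥ 1 + δ / 4`, and `Λ
(y₀, y₁, y₂, y₃) = (y₀, y₁, y₂, c y₃)` with `c = 8 / δ`, a linear homeomorphism. Put `s = Λ⁻¹ * s₀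
* Λ`: `LD 1` everywhere (`Λ` and `Λ⁻¹` are linear with the determinants `c`, `c⁻¹`; or conjugation
lemmas of `HopfCov/Basic.lean`). For `y ∈ K`: `Λ y = y`, `s y = Λ⁻¹ (ε y) = ε y ∈ V`. The support
lies in `C = {y | ‖Λ y‖ ≤ 1 + δ / 4}` (compact), and `y ∈ C` has `|y₃| ≤ (1 + δ / 4) / c ≤ δ / 4`
and `‖(y₀, y₁, y₂, 0)‖ ≤ 1 + δ / 4`, so the distance of `y` from `K` is at most `δ / 2` (from
`(y₀, y₁, y₂, 0)`, scaled by the factor `1 / (1 + δ / 4)` into `K`).
-/

set_option autoImplicit false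

open scoped ContDiff Topology Manifold
open Set Filter Metric

namespace Pool.Agent.Rot7

open Pool.Agent.HopfCov hiding pr
open Pool.Agent.HopfCov.Smooth
open Pool.Agent.HopfFin
open Pool.Agent.Rot4
open Pool.Agent.Rot5
open Pool.Agent.Rot6

/-- the linear map multiplying the last coordinate by `a` -/
noncomputable def shr (a : ℝ) : E4 →L[ℝ] E4 :=
  ContinuousLinearMap.id ℝ E4 + (a - 1) • ((EuclideanSpace.proj (3 : Fin 4) :
    E4 →L[ℝ] ℝ).smulRight (EuclideanSpace.single (3 : Fin 4) (1 : ℝ)))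

theorem shr_apply (a : ℝ) (y : E4) :
    shr a y = y + ((a - 1) * y 3) • (EuclideanSpace.single (3 : Fin 4) (1 : ℝ) : E4) := by
  simp [shr, smul_smul]

theorem shr_last (a : ℝ) (y : E4) : shr a y 3 = a * y 3 := by
  rw [shr_apply]
  simp
  ring

theorem shr_first (a : ℝ) (y : E4) (i : Fin 4) (hi : i ≠ 3) : shr a y i = y i := by
  rw [shr_apply]
  simp [hi]

theorem shr_shr (a b : ℝ) (y : E4) : shr a (shr b y) = shr (a * b) y := by
  ext i
  by_cases hi : i = 3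
  · subst hi
    rw [shr_last, shr_last, shr_last, mul_assoc]
  · rw [shr_first _ _ _ hi, shr_first _ _ _ hi, shr_first _ _ _ hi]

theorem shr_one (y : E4) : shr 1 y = y := by
  rw [shr_apply]
  simp

/-- the homeomorphism multiplying the last coordinate by `a` -/
noncomputable def shr_hom (a : ℝ) (ha : a ≠ 0) : E4 ≃ₜ E4 where
  toFun := shr a
  invFun := shr a⁻¹
  left_inv y := by rw [shr_shr, inv_mul_cancel₀ ha, shr_one]
  right_inv y := by rw [shr_shr, mul_inv_cancel₀ ha, shr_one]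
  continuous_toFun := (shr a).continuous
  continuous_invFun := (shr a⁻¹).continuous

theorem shr_det (a : ℝ) (ha : 0 < a) : 0 < (shr a).det := by
  have h1 : shr a = (shr (Real.sqrt a)).comp (shr (Real.sqrt a)) := by
    apply ContinuousLinearMap.ext
    intro y
    rw [ContinuousLinearMap.comp_apply, shr_shr, Real.mul_self_sqrt ha.le]
  have h2 : (ContinuousLinearMap.id ℝ E4) = (shr (Real.sqrt a)).comp (shr (Real.sqrt a)⁻¹) := by
    apply ContinuousLinearMap.ext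
    intro y
    rw [ContinuousLinearMap.comp_apply, shr_shr, mul_inv_cancel₀ (Real.sqrt_pos.2 ha).ne', shr_one]
    rfl
  have h3 : (1 : ℝ) = (shr (Real.sqrt a)).det * (shr (Real.sqrt a)⁻¹).det := by
    rw [← det_comp_clm, ← h2]
    simp [ContinuousLinearMap.det]
  have h4 : (shr (Real.sqrt a)).det ≠ 0 := by
    intro h
    rw [h, zero_mul] at h3
    exact one_ne_zero h3
  rw [h1, det_comp_clm]
  exact mul_self_pos.2 h4

theorem LD_shr_hom (a : ℝ) (ha : 0 < a) (x : E4) : LD 1 (shr_hom a ha.ne') x := by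
  have h : 0 < 1 * (shr a).det := by
    rw [one_mul]
    exact shr_det a ha
  exact LD_clm (shr a) h x

theorem shr_norm_sq (y : E4) : ‖y‖ ^ 2 = y 0 ^ 2 + y 1 ^ 2 + y 2 ^ 2 + y 3 ^ 2 := by
  rw [EuclideanSpace.norm_sq_eq, Fin.sum_univ_four]
  simp only [Real.norm_eq_abs, sq_abs]

theorem shrink_ball {O V : Set E4} (hO : IsOpen O) (hB : ∀ y : E4, y 3 = 0 → ‖y‖ ≤ 1 → y ∈ O)
    (hV : V ∈ 𝓝 (0 : E4)) : ∃ (s : E4 ≃ₜ E4) (C : Set E4), (∀ x, LD 1 s x) ∧ IsCompact C ∧ C ⊆ O ∧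
      (∀ x, x ∉ C → s x = x) ∧ ∀ y : E4, y 3 = 0 → ‖y‖ ≤ 1 → s y ∈ V := by
  have hKc : IsCompact {y : E4 | y 3 = 0 ∧ ‖y‖ ≤ 1} := by
    refine (isCompact_closedBall (0 : E4) 1).of_isClosed_subset ?_ ?_
    · refine IsClosed.inter ?_ ?_
      · exact isClosed_eq (EuclideanSpace.proj (3 : Fin 4) : E4 →L[ℝ] ℝ).continuous
          continuous_const
      · exact isClosed_le continuous_norm continuous_const
    · intro y hy
      rw [mem_closedBall_zero_iff]
      exact hy.2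
  obtain ⟨δ₀, hδ₀, hδO⟩ := hKc.exists_cthickening_subset_open hO fun y hy => hB y hy.1 hy.2
  obtain ⟨ε₀, hε₀, hεV⟩ := Metric.nhds_basis_closedBall.mem_iff.1 hV
  set δ : ℝ := min δ₀ 1 with hδ
  have hδp : 0 < δ := lt_min hδ₀ one_pos
  have hδ1 : δ ≤ 1 := min_le_right _ _
  have hδδ : δ ≤ δ₀ := min_le_left _ _
  set ε : ℝ := min ε₀ 1 with hε
  have hεp : 0 < ε := lt_min hε₀ one_pos
  obtain ⟨s₀, s1, s2, s3⟩ := hRad E4 ε 1 (1 + δ / 4) hεp (min_le_right _ _) one_pos (by linarith)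
  set c : ℝ := 8 / δ with hc
  have hcp : 0 < c := by positivity
  have hcδ : c * δ = 8 := by
    rw [hc]
    field_simp
  set L : E4 ≃ₜ E4 := shr_hom c hcp.ne' with hL
  have hLa : ∀ y, L y = shr c y := fun y => rfl
  have hLi : ∀ y, (L⁻¹ : E4 ≃ₜ E4) y = shr c⁻¹ y := fun y => rfl
  refine ⟨L⁻¹ * s₀ * L, L ⁻¹' closedBall 0 (1 + δ / 4), ?_, ?_, ?_, ?_, ?_⟩
  · exact LD_all_mul (LD_all_mul (LD_all_inv (LD_shr_hom c hcp)) s1) (LD_shr_hom c hcp)
  · exact L.isCompact_preimage.2 (isCompact_closedBall _ _)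
  · intro y hy
    rw [mem_preimage, mem_closedBall_zero_iff, hLa] at hy
    apply hδO
    have e1 : ‖shr 0 y‖ ^ 2 + (c * y 3) ^ 2 = ‖shr c y‖ ^ 2 := by
      rw [shr_norm_sq, shr_norm_sq, shr_last, shr_last, shr_first _ _ 0 (by decide),
        shr_first _ _ 1 (by decide), shr_first _ _ 2 (by decide), shr_first _ _ 0 (by decide),
        shr_first _ _ 1 (by decide), shr_first _ _ 2 (by decide)]
      ring
    have e2 : ‖shr c y‖ ^ 2 ≤ (1 + δ / 4) ^ 2 := pow_le_pow_left₀ (norm_nonneg _) hy 2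
    have e3 : ‖shr 0 y‖ ≤ 1 + δ / 4 := by
      apply le_of_sq_le_sq _ (by positivity)
      nlinarith [sq_nonneg (c * y 3)]
    have e4 : |c * y 3| ≤ 1 + δ / 4 := by
      apply abs_le_of_sq_le_sq _ (by positivity)
      nlinarith [sq_nonneg (‖shr 0 y‖)]
    have e5 : |y 3| ≤ δ / 4 := by
      rw [abs_mul, abs_of_pos hcp] at e4
      have e6 : |y 3| * 8 ≤ (1 + δ / 4) * δ := by
        calc |y 3| * 8 = (c * |y 3|) * δ := by rw [← hcδ]; ring
          _ ≤ (1 + δ / 4) * δ := mul_le_mul_of_nonneg_right e4 hδp.le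
      nlinarith
    have e7 : dist y (shr 0 y) = |y 3| := by
      rw [dist_eq_norm, shr_apply]
      rw [show y - (y + ((0 - 1) * y 3) • (EuclideanSpace.single (3 : Fin 4) (1 : ℝ) : E4)) =
        (y 3) • (EuclideanSpace.single (3 : Fin 4) (1 : ℝ) : E4) by
          rw [zero_sub, neg_one_mul, neg_smul]; abel]
      rw [norm_smul, Real.norm_eq_abs]
      simp
    have e8 : (1 + δ / 4)⁻¹ • shr 0 y ∈ {y : E4 | y 3 = 0 ∧ ‖y‖ ≤ 1} := by
      refine ⟨?_, ?_⟩
      · show (1 + δ / 4)⁻¹ * (shr 0 y 3) = 0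
        rw [shr_last]
        ring
      · rw [norm_smul, norm_inv, Real.norm_of_nonneg (by positivity : 0 ≤ 1 + δ / 4)]
        rw [inv_mul_le_iff₀ (by positivity), mul_one]
        exact e3
    have e9 : dist (shr 0 y) ((1 + δ / 4)⁻¹ • shr 0 y) ≤ δ / 4 := by
      rw [dist_eq_norm]
      rw [show shr 0 y - (1 + δ / 4)⁻¹ • shr 0 y = (1 - (1 + δ / 4)⁻¹) • shr 0 y by
        rw [sub_smul, one_smul]]
      have f1 : 0 ≤ 1 - (1 + δ / 4)⁻¹ := by
        have : (1 + δ / 4)⁻¹ ≤ 1 := inv_le_one_of_one_le₀ (by linarith)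
        linarith
      rw [norm_smul, Real.norm_of_nonneg f1]
      calc (1 - (1 + δ / 4)⁻¹) * ‖shr 0 y‖ ≤ (1 - (1 + δ / 4)⁻¹) * (1 + δ / 4) :=
            mul_le_mul_of_nonneg_left e3 f1
        _ = δ / 4 := by field_simp; ring
    refine Metric.mem_cthickening_of_dist_le y _ δ₀ _ e8 ?_
    calc dist y ((1 + δ / 4)⁻¹ • shr 0 y) ≤ dist y (shr 0 y) +
          dist (shr 0 y) ((1 + δ / 4)⁻¹ • shr 0 y) := dist_triangle _ _ _
      _ ≤ δ / 4 + δ / 4 := add_le_add (e7.le.trans e5) e9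
      _ ≤ δ₀ := by linarith
  · intro x hx
    rw [mem_preimage, mem_closedBall_zero_iff, not_le] at hx
    rw [mul_apply', mul_apply', s3 _ hx.le, inv_apply_self']
  · intro y h1 h2
    have f1 : L y = y := by
      rw [hLa, shr_apply, h1, mul_zero, zero_smul, add_zero]
    have f2 : (L⁻¹ : E4 ≃ₜ E4) (ε • y) = ε • y := by
      rw [hLi, shr_apply]
      have : (ε • y) 3 = 0 := by
        show ε * y 3 = 0
        rw [h1, mul_zero]
      rw [this, mul_zero, zero_smul, add_zero]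
    rw [mul_apply', mul_apply', f1, s2 y h2, f2]
    apply hεV
    rw [mem_closedBall_zero_iff, norm_smul, Real.norm_of_nonneg hεp.le]
    calc ε * ‖y‖ ≤ ε * 1 := mul_le_mul_of_nonneg_left h2 hεp.le
      _ ≤ ε₀ := by rw [mul_one]; exact min_le_left _ _

end Pool.Agent.Rot7
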