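import Pool.Agent.Rot7.GermS
import Pool.Agent.Rot7.ShrinkB

/-!
# Extension of a local diffeomorphism from the half equator

PROOF. `O = {y | LocalDiffeoAt u (cap y)}` is open (`LDA.eventually`) and contains all `y` with `y
3 = 0`, `‖y‖ ≤ 1` (`half_cap`). Let `E` be as in `germ_ext` for `u` at `cap 0`, and `V` a
neighbourhood of `0` with `E (cap y) = u (cap y)` for `y ∈ V`. `shrink_ball` gives `s`, `C`,
`cap_ext` extends `s` to `S` (`RG` from `LD.rg`). Put `σ = u * S⁻¹ * u⁻¹ * E * S`. For `x = cap y`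
on the half equator (`half_range`, `half_cap`): `S x = cap (s y)`, `s y ∈ V`, so `E (S x) = u (S
x)` and `σ x = u (S⁻¹ (u⁻¹ (u (S x)))) = u x`. `K = u * S⁻¹ * u⁻¹` is a local diffeomorphism at
every `z = u w`: if `w ∉ cap '' C` (a closed set) then `S⁻¹` is the identity near `w` and `K` is
the identity near `z`; if `w = cap c`, `c ∈ C`, then `S⁻¹ w ∈ cap '' C` (as `s` maps `C` onto
`C`), `u` is a local diffeomorphism at `w` and at `S⁻¹ w`, use `ld_inv`, `ld_mul`.
-/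

set_option autoImplicit false

open scoped ContDiff Topology Manifold
open Set Filter Metric

namespace Pool.Agent.Rot7

open Pool.Agent.HopfCov hiding pr
open Pool.Agent.HopfCov.Smooth
open Pool.Agent.HopfFin
open Pool.Agent.Rot4
open Pool.Agent.Rot5
open Pool.Agent.Rot6

private theorem ExtPage_conj {u S : Sph4 ≃ₜ Sph4} {D : Set Sph4} (hD : IsClosed D)
    (hu : ∀ x ∈ D, LocalDiffeoAt u x) (hS : ∀ x, LocalDiffeoAt S x) (hSD : ∀ x, x ∉ D → S x = x)
    (z : Sph4) : LocalDiffeoAt (u * (S⁻¹ * u⁻¹) : Sph4 ≃ₜ Sph4) z := by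
  have hinv : ∀ x, x ∉ D → S.symm x = x := by
    intro x hx
    rw [Homeomorph.symm_apply_eq]
    exact (hSD x hx).symm
  obtain ⟨w, rfl⟩ := u.surjective z
  by_cases hw : w ∈ D
  · have h1 : S.symm w ∈ D := by
      by_contra h
      have h2 : S (S.symm w) = S.symm w := hSD _ h
      rw [Homeomorph.apply_symm_apply] at h2
      rw [← h2] at h
      exact h hw
    have h2 : LocalDiffeoAt (u⁻¹ : Sph4 ≃ₜ Sph4) (u w) := ld_inv (hu w hw)
    have h3 : LocalDiffeoAt (S⁻¹ : Sph4 ≃ₜ Sph4) w := by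
      have h := ld_inv (hS (S.symm w))
      rwa [Homeomorph.apply_symm_apply] at h
    have e1 : (u⁻¹ : Sph4 ≃ₜ Sph4) (u w) = w := u.symm_apply_apply w
    have h4 : LocalDiffeoAt (S⁻¹ * u⁻¹ : Sph4 ≃ₜ Sph4) (u w) := by
      refine ld_mul ?_ h2
      rw [e1]
      exact h3
    refine ld_mul ?_ h4
    have e2 : (S⁻¹ * u⁻¹ : Sph4 ≃ₜ Sph4) (u w) = S.symm w := by
      show S.symm (u.symm (u w)) = S.symm w
      rw [Homeomorph.symm_apply_apply]
    rw [e2]
    exact hu _ h1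
  · refine ld_congr (f := (1 : Sph4 ≃ₜ Sph4)) (ld_one _) ?_
    have h1 : ∀ᶠ x in 𝓝 (u w), u.symm x ∉ D := by
      have h2 : Tendsto u.symm (𝓝 (u w)) (𝓝 w) := by
        have h3 := u.symm.continuous.tendsto (u w)
        rwa [Homeomorph.symm_apply_apply] at h3
      exact h2.eventually (hD.isOpen_compl.eventually_mem hw)
    filter_upwards [h1] with x hx
    show x = u (S.symm (u.symm x))
    rw [hinv _ hx, Homeomorph.apply_symm_apply]

theorem extend_page {u : Sph4 ≃ₜ Sph4} (hu : ∀ x, OnHalf x → LocalDiffeoAt u x) :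
    ∃ σ : Sph4 ≃ₜ Sph4, (∀ x, LocalDiffeoAt σ x) ∧ ∀ x, OnHalf x → σ x = u x := by
  have hcc : Continuous cap := isOpenEmbedding_cap.continuous
  have hO : IsOpen {y : E4 | LocalDiffeoAt u (cap y)} := by
    rw [isOpen_iff_mem_nhds]
    intro y hy
    exact hcc.continuousAt.eventually
      (LDA.eventually (X := Sph4.carrier) (Y := Sph4.carrier) hy)
  have hB : ∀ y : E4, y 3 = 0 → ‖y‖ ≤ 1 → y ∈ {y : E4 | LocalDiffeoAt u (cap y)} :=
    fun y h1 h2 => hu _ (half_cap.2 ⟨h1, h2⟩)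
  have h0 : OnHalf (cap 0) := half_cap.2 ⟨rfl, by rw [norm_zero]; exact zero_le_one⟩
  obtain ⟨E, hE, hEu⟩ := germ_ext (hu _ h0)
  have hV : {y : E4 | E (cap y) = u (cap y)} ∈ 𝓝 (0 : E4) := hcc.continuousAt.eventually hEu
  obtain ⟨s, C, hs, hC, hCO, hsC, hsV⟩ := shrink_ball hO hB hV
  obtain ⟨S, hS1, hS2, hS3⟩ := cap_ext hC hsC (fun x => (hs x).rg)
  have : T2Space Sph4.carrier := inferInstanceAs (T2Space (sphere (0 : E5) 1))
  have hD : IsClosed (cap '' C) := (hC.image hcc).isClosed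
  have hK := ExtPage_conj (u := u) (S := S) hD
    (by rintro _ ⟨c, hc, rfl⟩; exact hCO hc) hS3 hS2
  refine ⟨(u * (S⁻¹ * u⁻¹)) * (E * S), fun x => ld_mul (hK _) (ld_mul (hE _) (hS3 _)), ?_⟩
  intro x hx
  obtain ⟨y, rfl⟩ := half_range hx
  obtain ⟨h1, h2⟩ := half_cap.1 hx
  have h3 : E (cap (s y)) = u (cap (s y)) := hsV y h1 h2
  show u (S.symm (u.symm (E (S (cap y))))) = u (cap y)
  rw [hS1, h3, Homeomorph.symm_apply_apply, ← hS1, Homeomorph.symm_apply_apply]

end Pool.Agent.Rot7
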