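import Pool.Agent.Rot7.Block

/-!
# The inverse of a straight tube

PROOF. `cone (φ⁻¹)` is the inverse of `cone φ` (`unit_cone`, `norm_cone`), both are homogeneous
(`cone_smul`), the identity on the plane (`φ` fixes the points of the 2-sphere, so does `φ⁻¹`) and
`Reg5` at the points `≠ 0` of the plane (`reg_cone` at `vec (unit x)`, scaling `rg_hom`;
`ld_inv`). Let `x ≠ 0`, `pv2 x = 0`; `fderiv_hom` reduces the derivatives at `x` to those at `vec
(unit x)`, `OnS2 (unit x)` (`OnS2_unit`). The chain rule for `cone (φ⁻¹) ∘ cone φ = id` at `x`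
(`cone φ x = x`) and `Upper.inv` give `Upper` for the derivative of `cone (φ⁻¹)`.
`straight_of_upper`: the fields `pos3`, `zero`; `Fix5.det`: `Upper.det`; `Fix5.smooth`: `Reg5`.
-/

set_option autoImplicit false

open scoped ContDiff Topology Manifold
open Set Filter Metric

namespace Pool.Agent.Rot7

open Pool.Agent.HopfCov hiding pr
open Pool.Agent.HopfCov.Smooth
open Pool.Agent.HopfFin
open Pool.Agent.Rot4
open Pool.Agent.Rot5
open Pool.Agent.Rot6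

private theorem FixInv_fd (f : Sph4 → Sph4) {x : E5} (hx : x ≠ 0) :
    fderiv ℝ (cone f) x = fderiv ℝ (cone f) (vec (unit x)) := by
  have h := fderiv_hom (F := cone f) (fun c hc y => cone_smul f hc y) (norm_pos_iff.2 hx)
    (vec (unit x))
  rwa [smul_vec_unit] at h

private theorem FixInv_zero (f : Sph4 → Sph4) : cone f 0 = 0 := by
  rw [cone, norm_zero, zero_smul]

private theorem FixInv_left (φ : Sph4 ≃ₜ Sph4) (y : E5) :
    cone (φ⁻¹ : Sph4 ≃ₜ Sph4) (cone φ y) = y := by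
  by_cases hy : y = 0
  · rw [hy, FixInv_zero, FixInv_zero]
  · have h1 : (φ⁻¹ : Sph4 ≃ₜ Sph4) (φ (unit y)) = unit y := φ.symm_apply_apply (unit y)
    show ‖cone φ y‖ • vec ((φ⁻¹ : Sph4 ≃ₜ Sph4) (unit (cone φ y))) = y
    rw [norm_cone, unit_cone _ hy, h1, smul_vec_unit]

theorem straight_of_upper {φ : Sph4 ≃ₜ Sph4}
    (h : ∀ x, OnS2 x → Upper (fderiv ℝ (cone φ) (vec x))) : Straight (cone φ) := by
  intro x hx h0
  have h1 := h (unit x) ((OnS2_unit hx).2 h0)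
  rw [FixInv_fd _ hx]
  exact ⟨h1.pos3, h1.zero⟩

private theorem FixInv_hom {φ : Sph4 ≃ₜ Sph4} (hφ : ∀ x, LocalDiffeoAt φ x)
    (hS : ∀ x, OnS2 x → φ x = x) :
    (∀ c : ℝ, 0 < c → ∀ x, cone φ (c • x) = c • cone φ x) ∧
      (∀ x, pv2 x = 0 → cone φ x = x) ∧ ∀ x, x ≠ 0 → pv2 x = 0 → Reg5 (cone φ) x := by
  refine ⟨fun c hc x => cone_smul φ hc x, fun x h0 => ?_, fun x hx _ => ?_⟩
  · by_cases hx : x = 0
    · rw [hx, FixInv_zero]
    · show ‖x‖ • vec (φ (unit x)) = x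
      rw [hS _ ((OnS2_unit hx).2 h0), smul_vec_unit]
  · have h1 : ∀ᶠ z in 𝓝 (vec (unit x)), RG (cone φ) z := reg_cone (hφ (unit x))
    have hn : 0 < ‖x‖ := norm_pos_iff.2 hx
    have h2 : Tendsto (fun y : E5 => ‖x‖⁻¹ • y) (𝓝 x) (𝓝 (vec (unit x))) := by
      rw [vec_unit hx]
      exact (continuous_const_smul _).tendsto x
    have h3 : ∀ᶠ y in 𝓝 x, RG (cone φ) y := by
      filter_upwards [h2.eventually h1] with y hy
      have h4 := rg_hom (F := cone φ) (fun c hc y => cone_smul φ hc y) hn hy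
      rwa [smul_smul, mul_inv_cancel₀ hn.ne', one_smul] at h4
    exact h3

theorem fix_inv {φ : Sph4 ≃ₜ Sph4} (hφ : ∀ x, LocalDiffeoAt φ x) (hS : ∀ x, OnS2 x → φ x = x)
    (h : ∀ x, OnS2 x → Upper (fderiv ℝ (cone φ) (vec x))) :
    Fix5 (cone (φ⁻¹ : Sph4 ≃ₜ Sph4)) ∧ Straight (cone (φ⁻¹ : Sph4 ≃ₜ Sph4)) := by
  have hφ' : ∀ x, LocalDiffeoAt (φ⁻¹ : Sph4 ≃ₜ Sph4) x := by
    intro x
    have h1 := ld_inv (hφ (φ.symm x))
    rwa [φ.apply_symm_apply] at h1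
  have hS' : ∀ x, OnS2 x → (φ⁻¹ : Sph4 ≃ₜ Sph4) x = x := by
    intro x hx
    show φ.symm x = x
    rw [Homeomorph.symm_apply_eq]
    exact (hS x hx).symm
  obtain ⟨h1, h2, h3⟩ := FixInv_hom hφ' hS'
  obtain ⟨_, _, g3⟩ := FixInv_hom hφ hS
  have hU : ∀ x, OnS2 x → Upper (fderiv ℝ (cone (φ⁻¹ : Sph4 ≃ₜ Sph4)) (vec x)) := by
    intro x hx
    refine (h x hx).inv fun v => ?_
    have hp : pv2 (vec x) = 0 := (OnS2_iff).1 hx
    have d1 : DifferentiableAt ℝ (cone φ) (vec x) :=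
      (g3 (vec x) (vec_ne x) hp).self_of_nhds.1.differentiableAt (by simp)
    have e1 : cone φ (vec x) = vec x := by rw [cone_vec, hS x hx]
    have d2 : DifferentiableAt ℝ (cone (φ⁻¹ : Sph4 ≃ₜ Sph4)) (cone φ (vec x)) := by
      rw [e1]
      exact (h3 (vec x) (vec_ne x) hp).self_of_nhds.1.differentiableAt (by simp)
    have h4 : HasFDerivAt (fun y => cone (φ⁻¹ : Sph4 ≃ₜ Sph4) (cone φ y))
        ((fderiv ℝ (cone (φ⁻¹ : Sph4 ≃ₜ Sph4)) (cone φ (vec x))).comp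
          (fderiv ℝ (cone φ) (vec x))) (vec x) := d2.hasFDerivAt.comp (vec x) d1.hasFDerivAt
    have h5 : (fun y => cone (φ⁻¹ : Sph4 ≃ₜ Sph4) (cone φ y)) = fun y => y := by
      funext y
      exact FixInv_left φ y
    rw [h5, e1] at h4
    have h6 := h4.unique (hasFDerivAt_id (vec x))
    have h7 := congrArg (fun L : E5 →L[ℝ] E5 => L v) h6
    exact h7
  refine ⟨⟨h1, h2, fun x hx h0 => ?_, fun x hx h0 χ c0 c1 => ?_⟩, straight_of_upper hU⟩
  · have h4 := h3 x hx h0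
    filter_upwards [h4] with y hy
    exact hy.1
  · rw [FixInv_fd _ hx]
    exact (hU (unit x) ((OnS2_unit hx).2 h0)).det c0 c1

theorem hom_cone {φ : Sph4 ≃ₜ Sph4} (hφ : ∀ x, LocalDiffeoAt φ x) (hS : ∀ x, OnS2 x → φ x = x) :
    (∀ c : ℝ, 0 < c → ∀ x, cone φ (c • x) = c • cone φ x) ∧
      (∀ x, pv2 x = 0 → cone φ x = x) ∧ ∀ x, x ≠ 0 → pv2 x = 0 → Reg5 (cone φ) x :=
  FixInv_hom hφ hS

end Pool.Agent.Rot7
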