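import Pool.Agent.Rot7.Defs

/-!
# A thin sector is disjoint from its rotated image

PROOF. `n = 2`: `(rotE π y)₃ = -y₃ < 0`; any `c₀`. `n ≥ 3`: `θ = 2 π / n ∈ (0, π)`, `s = sin θ >
0`; `c₀ = s / 4 ≤ 1 / 4`. If `Sect c₀ y`, `Sect c₀ (rotE θ y)`: `(rotE θ y)₄ = s y₃ + cos θ y₄ ≥
(s - c₀) y₃` and `(rotE θ y)₃ = cos θ y₃ - s y₄ ≤ (1 + c₀) y₃ ≤ 2 y₃`, so `(s - c₀) y₃ ≤ 2 c₀ y₃`,
`s ≤ 3 c₀`, contradiction. `sect_add`: the sector is a convex cone.
-/

set_option autoImplicit false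

open scoped ContDiff Topology Manifold
open Set Filter Metric

namespace Pool.Agent.Rot7

open Pool.Agent.HopfCov hiding pr
open Pool.Agent.HopfCov.Smooth
open Pool.Agent.HopfFin
open Pool.Agent.Rot4
open Pool.Agent.Rot5
open Pool.Agent.Rot6

theorem sect_rot {n : ℕ} (hn : 2 ≤ n) :
    ∃ c₀ : ℝ, 0 < c₀ ∧ ∀ y, Sect c₀ y → ¬ Sect c₀ (rotE (2 * Real.pi / n) y) := by
  have e3' : ∀ (t : ℝ) (y : E5), (rotE t y) 3 = Real.cos t * y 3 - Real.sin t * y 4 := by
    intro t y; simp [rotE]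
  have e4' : ∀ (t : ℝ) (y : E5), (rotE t y) 4 = Real.sin t * y 3 + Real.cos t * y 4 := by
    intro t y; simp [rotE]
  rcases Nat.lt_or_ge 2 n with h | h
  · have hn3 : (3 : ℝ) ≤ n := by exact_mod_cast h
    have hpi := Real.pi_pos
    set θ : ℝ := 2 * Real.pi / n with hθ
    have h1 : 0 < θ := by positivity
    have h2 : θ < Real.pi := by
      rw [hθ, div_lt_iff₀ (by linarith)]
      nlinarith
    have hs : 0 < Real.sin θ := Real.sin_pos_of_pos_of_lt_pi h1 h2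
    have hs1 : Real.sin θ ≤ 1 := Real.sin_le_one θ
    have hc1 : Real.cos θ ≤ 1 := Real.cos_le_one θ
    have hc2 : -1 ≤ Real.cos θ := Real.neg_one_le_cos θ
    refine ⟨Real.sin θ / 4, by positivity, fun y hy hy' => ?_⟩
    obtain ⟨h3, h4⟩ := hy
    obtain ⟨h5, h6⟩ := hy'
    rw [e3'] at h5 h6
    rw [e4'] at h6
    set s := Real.sin θ with hsd
    set c := Real.cos θ with hcd
    have h7 : |c * y 4| ≤ s / 4 * y 3 := by
      rw [abs_mul]
      calc |c| * |y 4| ≤ 1 * |y 4| :=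
            mul_le_mul_of_nonneg_right (abs_le.2 ⟨hc2, hc1⟩) (abs_nonneg _)
        _ = |y 4| := one_mul _
        _ ≤ _ := h4
    have h8 : |s * y 4| ≤ s / 4 * y 3 := by
      rw [abs_mul, abs_of_pos hs]
      calc s * |y 4| ≤ 1 * |y 4| := mul_le_mul_of_nonneg_right hs1 (abs_nonneg _)
        _ = |y 4| := one_mul _
        _ ≤ _ := h4
    have h9 := (abs_le.1 h6).2
    have h10 := (abs_le.1 h7).1
    have h11 := (abs_le.1 h8).1
    have h12 : c * y 3 ≤ 1 * y 3 := mul_le_mul_of_nonneg_right hc1 h3.le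
    have h13 : s / 4 * y 3 ≤ 1 / 4 * y 3 := mul_le_mul_of_nonneg_right (by linarith) h3.le
    have h14 : c * y 3 - s * y 4 ≤ 5 / 4 * y 3 := by linarith
    have h15 : s / 4 * (c * y 3 - s * y 4) ≤ s / 4 * (5 / 4 * y 3) :=
      mul_le_mul_of_nonneg_left h14 (by positivity)
    have h16 : 0 < s * y 3 := mul_pos hs h3
    nlinarith
  · have hn2 : n = 2 := le_antisymm h hn
    subst hn2
    refine ⟨1, one_pos, fun y hy hy' => ?_⟩
    have h5 := hy'.1
    rw [e3'] at h5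
    have h6 : (2 * Real.pi / ((2 : ℕ) : ℝ)) = Real.pi := by
      push_cast
      ring
    rw [h6, Real.cos_pi, Real.sin_pi] at h5
    have h7 := hy.1
    linarith

theorem sect_add {c κ : ℝ} (h0 : 0 ≤ κ) (h1 : κ ≤ 1) {x y : E5} (hx : Sect c x) (hy : Sect c y) :
    Sect c (x + κ • (y - x)) := by
  obtain ⟨h3, h4⟩ := hx
  obtain ⟨h5, h6⟩ := hy
  have e : ∀ i, (x + κ • (y - x)) i = (1 - κ) * x i + κ * y i := by
    intro i
    simp only [PiLp.add_apply, PiLp.smul_apply, PiLp.sub_apply, smul_eq_mul]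
    ring
  have h2 : 0 ≤ 1 - κ := by linarith
  refine ⟨?_, ?_⟩
  · rw [e]
    rcases h0.lt_or_eq with h | h
    · have h7 := mul_pos h h5
      have h8 := mul_nonneg h2 h3.le
      linarith
    · rw [← h]
      linarith
  · rw [e, e]
    calc |(1 - κ) * x 4 + κ * y 4| ≤ |(1 - κ) * x 4| + |κ * y 4| := abs_add_le _ _
      _ = (1 - κ) * |x 4| + κ * |y 4| := by
          rw [abs_mul, abs_mul, abs_of_nonneg h2, abs_of_nonneg h0]
      _ ≤ (1 - κ) * (c * x 3) + κ * (c * y 3) :=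
          add_le_add (mul_le_mul_of_nonneg_left h4 h2) (mul_le_mul_of_nonneg_left h6 h0)
      _ = _ := by ring

end Pool.Agent.Rot7
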