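import Pool.Agent.Rot7.Defs

/-!
# Straight maps preserve thin sectors

`Sect c y`: `0 < y₃` and `|y₄| ≤ c y₃`.

PROOF. Let `Q = {x | px2 x = 1 ∧ pv2 x = 0}`, a compact set (`isCompact_tube 0`, `pv2_nonneg`); on
`Q` the functions `(fderiv ℝ F x e3) 3` and `‖fderiv ℝ F x‖` are continuous (`Reg5`: `F` is smooth
near `x`), the first is positive (`hS`), so there are `m > 0`, `M > 0` with `2 * m ≤ (fderiv ℝ F x
e3) 3` and `‖fderiv ℝ F x‖ ≤ M` on `Q`. Let `δ > 0` be small. By continuity and `tube5`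
(`Rot5/Unif.lean`) there is `a > 0` such that for all `z` with `px2 z = 1`, `pv2 z ≤ a`: `F` is
differentiable at `z`, `m < (fderiv ℝ F z e3) 3`, `|(fderiv ℝ F z e3) 4| < δ`, `‖fderiv ℝ F z‖ < M
+ 1`. Let `Sect c' y`, `px2 y = 1`, `pv2 y ≤ a`; the segment from `pxL y` to `y` lies in this set
(`seg_Interp2` in `Rot5/Interp2.lean`). Along the segment, `z_t = pxL y + t v`, `v = pvL y = y₃ e₃
+ y₄ e₄`: `d/dt (F z_t)₃ = (DF v)₃ ≥ m y₃ - (M + 1) |y₄| ≥ (m - (M + 1) c') y₃` and `|d/dt (F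
z_t)₄| ≤ (δ + (M + 1) c') y₃`, and `(F (pxL y))₃ = (F (pxL y))₄ = 0` (`hP`). By the mean value
inequality `(F y)₃ ≥ (m - (M + 1) c') y₃ > 0` and `|(F y)₄| ≤ (δ + (M + 1) c') y₃ ≤ c (m - (M + 1)
c') y₃` for `δ = c m / 4`, `c'` with `(M + 1) c' ≤ m / 4` and `(M + 1) c' ≤ c m / 4`. General `y`:
`px2 y > 0` (otherwise `pv2 y ≤ 0`, `y₃ = 0`); scale by `(px2 y)^(-1/2)` (`hF`, `px2_smul`,
`pv2_smul`; `Sect c (t • y) ↔ Sect c y` for `t > 0`).
-/

set_option autoImplicit false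

open scoped ContDiff Topology Manifold
open Set Filter Metric

namespace Pool.Agent.Rot7

open Pool.Agent.HopfCov hiding pr
open Pool.Agent.HopfCov.Smooth
open Pool.Agent.HopfFin
open Pool.Agent.Rot4
open Pool.Agent.Rot5
open Pool.Agent.Rot6

private theorem cont_px2_Sector : Continuous px2 := contDiff_px2.continuous

private theorem cont_pv2_Sector : Continuous pv2 := contDiff_pv2.continuous

private theorem px2_ne_zero_Sector {x : E5} (h : px2 x = 1) : x ≠ 0 := by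
  rintro rfl
  unfold px2 at h
  simp at h

private theorem cont_fderiv_Sector {f : E5 → E5} {x : E5} (h : ContDiffAt ℝ ∞ f x) :
    ContinuousAt (fderiv ℝ f) x :=
  (h.fderiv_right (m := 0) (by exact_mod_cast le_top)).continuousAt

private theorem seg_Sector {x : E5} {t : ℝ} (h0 : 0 ≤ t) (h1 : t ≤ 1) :
    px2 (pxL x + t • pvL x) = px2 x ∧ pv2 (pxL x + t • pvL x) ≤ pv2 x := by
  have e0 : (pxL x + t • pvL x) 0 = x 0 := by
    rw [pxL_apply, pvL_apply]
    simp only [PiLp.add_apply, PiLp.smul_apply, smul_eq_mul]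
    show x 0 + t * 0 = x 0
    ring
  have e1 : (pxL x + t • pvL x) 1 = x 1 := by
    rw [pxL_apply, pvL_apply]
    simp only [PiLp.add_apply, PiLp.smul_apply, smul_eq_mul]
    show x 1 + t * 0 = x 1
    ring
  have e2 : (pxL x + t • pvL x) 2 = x 2 := by
    rw [pxL_apply, pvL_apply]
    simp only [PiLp.add_apply, PiLp.smul_apply, smul_eq_mul]
    show x 2 + t * 0 = x 2
    ring
  have e3 : (pxL x + t • pvL x) 3 = t * x 3 := by
    rw [pxL_apply, pvL_apply]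
    simp only [PiLp.add_apply, PiLp.smul_apply, smul_eq_mul]
    show 0 + t * x 3 = t * x 3
    ring
  have e4 : (pxL x + t • pvL x) 4 = t * x 4 := by
    rw [pxL_apply, pvL_apply]
    simp only [PiLp.add_apply, PiLp.smul_apply, smul_eq_mul]
    show 0 + t * x 4 = t * x 4
    ring
  constructor
  · unfold px2
    rw [e0, e1, e2]
  · unfold pv2
    rw [e3, e4]
    have ht2 : t ^ 2 ≤ 1 := by nlinarith
    nlinarith [sq_nonneg (x 3), sq_nonneg (x 4)]

/-- the mean value theorem along the segment from `pxL y` to `y` -/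
private theorem mvt_Sector {F : E5 → E5} {y : E5}
    (hd : ∀ z, px2 z = px2 y → pv2 z ≤ pv2 y → DifferentiableAt ℝ F z) (i : Fin 5)
    (h0 : (F (pxL y)) i = 0) :
    ∃ z, px2 z = px2 y ∧ pv2 z ≤ pv2 y ∧ (F y) i = (fderiv ℝ F z (pvL y)) i := by
  have hder : ∀ t ∈ Icc (0 : ℝ) 1, HasDerivAt (fun t : ℝ => (F (pxL y + t • pvL y)) i)
      ((fderiv ℝ F (pxL y + t • pvL y) (pvL y)) i) t := by
    intro t ht
    obtain ⟨e1, e2⟩ := seg_Sector (x := y) ht.1 ht.2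
    have h1 : HasDerivAt (fun t : ℝ => pxL y + t • pvL y) (pvL y) t := by
      have h2 := ((hasDerivAt_id t).smul_const (pvL y)).const_add (pxL y)
      simpa using h2
    have h3 := (hd _ e1 e2).hasFDerivAt.comp_hasDerivAt t h1
    have h4 := (EuclideanSpace.proj i : E5 →L[ℝ] ℝ).hasFDerivAt
      (x := F (pxL y + t • pvL y))
    exact h4.comp_hasDerivAt t h3
  obtain ⟨t, ht, h1⟩ := exists_hasDerivAt_eq_slope
    (fun t : ℝ => (F (pxL y + t • pvL y)) i)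
    (fun t : ℝ => (fderiv ℝ F (pxL y + t • pvL y) (pvL y)) i) one_pos
    (fun t ht => (hder t ht).continuousAt.continuousWithinAt)
    (fun t ht => hder t (Ioo_subset_Icc_self ht))
  obtain ⟨e1, e2⟩ := seg_Sector (x := y) ht.1.le ht.2.le
  refine ⟨_, e1, e2, ?_⟩
  rw [h1]
  simp only [one_smul, zero_smul, add_zero, px_add_pv, h0, sub_zero, div_one]

private theorem pv_eq_Sector (y : E5) :
    pvL y = y 3 • e3 + y 4 • (EuclideanSpace.single 4 1 : E5) := by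
  rw [pvL_apply, e3]
  ext i
  fin_cases i <;> simp

private theorem coord_le_Sector (v : E5) (i : Fin 5) : |v i| ≤ ‖v‖ := by
  have := EuclideanSpace.norm_eq v
  have h1 : |v i| ^ 2 ≤ ‖v‖ ^ 2 := by
    rw [EuclideanSpace.norm_sq_eq]
    have := Finset.single_le_sum (f := fun j : Fin 5 => ‖v j‖ ^ 2)
      (fun j _ => sq_nonneg _) (Finset.mem_univ i)
    simpa only [Real.norm_eq_abs] using this
  exact abs_le_of_sq_le_sq' h1 (norm_nonneg v) |>.2

private theorem e4_le_Sector (L : E5 →L[ℝ] E5) (i : Fin 5) {B : ℝ} (h : ‖L‖ < B) :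
    |(L (EuclideanSpace.single 4 1)) i| ≤ B := by
  refine (coord_le_Sector _ i).trans ?_
  refine (L.le_opNorm _).trans ?_
  have : ‖(EuclideanSpace.single 4 (1 : ℝ) : E5)‖ = 1 := by simp
  rw [this, mul_one]
  exact h.le

theorem Sect.smul {c t : ℝ} (ht : 0 < t) {y : E5} : Sect c (t • y) ↔ Sect c y := by
  have h3 : (t • y) 3 = t * y 3 := rfl
  have h4 : (t • y) 4 = t * y 4 := rfl
  unfold Sect
  rw [h3, h4, abs_mul, abs_of_pos ht, mul_left_comm c t (y 3)]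
  exact and_congr (mul_pos_iff_of_pos_left ht) (mul_le_mul_iff_right₀ ht)

private theorem one_Sector {F : E5 → E5} {m δ M : ℝ} (hm : 0 < m) (hδ : 0 < δ) {x : E5}
    (hR : Reg5 F x) (h1 : 2 * m ≤ (fderiv ℝ F x e3) 3) (h2 : (fderiv ℝ F x e3) 4 = 0)
    (h3 : ‖fderiv ℝ F x‖ ≤ M) :
    ∀ᶠ z in 𝓝 x, DifferentiableAt ℝ F z ∧ m < (fderiv ℝ F z e3) 3 ∧
      |(fderiv ℝ F z e3) 4| < δ ∧ ‖fderiv ℝ F z‖ < M + 1 := by
  have hc := cont_fderiv_Sector hR.self_of_nhds.1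
  have hce : ContinuousAt (fun z => fderiv ℝ F z e3) x := hc.clm_apply continuousAt_const
  have hc3 : ContinuousAt (fun z => (fderiv ℝ F z e3) 3) x :=
    (EuclideanSpace.proj 3 : E5 →L[ℝ] ℝ).continuous.continuousAt.comp hce
  have hc4 : ContinuousAt (fun z => (fderiv ℝ F z e3) 4) x :=
    (EuclideanSpace.proj 4 : E5 →L[ℝ] ℝ).continuous.continuousAt.comp hce
  have a1 : ∀ᶠ z in 𝓝 x, DifferentiableAt ℝ F z :=
    hR.mono fun z hz => hz.1.differentiableAt (by simp)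
  have a2 : ∀ᶠ z in 𝓝 x, m < (fderiv ℝ F z e3) 3 :=
    continuousAt_const.eventually_lt hc3 (by linarith)
  have a3 : ∀ᶠ z in 𝓝 x, |(fderiv ℝ F z e3) 4| < δ :=
    hc4.abs.eventually_lt continuousAt_const (by rw [h2, abs_zero]; exact hδ)
  have a4 : ∀ᶠ z in 𝓝 x, ‖fderiv ℝ F z‖ < M + 1 :=
    hc.norm.eventually_lt continuousAt_const (by linarith)
  filter_upwards [a1, a2, a3, a4] with z b1 b2 b3 b4
  exact ⟨b1, b2, b3, b4⟩

private theorem bounds_Sector {F : E5 → E5} (hR : ∀ x, x ≠ 0 → pv2 x = 0 → Reg5 F x)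
    (hS : Straight F) : ∃ m M : ℝ, 0 < m ∧ 0 ≤ M ∧ ∀ x, px2 x = 1 → pv2 x = 0 →
      2 * m ≤ (fderiv ℝ F x e3) 3 ∧ ‖fderiv ℝ F x‖ ≤ M := by
  set Q : Set E5 := {x : E5 | px2 x = 1 ∧ pv2 x ≤ 0} with hQ
  have hQc : IsCompact Q := isCompact_tube 0
  have h0 : ∀ x ∈ Q, pv2 x = 0 := fun x hx => le_antisymm hx.2 (pv2_nonneg x)
  have hQn : Q.Nonempty := by
    refine ⟨EuclideanSpace.single 0 1, ?_, ?_⟩
    · show px2 _ = 1
      unfold px2
      simp
    · show pv2 _ ≤ 0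
      unfold pv2
      simp
  have hcont : ∀ x ∈ Q, ContinuousAt (fderiv ℝ F) x := fun x hx =>
    cont_fderiv_Sector (hR x (px2_ne_zero_Sector hx.1) (h0 x hx)).self_of_nhds.1
  have hc3 : ContinuousOn (fun z => (fderiv ℝ F z e3) 3) Q := fun x hx =>
    ((EuclideanSpace.proj 3 : E5 →L[ℝ] ℝ).continuous.continuousAt.comp
      ((hcont x hx).clm_apply continuousAt_const)).continuousWithinAt
  have hcn : ContinuousOn (fun z => ‖fderiv ℝ F z‖) Q := fun x hx =>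
    (hcont x hx).norm.continuousWithinAt
  obtain ⟨x₁, hx₁, hmin⟩ := hQc.exists_isMinOn hQn hc3
  obtain ⟨x₂, hx₂, hmax⟩ := hQc.exists_isMaxOn hQn hcn
  have hp := (hS x₁ (px2_ne_zero_Sector hx₁.1) (h0 x₁ hx₁)).1
  refine ⟨(fderiv ℝ F x₁ e3) 3 / 2, ‖fderiv ℝ F x₂‖, by linarith, norm_nonneg _, ?_⟩
  intro x h1 h2
  have hx : x ∈ Q := ⟨h1, h2.le⟩
  have h3 : (fderiv ℝ F x₁ e3) 3 ≤ (fderiv ℝ F x e3) 3 := hmin hx
  have h4 : ‖fderiv ℝ F x‖ ≤ ‖fderiv ℝ F x₂‖ := hmax hx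
  exact ⟨by linarith, h4⟩

theorem sector {F : E5 → E5} (hF : ∀ c : ℝ, 0 < c → ∀ x, F (c • x) = c • F x)
    (hP : ∀ x, pv2 x = 0 → pv2 (F x) = 0) (hR : ∀ x, x ≠ 0 → pv2 x = 0 → Reg5 F x)
    (hS : Straight F) {c : ℝ} (hc : 0 < c) :
    ∃ c' a : ℝ, 0 < c' ∧ 0 < a ∧ ∀ y, Sect c' y → pv2 y ≤ a * px2 y → Sect c (F y) := by
  obtain ⟨m, M, hm, hM, hmM⟩ := bounds_Sector hR hS
  have hδ : 0 < c * m / 4 := by positivity
  obtain ⟨a, ha, hta⟩ := tube5 (fun x hx1 hx0 => one_Sector hm hδ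
    (hR x (px2_ne_zero_Sector hx1) hx0) (hmM x hx1 hx0).1
    (hS x (px2_ne_zero_Sector hx1) hx0).2 (hmM x hx1 hx0).2)
  have hB : 0 < M + 1 := by linarith
  have hk : 0 < min (m / 4) (c * m / 4) := lt_min (by positivity) hδ
  refine ⟨min (m / 4) (c * m / 4) / (M + 1), a, div_pos hk hB, ha, ?_⟩
  -- the case `px2 y = 1`
  have key : ∀ y, px2 y = 1 → pv2 y ≤ a → Sect (min (m / 4) (c * m / 4) / (M + 1)) y →
      Sect c (F y) := by
    intro y h1 h2 hy
    have hp0 : pv2 (pxL y) = 0 := pv2_pxL y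
    have hFp : pv2 (F (pxL y)) = 0 := hP _ hp0
    have hz3 : (F (pxL y)) 3 = 0 := by
      unfold pv2 at hFp
      nlinarith [sq_nonneg ((F (pxL y)) 3), sq_nonneg ((F (pxL y)) 4)]
    have hz4 : (F (pxL y)) 4 = 0 := by
      unfold pv2 at hFp
      nlinarith [sq_nonneg ((F (pxL y)) 3), sq_nonneg ((F (pxL y)) 4)]
    have hd : ∀ z, px2 z = px2 y → pv2 z ≤ pv2 y → DifferentiableAt ℝ F z := fun z e1 e2 =>
      (hta z (e1.trans h1) (e2.trans h2)).1
    have hBy : (M + 1) * |y 4| ≤ min (m / 4) (c * m / 4) * y 3 := by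
      have h5 := hy.2
      have h6 : (M + 1) * |y 4| ≤ (M + 1) * (min (m / 4) (c * m / 4) / (M + 1) * y 3) :=
        mul_le_mul_of_nonneg_left h5 hB.le
      have h7 : (M + 1) * (min (m / 4) (c * m / 4) / (M + 1) * y 3) =
          min (m / 4) (c * m / 4) * y 3 := by
        field_simp
      rwa [h7] at h6
    have hy3 : 0 < y 3 := hy.1
    have hB1 : (M + 1) * |y 4| ≤ m / 4 * y 3 :=
      hBy.trans (mul_le_mul_of_nonneg_right (min_le_left _ _) hy3.le)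
    have hB2 : (M + 1) * |y 4| ≤ c * m / 4 * y 3 :=
      hBy.trans (mul_le_mul_of_nonneg_right (min_le_right _ _) hy3.le)
    have hexp : ∀ (L : E5 →L[ℝ] E5) (i : Fin 5), (L (pvL y)) i =
        y 3 * (L e3) i + y 4 * (L (EuclideanSpace.single 4 1)) i := by
      intro L i
      rw [pv_eq_Sector, map_add, map_smul, map_smul]
      rfl
    obtain ⟨z, e1, e2, e3'⟩ := mvt_Sector hd 3 hz3
    obtain ⟨w, f1, f2, f3⟩ := mvt_Sector hd 4 hz4
    obtain ⟨-, z1, -, z3⟩ := hta z (e1.trans h1) (e2.trans h2)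
    obtain ⟨-, -, w2, w3⟩ := hta w (f1.trans h1) (f2.trans h2)
    rw [hexp] at e3' f3
    have hz := e4_le_Sector (fderiv ℝ F z) 3 z3
    have hw := e4_le_Sector (fderiv ℝ F w) 4 w3
    have g1 : |y 4 * (fderiv ℝ F z (EuclideanSpace.single 4 1)) 3| ≤ m / 4 * y 3 := by
      rw [abs_mul]
      refine le_trans ?_ hB1
      rw [mul_comm (M + 1)]
      exact mul_le_mul_of_nonneg_left hz (abs_nonneg _)
    have g2 : |y 4 * (fderiv ℝ F w (EuclideanSpace.single 4 1)) 4| ≤ c * m / 4 * y 3 := by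
      rw [abs_mul]
      refine le_trans ?_ hB2
      rw [mul_comm (M + 1)]
      exact mul_le_mul_of_nonneg_left hw (abs_nonneg _)
    have g3 : |y 3 * (fderiv ℝ F w e3) 4| ≤ c * m / 4 * y 3 := by
      rw [abs_mul, abs_of_pos hy3, mul_comm]
      exact mul_le_mul_of_nonneg_right w2.le hy3.le
    have g4 : m * y 3 ≤ y 3 * (fderiv ℝ F z e3) 3 := by
      rw [mul_comm]
      exact mul_le_mul_of_nonneg_left z1.le hy3.le
    have k3 : 3 * m / 4 * y 3 ≤ (F y) 3 := by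
      rw [e3']
      have := neg_abs_le (y 4 * (fderiv ℝ F z (EuclideanSpace.single 4 1)) 3)
      linarith
    have k4 : |(F y) 4| ≤ c * m / 2 * y 3 := by
      rw [f3]
      refine (abs_add_le _ _).trans ?_
      linarith
    refine ⟨?_, ?_⟩
    · have : 0 < 3 * m / 4 * y 3 := by positivity
      linarith
    · refine k4.trans ?_
      have h8 : c * (3 * m / 4 * y 3) ≤ c * (F y) 3 := mul_le_mul_of_nonneg_left k3 hc.le
      have h9 : 0 < c * m * y 3 := by positivity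
      linarith
  intro y hy hya
  have hv : 0 < pv2 y := by
    unfold pv2
    have := hy.1
    positivity
  have hx : 0 < px2 y := by
    by_contra h
    push Not at h
    nlinarith
  set s : ℝ := (Real.sqrt (px2 y))⁻¹ with hs
  have hs0 : 0 < s := inv_pos.2 (Real.sqrt_pos.2 hx)
  have hs2 : s ^ 2 = (px2 y)⁻¹ := by
    rw [hs, inv_pow, Real.sq_sqrt hx.le]
  have h1 : px2 (s • y) = 1 := by
    rw [px2_smul, hs2, inv_mul_cancel₀ hx.ne']
  have h2 : pv2 (s • y) ≤ a := by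
    rw [pv2_smul, hs2, inv_mul_le_iff₀ hx]
    linarith
  have h3 := key (s • y) h1 h2 ((Sect.smul hs0).2 hy)
  rw [hF s hs0] at h3
  exact (Sect.smul hs0).1 h3

end Pool.Agent.Rot7
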