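import Pool.Agent.Rot7.Core3
import Pool.Agent.Rot7.FixInv
import Pool.Agent.Rot7.Sector
import Pool.Agent.Rot7.SectRot

/-!
# Flattening a page near the fixed 2-sphere

PROOF. Let `c₀` be as in `sect_rot`; `sector` for `F = cone φ` (`hom_cone`, `straight_of_upper`)
gives `c₁`, `a₁` with `Sect c₁ y → pv2 y ≤ a₁ px2 y → Sect c₀ (cone φ y)`; `sector` for `G = cone
(φ⁻¹)` (`fix_inv`, `hom_cone` for `φ⁻¹`) gives `c₂`, `a₂` with `Sect c₂ y → pv2 y ≤ a₂ px2 y →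
Sect c₁ (G y)`. `N_a = {x | pv2 (vec x) ≤ a * px2 (vec x)}`. By `nearS2_iff` and `NearS2.comp`
(for `g` and `g⁻¹`, which preserve the 2-sphere) there is `a' > 0`, `a' ≤ a₁`, such that for `z ∈
N_a'`: `φ (g z) = rotS n (φ z)`, `φ z = rotS n (φ (g⁻¹ z))`, `g z ∈ N_a₁`, `g⁻¹ z ∈ N_a₁`. `core3`
for `G` with this `a'` and `a₀ = a₂` gives `F1`, `a ≤ a₂`, `b < a`; `homeo_of_core2` gives `f1`
with `f1 x = unit (F1 (vec x))`, `LocalDiffeoAt f1 x`. Near the 2-sphere `F1 = G` (`nearS2_iff`),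
`f1 x = unit (cone (φ⁻¹) (vec x)) = φ⁻¹ x`. (*) If `OnHalf x`, not `OnS2 x`, `x ∈ N_a`, then `f1 x
∈ N_a'` and `Sect c₁ (vec (f1 x))`: `v = vec x` has `v₄ = 0`, `v₃ > 0`, so `Sect c v` for all `c >
0`, `Sect c₁ (G v)`, `Sect c₁ (F1 v)` (`sect_add`), `vec (f1 x) = ‖F1 v‖⁻¹ • F1 v`. (**) If
`OnHalf x`, not `OnS2 x`, `x ∉ N_a`, then `f1 x = x` (`b < a`). Let `OnHalf x`, `OnHalf y`, `g (f1
x) = f1 y` and assume `¬ OnS2 x`; then `¬ OnS2 y` (`f1 x`, `g (f1 x)` are not on the 2-sphere;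
`f1` maps it to itself: `f1 = φ⁻¹` there, bijectivity). In all cases below `p = f1 x` and `q = f1
y = g p` satisfy: `p, q ∈ N_a₁`, `Sect c₁ (vec p)`, `Sect c₁ (vec q)` and `φ q = rotS n (φ p)`;
then `Sect c₀ (vec (φ p))`, `Sect c₀ (vec (φ q))` (`cone_vec`) and `vec (φ q) = rotE (2 π / n)
(vec (φ p))` contradict `sect_rot`. Case A: `x, y ∉ N_a`: `g x = y`, `hp` gives `OnS2 x`, a
contradiction. Case B: `x ∈ N_a`: `p ∈ N_a'` by (*), so `q = g p ∈ N_a₁`, `φ (g p) = rotS n (φ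
p)`; `Sect c₁ (vec q)`: by (*) if `y ∈ N_a`, and if `y ∉ N_a` then `q = y` by (**). Case C: `x ∉
N_a`, `y ∈ N_a`: `q ∈ N_a'` by (*), `p = g⁻¹ q ∈ N_a₁`, `φ q = rotS n (φ (g⁻¹ q))`, and `p = x`.
-/

set_option autoImplicit false

open scoped ContDiff Topology Manifold
open Set Filter Metric

namespace Pool.Agent.Rot7

open Pool.Agent.HopfCov hiding pr
open Pool.Agent.HopfCov.Smooth
open Pool.Agent.HopfFin
open Pool.Agent.Rot4
open Pool.Agent.Rot5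
open Pool.Agent.Rot6

private theorem Flat_half_sect {c : ℝ} (hc : 0 < c) {x : Sph4} (h : OnHalf x) (h' : ¬ OnS2 x) :
    Sect c (vec x) := by
  obtain ⟨h4, h3⟩ := h
  have h5 : 0 < vec x 3 := by
    rcases h3.lt_or_eq with h6 | h6
    · exact h6
    · exact absurd ⟨h6.symm, h4⟩ h'
  refine ⟨h5, ?_⟩
  rw [h4, abs_zero]
  positivity

private theorem Flat_px_mono {a b : ℝ} (h : a ≤ b) (y : E5) : a * px2 y ≤ b * px2 y :=
  mul_le_mul_of_nonneg_right h (px2_nonneg y)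

theorem flat_page {n : ℕ} (hn : 2 ≤ n) {g φ : Sph4 ≃ₜ Sph4} (hfix : ∀ x, g x = x ↔ OnS2 x)
    (hp : ∀ x y, OnHalf x → OnHalf y → g x = y → OnS2 x) (hφ : ∀ x, LocalDiffeoAt φ x)
    (hS : ∀ x, OnS2 x → φ x = x) (hc : NearS2 fun x => φ (g x) = rotS n (φ x))
    (hU : ∀ x, OnS2 x → Upper (fderiv ℝ (cone φ) (vec x))) :
    ∃ f1 : Sph4 ≃ₜ Sph4, (∀ x, LocalDiffeoAt f1 x) ∧ (NearS2 fun x => φ (f1 x) = x) ∧
      ∀ x y, OnHalf x → OnHalf y → g (f1 x) = f1 y → OnS2 x := by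
  obtain ⟨c₀, hc₀, hrot⟩ := sect_rot hn
  -- the cone of `φ`
  obtain ⟨hFs, hFp, hFr⟩ := hom_cone hφ hS
  obtain ⟨c₁, a₁, hc₁, ha₁, hs₁⟩ := sector hFs
    (fun x hx => by rw [hFp x hx]; exact hx) hFr (straight_of_upper hU) hc₀
  -- the cone of the inverse
  have hφ' : ∀ x, LocalDiffeoAt (φ⁻¹ : Sph4 ≃ₜ Sph4) x := by
    intro x
    have h1 := ld_inv (hφ (φ.symm x))
    have h2 : φ (φ.symm x) = x := φ.apply_symm_apply x
    rwa [h2] at h1
  have hS' : ∀ x, OnS2 x → (φ⁻¹ : Sph4 ≃ₜ Sph4) x = x := by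
    intro x hx
    have h1 : φ.symm (φ x) = x := φ.symm_apply_apply x
    rw [hS x hx] at h1
    exact h1
  obtain ⟨hGs, hGp, hGr⟩ := hom_cone hφ' hS'
  obtain ⟨hG5, hGst⟩ := fix_inv hφ hS hU
  obtain ⟨c₂, a₂, hc₂, ha₂, hs₂⟩ := sector hGs
    (fun x hx => by rw [hGp x hx]; exact hx) hGr hGst hc₁
  -- the neighbourhood of the 2-sphere
  have hgS : ∀ x, OnS2 (g x) ↔ OnS2 x := by
    intro x
    constructor
    · intro hx
      have h1 := (hfix _).2 hx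
      have h2 : g x = x := g.injective h1
      rwa [h2] at hx
    · intro hx
      rw [(hfix x).2 hx]
      exact hx
  have hgS' : ∀ x, OnS2 (g.symm x) ↔ OnS2 x := by
    intro x
    rw [← hgS (g.symm x), g.apply_symm_apply]
  have hN1 : NearS2 fun x => pv2 (vec x) ≤ a₁ * px2 (vec x) :=
    nearS2_iff.2 ⟨a₁, ha₁, fun x hx => hx⟩
  have hall : NearS2 fun z => (φ (g z) = rotS n (φ z) ∧
      φ (g (g.symm z)) = rotS n (φ (g.symm z))) ∧
      (pv2 (vec (g z)) ≤ a₁ * px2 (vec (g z)) ∧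
        pv2 (vec (g.symm z)) ≤ a₁ * px2 (vec (g.symm z))) :=
    (hc.and (NearS2.comp hc (f := g.symm) hgS')).and
      ((NearS2.comp hN1 (f := g) hgS).and (NearS2.comp hN1 (f := g.symm) hgS'))
  obtain ⟨a'', ha'', hnear⟩ := nearS2_iff.1 hall
  obtain ⟨a', ha', ha'1, ha'2⟩ : ∃ a' : ℝ, 0 < a' ∧ a' ≤ a'' ∧ a' ≤ a₁ :=
    ⟨min a'' a₁, lt_min ha'' ha₁, min_le_left _ _, min_le_right _ _⟩
  obtain ⟨F1, a, b, hb, hba, haa₂, hhom, hfar, hplane, htube, ⟨b', hb', hF1G⟩, hconv⟩ :=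
    core3 hG5 ha' ha₂
  obtain ⟨f1, hf1, hf1ld, hf1ne⟩ := homeo_of_core2 hb hba hhom hfar htube
  -- facts about `f1`
  have hinv : ∀ z, φ ((φ⁻¹ : Sph4 ≃ₜ Sph4) z) = z := fun z => φ.apply_symm_apply z
  have hf1S : ∀ z, OnS2 z → f1 z = z := by
    intro z hz
    rw [hf1, hplane _ (OnS2_iff.1 hz), unit_vec]
  have hf1far : ∀ z : Sph4, ¬ pv2 (vec z) ≤ a * px2 (vec z) → f1 z = z := by
    intro z hz
    have h1 : b * px2 (vec z) < pv2 (vec z) :=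
      lt_of_le_of_lt (Flat_px_mono hba.le _) (not_le.1 hz)
    rw [hf1, hfar _ h1, unit_vec]
  have hf1near : ∀ z : Sph4, OnHalf z → ¬ OnS2 z → pv2 (vec z) ≤ a * px2 (vec z) →
      pv2 (vec (f1 z)) < a' * px2 (vec (f1 z)) ∧ Sect c₁ (vec (f1 z)) := by
    intro z hz hz' hza
    have hne := hf1ne z
    rw [hf1]
    refine ⟨((tube_unit hne).2).2 (htube _ (vec_ne z) hza).2, ?_⟩
    rw [vec_unit hne]
    have hpos : 0 < ‖F1 (vec z)‖⁻¹ := inv_pos.2 (norm_pos_iff.2 hne)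
    rw [Sect.smul hpos]
    obtain ⟨κ, hκ0, hκ1, hκ⟩ := hconv (vec z)
    rw [hκ]
    refine sect_add hκ0 hκ1 (Flat_half_sect hc₁ hz hz') ?_
    exact hs₂ _ (Flat_half_sect hc₂ hz hz') (hza.trans (Flat_px_mono haa₂ _))
  -- the contradiction
  have hcontra : ∀ p q : Sph4, pv2 (vec p) ≤ a₁ * px2 (vec p) →
      pv2 (vec q) ≤ a₁ * px2 (vec q) → Sect c₁ (vec p) → Sect c₁ (vec q) →
      φ q = rotS n (φ p) → False := by
    intro p q hp1 hq1 hp2 hq2 hpq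
    have h1 := hs₁ _ hp2 hp1
    have h2 := hs₁ _ hq2 hq1
    rw [cone_vec] at h1 h2
    rw [hpq] at h2
    exact hrot _ h1 h2
  refine ⟨f1, hf1ld, ?_, ?_⟩
  · refine nearS2_iff.2 ⟨b', hb', fun x hx => ?_⟩
    rw [hf1, hF1G _ hx, unit_cone _ (vec_ne x), unit_vec]
    exact hinv x
  · intro x y hx hy hxy
    by_contra hxS
    have hyS : ¬ OnS2 y := by
      intro hyS
      rw [hf1S y hyS] at hxy
      have h1 : OnS2 (g (f1 x)) := by
        rw [hxy]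
        exact hyS
      have h2 : OnS2 (f1 x) := (hgS _).1 h1
      have h3 : f1 (f1 x) = f1 x := hf1S _ h2
      have h4 : f1 x = x := f1.injective h3
      rw [h4] at h2
      exact hxS h2
    by_cases hxa : pv2 (vec x) ≤ a * px2 (vec x)
    · obtain ⟨hp1, hp2⟩ := hf1near x hx hxS hxa
      obtain ⟨⟨k1, -⟩, k2, -⟩ := hnear (f1 x) (hp1.le.trans (Flat_px_mono ha'1 _))
      have hq1 : pv2 (vec (f1 y)) ≤ a₁ * px2 (vec (f1 y)) := by
        rw [← hxy]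
        exact k2
      have hq2 : Sect c₁ (vec (f1 y)) := by
        by_cases hya : pv2 (vec y) ≤ a * px2 (vec y)
        · exact (hf1near y hy hyS hya).2
        · rw [hf1far y hya]
          exact Flat_half_sect hc₁ hy hyS
      have hq3 : φ (f1 y) = rotS n (φ (f1 x)) := by
        rw [← hxy]
        exact k1
      exact hcontra _ _ (hp1.le.trans (Flat_px_mono ha'2 _)) hq1 hp2 hq2 hq3
    · have hfx := hf1far x hxa
      by_cases hya : pv2 (vec y) ≤ a * px2 (vec y)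
      · obtain ⟨hq1, hq2⟩ := hf1near y hy hyS hya
        obtain ⟨⟨-, k1⟩, -, k2⟩ := hnear (f1 y) (hq1.le.trans (Flat_px_mono ha'1 _))
        have hgx : g.symm (f1 y) = x := by
          rw [← hxy, g.symm_apply_apply, hfx]
        rw [g.apply_symm_apply, hgx] at k1
        rw [hgx] at k2
        exact hcontra x (f1 y) k2 (hq1.le.trans (Flat_px_mono ha'2 _))
          (Flat_half_sect hc₁ hx hxS) hq2 k1
      · have hfy := hf1far y hya
        rw [hfx, hfy] at hxy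
        exact hxS (hp x y hx hy hxy)

end Pool.Agent.Rot7
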