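import Pool.Agent.Rot7.CapExt

/-!
# Extension of the germ of a local diffeomorphism of the sphere

PROOF. `c0 = cap 0`. By `exists_iso` there are isometries `A`, `B` with `A p = c0`, `B (u p) = c0`
(write `A`, `B` for `resS A`, `resS B`). `w = B * u * A⁻¹` fixes `c0` and is a local
diffeomorphism there. Let `ψ y = cap⁻¹ (w (cap y))` near `0`
(`isOpenEmbedding_cap.toOpenPartialHomeomorph`, or an inverse function of `cap` on its range): `ψ
0 = 0`, `cap (ψ y) = w (cap y)` near `0`, and `ψ` is a local diffeomorphism at `0` (`LDA.of_comp`,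
`ldAt_iff` in `HopfRem/ParRG.lean`: `RG ψ y` for all `y` near `0`). By continuity of the
determinant the sign is constant near `0` (see `LD_of_Reg_GroupF` in `Rot5/GroupF.lean`). If `LD 1
ψ y` near `0`: `hGerm` (`SpecGermFix` in `HopfCov/Spec.lean`, with `E = E4`, `a = 0`, `O = ball 0
1`) gives `H : E4 ≃ₜ E4` with `LD 1` everywhere, `H = ψ` near `0`, `H = id` off `ball 0 1`;
`cap_ext` (`C = closedBall 0 1`) gives `K` with `K = w` near `c0`, and `E = B⁻¹ * K * A` works. If
`LD (-1) ψ y` near `0`: the same for `refS ∘ w` instead of `w` (`refS_cap`: the new `ψ` is the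
reflection of the old one, it has `LD 1` near `0`), and `E = B⁻¹ * refHS * K * A`.
-/

set_option autoImplicit false

open scoped ContDiff Topology Manifold
open Set Filter Metric

namespace Pool.Agent.Rot7

open Pool.Agent.HopfCov hiding pr
open Pool.Agent.HopfCov.Smooth
open Pool.Agent.HopfFin
open Pool.Agent.Rot4
open Pool.Agent.Rot5
open Pool.Agent.Rot6

private noncomputable def rLin_GermS : E4 →ₗ[ℝ] E4 where
  toFun x := WithLp.toLp 2 ![x 0, x 1, x 2, -x 3]
  map_add' x y := by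
    ext i
    fin_cases i <;> simp
    ring
  map_smul' c x := by
    ext i
    fin_cases i <;> simp

private theorem det_GermS : LinearMap.det rLin_GermS = -1 := by
  have h1 : LinearMap.toMatrix (EuclideanSpace.basisFun (Fin 4) ℝ).toBasis
      (EuclideanSpace.basisFun (Fin 4) ℝ).toBasis rLin_GermS =
      Matrix.diagonal ![1, 1, 1, -1] := by
    ext i j
    fin_cases i <;> fin_cases j <;>
      simp [LinearMap.toMatrix_apply, rLin_GermS, Matrix.diagonal]
  rw [← LinearMap.det_toMatrix (EuclideanSpace.basisFun (Fin 4) ℝ).toBasis, h1,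
    Matrix.det_diagonal]
  simp [Fin.prod_univ_four]

private theorem ld_GermS (x : E4) : LD (-1) rLin_GermS x := by
  have h1 : LD (-1) (LinearMap.toContinuousLinearMap rLin_GermS) x := by
    refine LD_clm _ ?_ x
    have h2 : (LinearMap.toContinuousLinearMap rLin_GermS).det = -1 := det_GermS
    rw [h2]
    norm_num
  exact h1

private theorem rLin_zero_GermS : rLin_GermS 0 = 0 := map_zero _

/-- a lift with positive determinant extends -/
private theorem pos_GermS {w : Sph4 ≃ₜ Sph4} {ψ : E4 → E4} (h0 : ψ 0 = 0)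
    (h1 : ∀ᶠ y in 𝓝 (0 : E4), cap (ψ y) = w (cap y)) (h2 : ∀ᶠ y in 𝓝 (0 : E4), LD 1 ψ y) :
    ∃ K : Sph4 ≃ₜ Sph4, (∀ x, LocalDiffeoAt K x) ∧ ∀ᶠ z in 𝓝 (cap 0), K z = w z := by
  obtain ⟨H, a1, a2, a3⟩ := hGerm E4 ψ 0 h2 h0 (ball 0 1) (ball_mem_nhds _ one_pos)
  obtain ⟨K, b1, -, b3⟩ := cap_ext (k := H) (isCompact_closedBall (0 : E4) 1)
    (fun x hx => a3 x fun h => hx (ball_subset_closedBall h)) (fun x => (a1 x).rg)
  refine ⟨K, b3, ?_⟩
  rw [← isOpenEmbedding_cap.map_nhds_eq, eventually_map]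
  filter_upwards [h1, a2] with y hy hy2
  rw [b1, hy2, hy]

private theorem core_GermS {w : Sph4 ≃ₜ Sph4} (hw : w (cap 0) = cap 0)
    (hl : LocalDiffeoAt w (cap 0)) :
    ∃ K : Sph4 ≃ₜ Sph4, (∀ x, LocalDiffeoAt K x) ∧ ∀ᶠ z in 𝓝 (cap 0), K z = w z := by
  set P := isOpenEmbedding_cap.toOpenPartialHomeomorph cap with hP
  have hPc : ∀ y, P y = cap y := fun y => rfl
  have hPt : P.target = range cap := by
    rw [hP, isOpenEmbedding_cap.toOpenPartialHomeomorph_target]
  have hsrc : ∀ y, y ∈ P.source := fun y => by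
    rw [hP, isOpenEmbedding_cap.toOpenPartialHomeomorph_source]
    exact mem_univ y
  have hct : cap 0 ∈ P.target := P.map_source (hsrc 0)
  set ψ : E4 → E4 := fun y => P.symm (w (cap y)) with hψ
  have h0 : ψ 0 = 0 := by
    show P.symm (w (cap 0)) = 0
    rw [hw]
    exact P.left_inv (hsrc 0)
  have hcc : ContinuousAt (fun y => w (cap y)) (0 : E4) :=
    (w.continuous.comp isOpenEmbedding_cap.continuous).continuousAt
  have h1 : ∀ᶠ y in 𝓝 (0 : E4), cap (ψ y) = w (cap y) := by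
    have h2 : ∀ᶠ y in 𝓝 (0 : E4), w (cap y) ∈ P.target := by
      refine hcc.eventually_mem (P.open_target.mem_nhds ?_)
      show w (cap 0) ∈ P.target
      rw [hw]
      exact hct
    filter_upwards [h2] with y hy
    exact P.right_inv hy
  have hψc : ContinuousAt ψ 0 := by
    have h2 : ContinuousAt P.symm (w (cap 0)) := by
      rw [hw]
      exact P.continuousAt_symm hct
    exact ContinuousAt.comp (f := fun y => w (cap y)) h2 hcc
  have hld : LDA ψ 0 := by
    refine LDA.of_comp (Y := E4) (Z := Sph4.carrier) (g := cap) hψc (ld_cap _) ?_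
    have h2 : LDA (Y := Sph4.carrier) (fun y => w (cap y)) 0 :=
      LDA.comp' (Y := Sph4.carrier) (Z := Sph4.carrier) (f := cap) (g := w) hl (ld_cap 0)
    exact h2.congr' (h1.mono fun y hy => hy.symm)
  have hrg := ldAt_iff.1 hld
  have hx := hrg.self_of_nhds
  have hc : ContinuousAt (fderiv ℝ ψ) 0 := hx.1.continuousAt_fderiv (by simp)
  have hd : ContinuousAt (fun y => (fderiv ℝ ψ y).det) 0 :=
    ContinuousLinearMap.continuous_det.continuousAt.comp hc
  rcases lt_or_gt_of_ne hx.2 with hs | hs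
  · have h3 : ∀ᶠ y in 𝓝 (0 : E4), (fderiv ℝ ψ y).det < 0 :=
      hd.eventually (isOpen_Iio.mem_nhds hs)
    have h4 : ∀ᶠ y in 𝓝 (0 : E4), LD (-1) ψ y := by
      filter_upwards [hrg, h3] with y hy hy2
      exact ⟨hy.1, by linarith⟩
    have h5 : ∀ᶠ y in 𝓝 (0 : E4), LD 1 (rLin_GermS ∘ ψ) y := by
      filter_upwards [h4] with y hy
      have h6 := (ld_GermS (ψ y)).comp hy
      rwa [show (-1 : ℝ) * -1 = 1 by norm_num] at h6
    obtain ⟨K, c1, c2⟩ := pos_GermS (w := refHS * w) (ψ := rLin_GermS ∘ ψ)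
      (by
        show rLin_GermS (ψ 0) = 0
        rw [h0, rLin_zero_GermS])
      (by
        filter_upwards [h1] with y hy
        show cap (rLin_GermS (ψ y)) = refS (w (cap y))
        rw [← hy, refS_cap]
        rfl) h5
    refine ⟨refHS * K, fun x => ld_mul (ld_refS _) (c1 x), ?_⟩
    filter_upwards [c2] with z hz
    show refS (K z) = w z
    rw [hz]
    exact refS_refS _
  · have h3 : ∀ᶠ y in 𝓝 (0 : E4), 0 < (fderiv ℝ ψ y).det :=
      hd.eventually (isOpen_Ioi.mem_nhds hs)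
    refine pos_GermS h0 h1 ?_
    filter_upwards [hrg, h3] with y hy hy2
    exact ⟨hy.1, by linarith⟩

theorem germ_ext {u : Sph4 ≃ₜ Sph4} {p : Sph4} (hu : LocalDiffeoAt u p) :
    ∃ E : Sph4 ≃ₜ Sph4, (∀ x, LocalDiffeoAt E x) ∧ ∀ᶠ x in 𝓝 p, E x = u x := by
  obtain ⟨A, hA⟩ := exists_iso p (cap 0)
  obtain ⟨B, hB⟩ := exists_iso (u p) (cap 0)
  have hA' : (resS A)⁻¹ (cap 0) = p := by
    rw [← hA]
    exact (resS A).symm_apply_apply p
  have hAi : LocalDiffeoAt ((resS A)⁻¹ : Sph4 ≃ₜ Sph4) (cap 0) := by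
    have h := ld_inv (ld_resS A p)
    rwa [hA] at h
  have hw : (resS B * (u * (resS A)⁻¹) : Sph4 ≃ₜ Sph4) (cap 0) = cap 0 := by
    show resS B (u ((resS A)⁻¹ (cap 0))) = cap 0
    rw [hA', hB]
  have hl : LocalDiffeoAt (resS B * (u * (resS A)⁻¹) : Sph4 ≃ₜ Sph4) (cap 0) := by
    refine ld_mul (ld_resS B _) (ld_mul ?_ hAi)
    rw [hA']
    exact hu
  obtain ⟨K, k1, k2⟩ := core_GermS hw hl
  refine ⟨(resS B)⁻¹ * (K * resS A), fun x => ?_, ?_⟩
  · refine ld_mul ?_ (ld_mul (k1 _) (ld_resS A x))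
    have h := ld_inv (ld_resS B ((resS B)⁻¹ ((K * resS A : Sph4 ≃ₜ Sph4) x)))
    have h2 : resS B ((resS B)⁻¹ ((K * resS A : Sph4 ≃ₜ Sph4) x)) =
        (K * resS A : Sph4 ≃ₜ Sph4) x := (resS B).apply_symm_apply _
    rwa [h2] at h
  · have h1 : ∀ᶠ x in 𝓝 p, K (resS A x) =
        (resS B * (u * (resS A)⁻¹) : Sph4 ≃ₜ Sph4) (resS A x) := by
      have h2 : Tendsto (resS A) (𝓝 p) (𝓝 (cap 0)) := by
        have h3 := (resS A).continuous.tendsto p
        rwa [hA] at h3
      exact h2.eventually k2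
    filter_upwards [h1] with x hx
    show (resS B)⁻¹ (K (resS A x)) = u x
    rw [hx]
    show (resS B).symm (resS B (u ((resS A).symm (resS A x)))) = u x
    rw [Homeomorph.symm_apply_apply, Homeomorph.symm_apply_apply]

end Pool.Agent.Rot7
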