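import Pool.Agent.Rot7.Defs

/-!
# The restriction of a linear isometry to the sphere; isometries which move a point

PROOF. `resS B` is `Faith_resH` in `Rot5/Faith.lean` (private there): copy the definitions and the
proofs of `Faith_smooth`, `Faith_gen`, `Faith_res`, ..., `Faith_ld_resH`. `exists_iso`: if `vec p
= vec q` take the identity, otherwise the reflection in the hyperplane orthogonal to `vec p - vec
q` (`reflection_sub` in Mathlib: `‖v‖ = ‖w‖` gives `reflection (ℝ ∙ (v - w))ᗮ v = w`;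
`Submodule.reflection` is a `LinearIsometryEquiv`), `vec_inj`.
-/

set_option autoImplicit false

open scoped ContDiff Topology Manifold
open Set Filter Metric

namespace Pool.Agent.Rot7

open Pool.Agent.HopfCov hiding pr
open Pool.Agent.HopfCov.Smooth
open Pool.Agent.HopfFin
open Pool.Agent.Rot4
open Pool.Agent.Rot5
open Pool.Agent.Rot6

private theorem fact_Iso : Fact (Module.finrank ℝ E5 = 4 + 1) :=
  Fact.mk (@finrank_euclideanSpace_fin ℝ _ (4 + 1))

attribute [local instance] fact_Iso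

private theorem smooth_Iso {F : E5 → E5} (hF : ContDiff ℝ ∞ F)
    (f : sphere (0 : E5) 1 → sphere (0 : E5) 1) (hf : ∀ x, ((f x : E5)) = F (x : E5)) :
    ContMDiff (𝓡 4) (𝓡 4) ∞ f := by
  have h1 : ∀ x : sphere (0 : E5) 1, F (x : E5) ∈ sphere (0 : E5) 1 := fun x => by
    rw [← hf x]
    exact (f x).2
  have h2 : ContMDiff (𝓡 4) 𝓘(ℝ, E5) ∞ fun x : sphere (0 : E5) 1 => F (x : E5) :=
    hF.contMDiff.comp contMDiff_coe_sphere
  have h3 : f = Set.codRestrict (fun x : sphere (0 : E5) 1 => F (x : E5)) (sphere (0 : E5) 1) h1 :=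
    funext fun x => Subtype.ext (hf x)
  rw [h3]
  exact h2.codRestrict_sphere h1

private theorem gen_Iso {F G : E5 → E5} (hF : ContDiff ℝ ∞ F) (hG : ContDiff ℝ ∞ G)
    (f g : sphere (0 : E5) 1 → sphere (0 : E5) 1) (hf : ∀ x, ((f x : E5)) = F (x : E5))
    (hg : ∀ x, ((g x : E5)) = G (x : E5)) (h1 : ∀ x, g (f x) = x) (h2 : ∀ x, f (g x) = x) :
    IsLocalDiffeomorph (𝓡 4) (𝓡 4) ∞ f := by
  let Φ : Diffeomorph (𝓡 4) (𝓡 4) (sphere (0 : E5) 1) (sphere (0 : E5) 1) ∞ :=
    ⟨⟨f, g, h1, h2⟩, smooth_Iso hF f hf, smooth_Iso hG g hg⟩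
  exact Φ.isLocalDiffeomorph

/-- the restriction of a linear isometry to the sphere -/
noncomputable def resS (B : E5 ≃ₗᵢ[ℝ] E5) : Sph4 ≃ₜ Sph4 where
  toFun x := ⟨B (vec x), by rw [mem_sphere_zero_iff_norm, B.norm_map, norm_vec]⟩
  invFun x := ⟨B.symm (vec x), by rw [mem_sphere_zero_iff_norm, B.symm.norm_map, norm_vec]⟩
  left_inv x := by
    apply vec_inj
    show B.symm (B (vec x)) = vec x
    rw [LinearIsometryEquiv.symm_apply_apply]
  right_inv x := by
    apply vec_inj
    show B (B.symm (vec x)) = vec x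
    rw [LinearIsometryEquiv.apply_symm_apply]
  continuous_toFun := Continuous.subtype_mk (B.continuous.comp continuous_vec) _
  continuous_invFun := Continuous.subtype_mk (B.symm.continuous.comp continuous_vec) _

theorem vec_resS (B : E5 ≃ₗᵢ[ℝ] E5) (x : Sph4) : vec (resS B x) = B (vec x) := rfl

theorem ld_resS (B : E5 ≃ₗᵢ[ℝ] E5) (x : Sph4) : LocalDiffeoAt (resS B) x :=
  gen_Iso (F := B) (G := B.symm) B.contDiff B.symm.contDiff (resS B) (resS B).symm
    (fun _ => rfl) (fun _ => rfl) (resS B).symm_apply_apply (resS B).apply_symm_apply x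

theorem exists_iso (p q : Sph4) : ∃ B : E5 ≃ₗᵢ[ℝ] E5, resS B p = q := by
  refine ⟨(ℝ ∙ (vec p - vec q))ᗮ.reflection, ?_⟩
  apply vec_inj
  rw [vec_resS]
  exact Submodule.reflection_sub (by rw [norm_vec, norm_vec])

end Pool.Agent.Rot7
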