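import Pool.Agent.Rot7.Defs

/-!
# The lift of a normalised conjugation

PROOF. Let `r = rotHS (2 * Real.pi / n)` and `s` the homeomorphism `shf 1`. `sph n (s z) = r (sph
n z)` (`sph_shf`). `h` is the identity near the 2-sphere, so `CommNear h` (the rotations preserve
small neighbourhoods of the 2-sphere: `nearS2_iff`, `pv2_rotE`, `px2_rotE`), `OnS2 (h x) ↔ OnS2 x`
(`hg.fix` for `0 < n`: directly, `h x = x` on the 2-sphere and `h` is injective), `LocalDiffeoAt h
x` for `OnS2 x`. `lift_all` (`Rot5/LiftAll.lean`) with `f = h`, `g1 = g`, `g2 = r`, `G1 = G'`, `G2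
= s` gives `F`. For `wsq z ≥ R` large: `sph n (F z) = h (sph n z) = sph n z` (`sph_near`), so `F z
= shf (n * k) z` with an integer `k = k z` (`sph_eq`), which is continuous, hence constant on the
connected set `{z | R ≤ wsq z}` (`preconnected_wsq`). `T = shf (-(n * k)) ∘ F` has all the
properties of `F` (`sph_eq`; shifts commute with each other; `Reg`: composition with a
translation) and `T z = z` far out. `to_phi` (`Rot5/Phi.lean`) with `m = 1`: `Φ`, `Nn n 0 Φ`, `Φ *
G = tau * Φ` (`pow_one`), `q1 (Φ x) = T (q1 x)`, and the two statements on `Reg`; `Om (Φ x)`: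
`Nn.om` (`Rot4/BridgeTo.lean`).
-/

set_option autoImplicit false

open scoped ContDiff Topology Manifold
open Set Filter Metric

namespace Pool.Agent.Rot7

open Pool.Agent.HopfCov hiding pr
open Pool.Agent.HopfCov.Smooth
open Pool.Agent.HopfFin
open Pool.Agent.Rot4
open Pool.Agent.Rot5
open Pool.Agent.Rot6

private noncomputable def shiftH_LiftH (c : ℝ) : E4 ≃ₜ E4 where
  toFun := shf c
  invFun := shf (-c)
  left_inv z := by rw [shf_shf, neg_add_cancel, shf_zero]
  right_inv z := by rw [shf_shf, add_neg_cancel, shf_zero]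
  continuous_toFun := by
    unfold shf
    exact continuous_id.add continuous_const
  continuous_invFun := by
    unfold shf
    exact continuous_id.add continuous_const

private theorem shiftH_apply_LiftH (c : ℝ) (z : E4) : shiftH_LiftH c z = shf c z := rfl

theorem lift_h {n : ℕ} (hn : 0 < n) {g h : Sph4 ≃ₜ Sph4} (hg : NormAct n g h)
    {f G H G' : E4 ≃ₜ E4} (hR : Rep n g f G H G') :
    ∃ T Φ : E4 ≃ₜ E4, (∀ z, sph n (T z) = h (sph n z)) ∧
      (∀ z, LocalDiffeoAt h (sph n z) ↔ Reg T z) ∧ Nn n 0 Φ ∧ Φ * G = tau * Φ ∧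
      (∀ x, Om x → Om (Φ x) ∧ q1 (Φ x) = T (q1 x)) ∧
      (∀ x, Om x → Reg T (q1 x) → Reg Φ x) ∧ ∀ x, x ≠ 0 → ¬ Om x → Reg Φ x := by
  have hcm : CommNear h := by
    obtain ⟨a, ha, h1⟩ := nearS2_iff.1 hg.top
    refine nearS2_iff.2 ⟨a, ha, fun x hx t => ?_⟩
    have hx' : pv2 (vec (rotA t x)) ≤ a * px2 (vec (rotA t x)) := by
      have e1 : vec (rotA t x) = rotE t (vec x) := rfl
      rw [e1, pv2_rotE, px2_rotE]
      exact hx
    rw [h1 _ hx', h1 _ hx]
  have hfix : ∀ x, OnS2 x → h x = x := fun x hx => hg.top.self hx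
  have hS : ∀ x, OnS2 (h x) ↔ OnS2 x := by
    intro x
    constructor
    · intro hx
      have h1 := h.injective (hfix _ hx)
      rwa [h1] at hx
    · intro hx
      rw [hfix x hx]
      exact hx
  have hld : ∀ x, OnS2 x → LocalDiffeoAt h x := by
    intro x hx
    refine ld_congr (ld_one x) ?_
    filter_upwards [hg.top x hx] with y hy
    exact hy.symm
  have hsh : ∀ z, sph n (shiftH_LiftH 1 z) = rotHS (2 * Real.pi / n) (sph n z) := by
    intro z
    rw [shiftH_apply_LiftH, sph_shf hn, mul_one, rotHS_apply]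
  obtain ⟨F, hF, hper, -, -, hcj, -⟩ := lift_all hn (g2 := rotHS (2 * Real.pi / n))
    (G2 := shiftH_LiftH 1) hcm hS hld (fun x => hg.conj x) hR.lift hR.far hsh
    ⟨0, fun z _ => rfl⟩
  obtain ⟨R, hR0, hR1⟩ := sph_near hn hg.top
  obtain ⟨z₀, hz₀⟩ : ∃ z : E4, R ≤ wsq z := by
    refine ⟨EuclideanSpace.single 0 (|R| + 1), ?_⟩
    unfold wsq
    simp
    nlinarith [le_abs_self R, abs_nonneg R]
  obtain ⟨k, hk⟩ : ∃ k : ℤ, F z₀ = shf (n * k) z₀ := by
    refine (sph_eq hn).1 ?_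
    rw [hF, hR1 z₀ hz₀]
  have hcont : Continuous fun z : E4 => shf (n * k) z := by
    unfold shf
    exact continuous_id.add continuous_const
  have hfar : ∀ z ∈ {z : E4 | R ≤ wsq z}, F z = shf (n * k) z := by
    refine sph_lift_unique hn (preconnected_wsq hR0) F.continuous.continuousOn
      hcont.continuousOn (fun z hz => ?_) hz₀ hk
    rw [hF, hR1 z hz]
    exact (sph_eq hn).2 ⟨k, rfl⟩
  let T : E4 ≃ₜ E4 := F.trans (shiftH_LiftH (-(n * k)))
  have hT : ∀ z, T z = shf (-(n * k)) (F z) := fun _ => rfl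
  have hTs : ∀ z, sph n (T z) = h (sph n z) := by
    intro z
    rw [hT, ← hF]
    refine ((sph_eq hn).2 ⟨-k, ?_⟩).symm
    rw [Int.cast_neg, mul_neg]
  have hTG : ∀ z, T ((G' ^ 1 : E4 ≃ₜ E4) z) = shf ((1 : ℕ) : ℝ) (T z) := by
    intro z
    rw [pow_one, hT, hT, hcj, shiftH_apply_LiftH, shf_shf, shf_shf, Nat.cast_one, add_comm]
  have hTfar : ∃ R : ℝ, ∀ z, R ≤ wsq z → T z = z := by
    refine ⟨R, fun z hz => ?_⟩
    rw [hT, hfar z hz, shf_shf, neg_add_cancel, shf_zero]
  have hTper : ∀ z, T (shf ((1 * n : ℕ) : ℝ) z) = shf ((1 * n : ℕ) : ℝ) (T z) := by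
    intro z
    rw [one_mul, hT, hT, hper, shf_shf, shf_shf, add_comm]
  obtain ⟨Φ, h1, h2, h3, h4, h5⟩ := to_phi hn one_pos hR.pair.nnG hR.crd hTG hTfar hTper
  rw [one_mul] at h1
  rw [pow_one, pow_one] at h2
  exact ⟨T, Φ, hTs, lift_reg hn hTs, h1, h2, fun x hx => ⟨h1.om.2 hx, h3 x hx⟩, h4, h5⟩

end Pool.Agent.Rot7
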