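import Pool.Agent.Rot7.Defs

/-!
# Normalisation of a conjugation

PROOF. Let `r = rotHS (2 * Real.pi / n)`, `r x = rotS n x`. `OnS2 (h x) ↔ OnS2 x`: `rotS_fix_iff`,
`rotS n (h x) = h (g x)`, `hfix`. `g^[n] x = x`: `h (g^[n] x) = (rotS n)^[n] (h x) = h x`
(`rotS_pow`). `straighten hn` (`Rot5/Straighten.lean`) with `f = h`, `g1 = g`, `g2 = r` gives `f1`
with `CommNear f1`, `OnS2 (f1 x) ↔ OnS2 x`, `LocalDiffeoAt f1 x` if `LocalDiffeoAt h x`, and `f1
(g x) = rotS n (f1 x)` in both cases (in the second case `n = 2` and `refS (rotS 2 (refS y)) =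
rotS 2 y`: `refS_rotS_two`, `refS_refS`). `norm_of_straight` (`Rot5/NormStr.lean`) with `k = f1`.
-/

set_option autoImplicit false

open scoped ContDiff Topology Manifold
open Set Filter Metric

namespace Pool.Agent.Rot7

open Pool.Agent.HopfCov hiding pr
open Pool.Agent.HopfCov.Smooth
open Pool.Agent.HopfFin
open Pool.Agent.Rot4
open Pool.Agent.Rot5
open Pool.Agent.Rot6

theorem norm_same {n : ℕ} (hn : 2 ≤ n) {g h : Sph4 ≃ₜ Sph4} (hg : ∀ x, LocalDiffeoAt g x)
    (hnear : NearS2 fun x => g x = rotS n x) (hfix : ∀ x, g x = x ↔ OnS2 x)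
    (hc : ∀ x, h (g x) = rotS n (h x)) (hh : ∀ x, OnS2 x → LocalDiffeoAt h x) :
    ∃ h' : Sph4 ≃ₜ Sph4, NormAct n g h' := by
  have hn0 : 0 < n := by omega
  have hS : ∀ x, OnS2 (h x) ↔ OnS2 x := by
    intro x
    rw [← rotS_fix_iff hn, ← hc, h.injective.eq_iff, hfix]
  have hit : ∀ (k : ℕ) (x : Sph4), h (g^[k] x) = (rotS n)^[k] (h x) := by
    intro k x
    induction k with
    | zero => rfl
    | succ k ih => rw [Function.iterate_succ_apply', Function.iterate_succ_apply', hc, ih]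
  have hpow : ∀ x, g^[n] x = x := by
    intro x
    apply h.injective
    rw [hit, rotS_pow hn0]
  have hr : NearS2 fun x => rotHS (2 * Real.pi / n) x = rotS n x := fun x _ =>
    Eventually.of_forall fun _ => rfl
  obtain ⟨f1, a1, a2, a3, a4⟩ := straighten hn (f := h) (g1 := g) (g2 := rotHS (2 * Real.pi / n))
    hnear hr (fun x => hc x) hS hh
  refine norm_of_straight hn hg hnear hpow (k := f1) a1 a2 (fun x hx => a3 x (hh x hx)) ?_
  rcases a4 with a4 | ⟨hn2, a4⟩
  · exact fun x => a4 x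
  · intro x
    subst hn2
    rw [a4 x]
    show refS (rotS 2 (refS (f1 x))) = rotS 2 (f1 x)
    rw [refS_rotS_two, refS_refS]

end Pool.Agent.Rot7
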