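import Pool.Agent.Rot7.Defs

/-!
# A half equator which is disjoint from its image gives a generator which maps the ball into itself

PROOF. Let `z` with `z 3 = n * j`, `j` an integer: `sph n z = sg (q2 n z)`, `q2 n z = (z₀, z₁, exp
z₂, 0)` (cosine and sine of `2 π j`), so `OnHalf (sph n z)` (coordinates of `sgv`). (1) If `z 3 =
0` then `(G' z) 3` is not of the form `n * j`: otherwise `sph n z` and `sph n (G' z) = g (sph n
z)` (`hR.lift`) are both on the half equator and `hp` contradicts `sph_off`. (2) The hyperplane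
`{z | z 3 = 0}` is connected, `z ↦ (G' z) 3` is continuous and equal to `1` for `wsq z` large
(`hR.far`, `(shf 1 z) 3 = z 3 + 1`; the hyperplane contains such points), `1 < n`; by (1) with `j
= 0` and `j = 1` and the intermediate value theorem `0 < (G' z) 3` for all `z` with `z 3 = 0`. (3)
If `‖x‖ = 1` and `Om x` then `(q1 x) 3 = 0`, `G' (q1 x) = q1 (G x)` (`hR.crd`), so `-logb 2 ‖G x‖
> 0`, `‖G x‖ < 1` (`G x ≠ 0`). If `‖x‖ = 1` and not `Om x` then `x = e0` (`‖x‖ ≤ x 0`), `G x = x /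
2` (`hR.pair.near`, `e0 ∈ Cone δ`). (4) `G⁻¹ {y | 1 ≤ ‖y‖}` is connected (the complement of an
open ball in `ℝ⁴` is connected: image of the connected `{x ≠ 0}` under the radial map, or `Metric`
lemmas; `preconnected_wsq` in `Rot4/Conn.lean` for the idea; see also `HopfCov`), it does not meet
the unit sphere by (3), and it is not contained in the open unit ball, because it is not bounded
(`G` is a homeomorphism, `{y | 1 ≤ ‖y‖}` is not compact). So it is disjoint from the closed unit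
ball.
-/

set_option autoImplicit false

open scoped ContDiff Topology Manifold
open Set Filter Metric

namespace Pool.Agent.Rot7

open Pool.Agent.HopfCov hiding pr
open Pool.Agent.HopfCov.Smooth
open Pool.Agent.HopfFin
open Pool.Agent.Rot4
open Pool.Agent.Rot5
open Pool.Agent.Rot6

private theorem TrapOf_half {n : ℕ} (hn : 0 < n) {z : E4} (hz : z 3 = 0) : OnHalf (sph n z) := by
  have h2 : (q2 n z) 2 = Real.exp (z 2) := by
    show Real.exp (z 2) * Real.cos (2 * Real.pi / n * z 3) = _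
    rw [hz, mul_zero, Real.cos_zero, mul_one]
  have h3 : (q2 n z) 3 = 0 := by
    show Real.exp (z 2) * Real.sin (2 * Real.pi / n * z 3) = _
    rw [hz, mul_zero, Real.sin_zero, mul_zero]
  constructor
  · show (‖q2 n z‖ ^ 2 + 1)⁻¹ * (2 * (q2 n z) 3) = 0
    rw [h3, mul_zero, mul_zero]
  · show 0 ≤ (‖q2 n z‖ ^ 2 + 1)⁻¹ * (2 * (q2 n z) 2)
    rw [h2]
    positivity

private theorem TrapOf_pos {n : ℕ} (hn : 2 ≤ n) {g : Sph4 ≃ₜ Sph4}
    {f G H G' : E4 ≃ₜ E4} (hR : Rep n g f G H G')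
    (hp : ∀ x y, OnHalf x → OnHalf y → g x = y → OnS2 x) {z : E4} (hz : z 3 = 0) :
    0 < (G' z) 3 := by
  have hn0 : 0 < n := by omega
  have key : ∀ w : E4, w 3 = 0 → (G' w) 3 ≠ 0 := by
    intro w hw h0
    exact sph_off n w (hp _ _ (TrapOf_half hn0 hw) (TrapOf_half hn0 h0) (hR.lift w).symm)
  obtain ⟨R, hfar⟩ := hR.far
  by_contra hneg
  push Not at hneg
  obtain ⟨T, hT0, hT⟩ : ∃ T : ℝ, 0 ≤ T ∧ R ≤ wsq (z + T • (EuclideanSpace.single 0 1 : E4)) := by
    refine ⟨|z 0| + |R| + 1, by positivity, ?_⟩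
    have e0' : (z + (|z 0| + |R| + 1) • (EuclideanSpace.single 0 1 : E4)) 0 =
        z 0 + (|z 0| + |R| + 1) := by simp
    have e1' : (z + (|z 0| + |R| + 1) • (EuclideanSpace.single 0 1 : E4)) 1 = z 1 := by simp
    have e2' : (z + (|z 0| + |R| + 1) • (EuclideanSpace.single 0 1 : E4)) 2 = z 2 := by simp
    rw [wsq, e0', e1', e2']
    have h1 : |R| + 1 ≤ z 0 + (|z 0| + |R| + 1) := by
      have := neg_abs_le (z 0)
      linarith
    have h2 : (|R| + 1) ^ 2 ≤ (z 0 + (|z 0| + |R| + 1)) ^ 2 := by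
      have h3 : 0 ≤ |R| + 1 := by positivity
      exact pow_le_pow_left₀ h3 h1 2
    have h4 : R ≤ |R| := le_abs_self R
    have h5 : |R| ≤ (|R| + 1) ^ 2 := by nlinarith [abs_nonneg R]
    nlinarith [sq_nonneg (z 1), sq_nonneg (z 2)]
  have hc : Continuous fun t : ℝ => (G' (z + t • (EuclideanSpace.single 0 1 : E4))) 3 := by
    have h1 : Continuous fun t : ℝ => G' (z + t • (EuclideanSpace.single 0 1 : E4)) :=
      G'.continuous.comp (by fun_prop)
    exact (EuclideanSpace.proj (𝕜 := ℝ) (3 : Fin 4)).continuous.comp h1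
  have h3 : ∀ t : ℝ, (z + t • (EuclideanSpace.single 0 1 : E4)) 3 = 0 := by
    intro t
    simp [hz]
  have hend : (G' (z + T • (EuclideanSpace.single 0 1 : E4))) 3 = 1 := by
    rw [hfar _ hT]
    simp [shf, hz]
  have hstart : (G' (z + (0 : ℝ) • (EuclideanSpace.single 0 1 : E4))) 3 ≤ 0 := by
    rw [zero_smul, add_zero]
    exact hneg
  obtain ⟨t, -, ht⟩ := intermediate_value_Icc hT0 hc.continuousOn
    (show (0 : ℝ) ∈ Icc _ _ from ⟨hstart, by rw [hend]; exact zero_le_one⟩)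
  exact key _ (h3 t) ht

theorem trap_of_page {n : ℕ} (hn : 2 ≤ n) {g h : Sph4 ≃ₜ Sph4} (hg : NormAct n g h)
    {f G H G' : E4 ≃ₜ E4} (hR : Rep n g f G H G')
    (hp : ∀ x y, OnHalf x → OnHalf y → g x = y → OnS2 x) : Trap G := by
  have hone : ∀ x : E4, ‖x‖ = 1 → ‖G x‖ < 1 := by
    intro x hx
    by_cases hO : Om x
    · have h1 : (q1 x) 3 = 0 := by
        show -Real.logb 2 ‖x‖ = 0
        rw [hx, Real.logb_one, neg_zero]
      have h2 := TrapOf_pos hn hR hp h1
      rw [hR.crd x hO] at h2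
      have h3 : 0 < -Real.logb 2 ‖G x‖ := h2
      rcases (norm_nonneg (G x)).eq_or_lt with h4 | h4
      · rw [← h4]
        exact one_pos
      · have h5 : Real.logb 2 ‖G x‖ < 0 := by linarith
        exact (Real.logb_neg_iff one_lt_two h4).1 h5
    · obtain ⟨t, ht, rfl⟩ := not_Om_iff.1 hO
      obtain ⟨δ, hδ, hnear⟩ := hR.pair.near
      rw [hnear _ (smul_e0_mem_Cone hδ.le ht), norm_smul, hx]
      norm_num
  intro x hx
  by_contra hcon
  push Not at hcon
  obtain ⟨y, hy⟩ : ∃ y, y = G x := ⟨_, rfl⟩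
  rw [← hy] at hcon
  have hxy : G.symm y = x := by
    rw [hy, G.symm_apply_apply]
  obtain ⟨M, hM⟩ : ∃ M : ℝ, ∀ u : E4, ‖u‖ ≤ 1 → ‖G u‖ ≤ M := by
    have h1 : IsCompact (closedBall (0 : E4) 1) := isCompact_closedBall _ _
    obtain ⟨M, hM⟩ := h1.exists_bound_of_continuousOn G.continuous.continuousOn
    exact ⟨M, fun u hu => hM u (by simpa using hu)⟩
  have hM0 : 0 ≤ M := (norm_nonneg _).trans (hM 0 (by simp))
  have hc : Continuous fun s : ℝ => ‖G.symm (s • y)‖ :=
    (G.symm.continuous.comp (by fun_prop)).norm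
  have hstart : ‖G.symm ((1 : ℝ) • y)‖ ≤ 1 := by
    rw [one_smul, hxy]
    exact hx
  have hend : 1 ≤ ‖G.symm ((M + 1) • y)‖ := by
    by_contra h1
    push Not at h1
    have h2 := hM _ h1.le
    rw [G.apply_symm_apply, norm_smul, Real.norm_of_nonneg (by linarith)] at h2
    nlinarith
  obtain ⟨s, hs, hs1⟩ := intermediate_value_Icc (show (1 : ℝ) ≤ M + 1 by linarith)
    hc.continuousOn (show (1 : ℝ) ∈ Icc _ _ from ⟨hstart, hend⟩)
  have h4 := hone _ hs1
  rw [G.apply_symm_apply, norm_smul, Real.norm_of_nonneg (by linarith [hs.1])] at h4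
  nlinarith [hs.1]

end Pool.Agent.Rot7
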