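import Pool.Agent.Rot7.Angle

/-!
# Equivariant tubes which are straight

PROOF. As `tube_pos` (`Rot5/Tube.lean`), with `G₂ y = ρ (G y)` (`exists_straight`) instead of `G`
from `exists_avg`: `G₂ (cone g x) = ρ (rotE θ (G x)) = rotE θ (G₂ x)`. `core2` (with `a' = a₀ =
1`) and `homeo_of_core2` give `φ` with `φ x = unit (F1 (vec x))`, `F1 = G₂` on a tube around the
plane. `Upper (fderiv ℝ (cone φ) (vec x))` for `OnS2 x`: near `v = vec x`, `cone φ y = ‖y‖ • vec
(unit (F1 (‖y‖⁻¹ • y))) = (‖y‖ / ‖F1 y‖) • F1 y` (`F1` is homogeneous and `≠ 0` there,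
`vec_unit`), `F1 = G₂` near `v`, `F1 v = v`. With `λ y = ‖y‖ / ‖G₂ y‖` (smooth near `v`, `λ v =
1`) the derivative is `u ↦ (Dλ u) • v + DG₂ u`; `v` lies in the plane, so the last two coordinates
of the columns `e3`, `e4` are those of `DG₂`; and `fderiv_fix` for `cone φ` (`cone φ y = y` on the
plane: `φ` fixes the 2-sphere).
-/

set_option autoImplicit false

open scoped ContDiff Topology Manifold
open Set Filter Metric

namespace Pool.Agent.Rot7

open Pool.Agent.HopfCov hiding pr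
open Pool.Agent.HopfCov.Smooth
open Pool.Agent.HopfFin
open Pool.Agent.Rot4
open Pool.Agent.Rot5
open Pool.Agent.Rot6

private theorem TubeC_cone_zero (f : Sph4 → Sph4) : cone f 0 = 0 := by
  rw [cone, norm_zero, zero_smul]

private theorem TubeC_coord {x : E5} (h : pv2 x = 0) : x 3 = 0 ∧ x 4 = 0 := by
  unfold pv2 at h
  constructor
  · nlinarith [sq_nonneg (x 3), sq_nonneg (x 4)]
  · nlinarith [sq_nonneg (x 3), sq_nonneg (x 4)]

theorem tube_straight {n : ℕ} (hn : 2 ≤ n) {g h : Sph4 ≃ₜ Sph4} (hg : ∀ x, LocalDiffeoAt g x)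
    (hpow : ∀ x, g^[n] x = x) (hfix : ∀ x, OnS2 x → g x = x)
    (hc : ∀ x, h (g x) = rotS n (h x)) (hh : ∀ x, OnS2 x → LocalDiffeoAt h x)
    (hpos : ∀ x, OnS2 x → 0 < detA (fderiv ℝ (cone h) (vec x))) :
    ∃ φ : Sph4 ≃ₜ Sph4, (∀ x, LocalDiffeoAt φ x) ∧ (∀ x, OnS2 x → φ x = x) ∧
      (NearS2 fun x => φ (g x) = rotS n (φ x)) ∧
      ∀ x, OnS2 x → Upper (fderiv ℝ (cone φ) (vec x)) := by
  obtain ⟨G, hG, hcomm⟩ := exists_avg hn hg hpow hfix hc hh hpos
  obtain ⟨ρ, hρ, hG2, hUp⟩ := exists_straight hG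
  obtain ⟨G2, hG2d⟩ : ∃ G2 : E5 → E5, G2 = fun y => ρ (G y) := ⟨_, rfl⟩
  rw [← hG2d] at hG2 hUp
  have hcomm2 : ∀ x, G2 (cone g x) = rotE (2 * Real.pi / n) (G2 x) := by
    intro x
    rw [hG2d]
    show ρ (G (cone g x)) = rotE _ (ρ (G x))
    rw [hcomm, hρ]
  obtain ⟨F1, a, b, hb, hba, -, hhom, hFar, hPl, hTube, b', hb', hF1G⟩ :=
    core2 hG2 one_pos one_pos
  obtain ⟨φ, hφ, hφld, hφne⟩ := homeo_of_core2 hb hba hhom hFar hTube
  have hφfix : ∀ x, OnS2 x → φ x = x := by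
    intro x hx
    rw [hφ, hPl _ (OnS2_iff.1 hx), unit_vec]
  refine ⟨φ, hφld, hφfix, ?_, ?_⟩
  · have hP : NearS2 fun x => pv2 (vec x) ≤ b' * px2 (vec x) :=
      nearS2_iff.2 ⟨b', hb', fun x hx => hx⟩
    have hgS : ∀ x, OnS2 (g x) ↔ OnS2 x := by
      intro x
      constructor
      · intro hx
        have h1 := hfix _ hx
        have h2 : g x = x := g.injective h1
        rwa [h2] at hx
      · intro hx
        rw [hfix x hx]
        exact hx
    refine (hP.and (hP.comp hgS)).mono fun x hx => ?_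
    obtain ⟨hx1, hx2⟩ := hx
    have e1 : F1 (vec (g x)) = rotE (2 * Real.pi / n) (F1 (vec x)) := by
      rw [hF1G _ hx2, ← cone_vec g x, hcomm2, hF1G _ hx1]
    rw [hφ, hφ, e1, unit_rotE _ (hφne x)]
    rfl
  · intro x hx
    obtain ⟨v, hv⟩ : ∃ v : E5, v = vec x := ⟨_, rfl⟩
    rw [← hv]
    have hv0 : v ≠ 0 := by
      rw [hv]
      exact vec_ne x
    have hvp : pv2 v = 0 := by
      rw [hv]
      exact OnS2_iff.1 hx
    have hvx : 0 < px2 v := by
      have h1 := px2_add_pv2 v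
      have h2 : 0 < ‖v‖ ^ 2 := by
        have := norm_pos_iff.2 hv0
        positivity
      rw [hvp] at h1
      linarith
    have hne : ∀ y : E5, y ≠ 0 → F1 y ≠ 0 := by
      intro y hy h0
      have h1 : F1 (‖y‖ • vec (unit y)) = ‖y‖ • F1 (vec (unit y)) :=
        hhom _ (norm_pos_iff.2 hy) _
      rw [smul_vec_unit, h0] at h1
      rcases smul_eq_zero.1 h1.symm with h2 | h2
      · exact norm_ne_zero_iff.2 hy h2
      · exact hφne _ h2
    have hcone : ∀ y : E5, y ≠ 0 → cone φ y = (‖y‖ * ‖F1 y‖⁻¹) • F1 y := by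
      intro y hy
      have h1 : F1 y = ‖y‖ • F1 (vec (unit y)) := by
        conv_lhs => rw [← smul_vec_unit y]
        exact hhom _ (norm_pos_iff.2 hy) _
      have h2 : φ (unit y) = unit (F1 y) := by
        rw [hφ, h1, unit_smul (norm_pos_iff.2 hy)]
      rw [cone, h2, vec_unit (hne y hy), smul_smul]
    have hF1v : G2 v = v := hG2.plane v hvp
    have hev : cone φ =ᶠ[𝓝 v] fun y => (‖y‖ * ‖G2 y‖⁻¹) • G2 y := by
      have h1 : ∀ᶠ y in 𝓝 v, pv2 y < b' * px2 y := by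
        refine contDiff_pv2.continuous.continuousAt.eventually_lt
          (continuous_const.mul contDiff_px2.continuous).continuousAt ?_
        rw [hvp]
        positivity
      have h2 : ∀ᶠ y in 𝓝 v, y ≠ 0 := isOpen_ne.mem_nhds hv0
      filter_upwards [h1, h2] with y hy hy0
      rw [hcone y hy0, hF1G y hy.le]
    have hd : DifferentiableAt ℝ G2 v :=
      (hG2.smooth v hv0 hvp).self_of_nhds.differentiableAt (by simp)
    have hd1 : DifferentiableAt ℝ (fun y : E5 => ‖G2 y‖) v := by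
      refine hd.norm ℝ ?_
      rw [hF1v]
      exact hv0
    have hd2 : DifferentiableAt ℝ (fun y : E5 => ‖y‖) v := differentiableAt_id.norm ℝ hv0
    have hd3 : DifferentiableAt ℝ (fun y : E5 => ‖y‖ * ‖G2 y‖⁻¹) v := by
      refine hd2.mul (hd1.inv ?_)
      rw [hF1v]
      exact norm_ne_zero_iff.2 hv0
    have hD := hd3.hasFDerivAt.smul hd.hasFDerivAt
    have hD2 := hD.congr_of_eventuallyEq hev
    have hDc : DifferentiableAt ℝ (cone φ) v := hD2.differentiableAt
    have hval : ∀ u : E5, fderiv ℝ (cone φ) v u =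
        fderiv ℝ G2 v u + (fderiv ℝ (fun y : E5 => ‖y‖ * ‖G2 y‖⁻¹) v u) • v := by
      intro u
      rw [hD2.fderiv]
      simp only [add_apply, smul_apply,
        ContinuousLinearMap.smulRight_apply]
      rw [hF1v, mul_inv_cancel₀ (norm_ne_zero_iff.2 hv0), one_smul]
    obtain ⟨hv3, hv4⟩ := TubeC_coord hvp
    have hcoord3 : ∀ u : E5, (fderiv ℝ (cone φ) v u) 3 = (fderiv ℝ G2 v u) 3 := by
      intro u
      rw [hval u]
      simp [hv3]
    have hcoord4 : ∀ u : E5, (fderiv ℝ (cone φ) v u) 4 = (fderiv ℝ G2 v u) 4 := by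
      intro u
      rw [hval u]
      simp [hv4]
    have hU := hUp v hv0 hvp
    refine ⟨fun w hw => ?_, ?_, ?_, ?_⟩
    · refine fderiv_fix hvp hDc (fun y hy => ?_) hw
      by_cases h0 : y = 0
      · rw [h0, TubeC_cone_zero]
      · rw [cone, hφfix _ ((OnS2_unit h0).2 hy), smul_vec_unit]
    · rw [hcoord3]
      exact hU.pos3
    · rw [hcoord4]
      exact hU.zero
    · rw [hcoord4]
      exact hU.pos4

end Pool.Agent.Rot7
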