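import Pool.Agent.Rot7.Flat
import Pool.Agent.Rot7.TubeC
import Pool.Agent.Rot7.TrapOf
import Pool.Agent.Rot7.NormSame

/-!
# An action with a ball disjoint from its image is linear off one orbit

PROOF of `off_pos`. `g^[n] x = x` (from `hc` and `rotS_pow`). `tube_straight` gives `φ`,
`flat_page` gives `f1`. Let `g₂ = f1⁻¹ * g * f1`, `h₂ = h * f1`. `g₂` is a local diffeomorphism
everywhere. Near the 2-sphere `g₂ = rotS n`: `f1 x = φ⁻¹ x` near the 2-sphere (`φ (f1 x) = x`),
`f1` maps the 2-sphere onto itself; with `z = f1 x`, `φ (g z) = rotS n (φ z) = rotS n x`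
(`NearS2.comp`), and `φ (f1 (rotS n x)) = rotS n x`, so `g z = f1 (rotS n x)`. `g₂ x = x ↔ OnS2
x`. `h₂ (g₂ x) = rotS n (h₂ x)`, `LocalDiffeoAt h₂ x` for `OnS2 x` (`ld_mul`). `norm_same` gives
`h'` with `NormAct n g₂ h'`; `rep_exists` a `Rep`, `trap_of_page` (page: `g₂ x = y` means `g (f1
x) = f1 y`) gives `Trap G`, so `Off G` (`Cj G G` by `1`). `of_off_norm` (`Rot6/MainC.lean`) with
the conjugation `f1⁻¹` (`f1⁻¹ (g x) = g₂ (f1⁻¹ x)`). `off_of_ball`: `σ` from `DisjointBall`, as a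
homeomorphism (`homeo_of_isDiffeo`); `g` as a homeomorphism (`homeo_of_isDiffeo hg.diffeo`). `g₁ =
σ⁻¹ * g * σ`: fixed points exactly the 2-sphere, page property (`k = 1`), `h₁ = h * σ` with `h`
from `hg.top`. `tube_sign` for `g₁`, `h₁`. Positive: `off_pos`. Negative: replace `g₁` by `refHS *
g₁ * refHS`, `h₁` by `h₁ * refHS` (as in the proof of `tube`; the sign changes: `Tube_detA_comp`;
copy), the page property holds because `refS` fixes the points of the half equator (`vec x 4 =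
0`). `linearOff_congr` transports the conclusion back to `g`.
-/

set_option autoImplicit false

open scoped ContDiff Topology Manifold
open Set Filter Metric

namespace Pool.Agent.Rot7

open Pool.Agent.HopfCov hiding pr
open Pool.Agent.HopfCov.Smooth
open Pool.Agent.HopfFin
open Pool.Agent.Rot4
open Pool.Agent.Rot5
open Pool.Agent.Rot6

private theorem OffOf_fix_iff {g f1 : Sph4 ≃ₜ Sph4} (hfix : ∀ x, g x = x ↔ OnS2 x)
    (h1 : ∀ x, OnS2 x → f1 x = x) (x : Sph4) :
    (f1⁻¹ * g * f1 : Sph4 ≃ₜ Sph4) x = x ↔ OnS2 x := by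
  show f1.symm (g (f1 x)) = x ↔ OnS2 x
  rw [Homeomorph.symm_apply_eq, hfix]
  constructor
  · intro h
    have h2 := h1 _ h
    have h3 := f1.injective h2
    rwa [h3] at h
  · intro h
    rw [h1 x h]
    exact h

theorem off_pos {n : ℕ} (hn : 2 ≤ n) {g h : Sph4 ≃ₜ Sph4} (hg : ∀ x, LocalDiffeoAt g x)
    (hfix : ∀ x, g x = x ↔ OnS2 x) (hp : ∀ x y, OnHalf x → OnHalf y → g x = y → OnS2 x)
    (hc : ∀ x, h (g x) = rotS n (h x)) (hh : ∀ x, OnS2 x → LocalDiffeoAt h x)
    (hpos : ∀ x, OnS2 x → 0 < detA (fderiv ℝ (cone h) (vec x))) : LinearOffOneOrbit g := by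
  have hn0 : 0 < n := by omega
  have hit : ∀ (k : ℕ) (x : Sph4), h (g^[k] x) = (rotS n)^[k] (h x) := by
    intro k x
    induction k with
    | zero => rfl
    | succ k ih => rw [Function.iterate_succ_apply', Function.iterate_succ_apply', hc, ih]
  have hpow : ∀ x, g^[n] x = x := by
    intro x
    apply h.injective
    rw [hit, rotS_pow hn0]
  obtain ⟨φ, a1, a2, a3, a4⟩ := tube_straight hn hg hpow (fun x hx => (hfix x).2 hx) hc hh hpos
  obtain ⟨f1, b1, b2, b3⟩ := flat_page hn hfix hp a1 a2 a3 a4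
  -- `f1` fixes the points of the 2-sphere
  have hf1 : ∀ x, OnS2 x → f1 x = x := by
    intro x hx
    have h2 := b2.self hx
    have h3 : φ (f1 x) = φ x := by rw [h2, a2 x hx]
    exact φ.injective h3
  have hf1S : ∀ x, OnS2 (f1 x) ↔ OnS2 x := by
    intro x
    constructor
    · intro hx
      have h2 := f1.injective (hf1 _ hx)
      rwa [h2] at hx
    · intro hx
      rw [hf1 x hx]
      exact hx
  set g₂ : Sph4 ≃ₜ Sph4 := f1⁻¹ * g * f1 with hg₂
  have hld_inv : ∀ x, LocalDiffeoAt (f1⁻¹ : Sph4 ≃ₜ Sph4) x := by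
    intro x
    have h5 := ld_inv (b1 (f1.symm x))
    rwa [f1.apply_symm_apply] at h5
  have c1 : ∀ x, LocalDiffeoAt g₂ x := fun x => ld_mul (ld_mul (hld_inv _) (hg _)) (b1 x)
  have c2 : ∀ x, g₂ x = x ↔ OnS2 x := OffOf_fix_iff hfix hf1
  have hrS : ∀ x, OnS2 (rotHS (2 * Real.pi / n) x) ↔ OnS2 x := fun x => OnS2_rotA
  have c3 : NearS2 fun x => g₂ x = rotS n x := by
    have h2 := (a3.comp hf1S).and (b2.and (b2.comp hrS))
    refine h2.mono fun x hx => ?_
    obtain ⟨e1, e2, e3⟩ := hx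
    show f1.symm (g (f1 x)) = rotS n x
    rw [Homeomorph.symm_apply_eq]
    apply φ.injective
    rw [e1, e2]
    exact e3.symm
  have c4 : ∀ x, (h * f1 : Sph4 ≃ₜ Sph4) (g₂ x) = rotS n ((h * f1 : Sph4 ≃ₜ Sph4) x) := by
    intro x
    show h (f1 (f1.symm (g (f1 x)))) = rotS n (h (f1 x))
    rw [f1.apply_symm_apply, hc]
  have c5 : ∀ x, OnS2 x → LocalDiffeoAt (h * f1 : Sph4 ≃ₜ Sph4) x := fun x hx =>
    ld_mul (hh _ ((hf1S x).2 hx)) (b1 x)
  obtain ⟨h', hN⟩ := norm_same hn c1 c3 c2 c4 c5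
  obtain ⟨f, G, H, G', hR⟩ := rep_exists hn0 hN
  have hT : Trap G := by
    refine trap_of_page hn hN hR fun x y hx hy hxy => b3 x y hx hy ?_
    have h2 : f1.symm (g (f1 x)) = y := hxy
    rw [← h2, f1.apply_symm_apply]
  have hO : Off G := ⟨G, hT, 1, Sm.one, by rw [one_mul, mul_one]⟩
  refine (of_off_norm hn (φ := f1⁻¹) (g := g) hld_inv (fun x => ?_) hN hR hO).2
  show f1.symm (g x) = f1.symm (g (f1 (f1.symm x)))
  rw [f1.apply_symm_apply]

private theorem OffOf_detA_comp (L : E5 →L[ℝ] E5) : detA (L.comp refL) = -detA L := by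
  have h3 : refL (EuclideanSpace.single 3 1 : E5) = EuclideanSpace.single 3 1 := by
    rw [refL_apply]
    ext i
    fin_cases i <;> simp [refE]
  have h4 : refL (EuclideanSpace.single 4 1 : E5) = -EuclideanSpace.single 4 1 := by
    rw [refL_apply]
    ext i
    fin_cases i <;> simp [refE]
  unfold detA
  rw [ContinuousLinearMap.comp_apply, ContinuousLinearMap.comp_apply, h3, h4, map_neg]
  simp only [PiLp.neg_apply]
  ring

private theorem OffOf_cone_ref (f : Sph4 → Sph4) (x : E5) :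
    cone (fun y => f (refS y)) x = cone f (refL x) := by
  by_cases h0 : x = 0
  · rw [h0, map_zero, cone, cone, norm_zero, zero_smul, zero_smul]
  · rw [cone, cone, refL_apply, norm_refE, unit_refE h0]

private theorem OffOf_half {x : Sph4} (hx : OnHalf x) : refS x = x := by
  apply vec_inj
  have h4 : vec x 4 = 0 := hx.1
  show refE (vec x) = vec x
  ext i
  fin_cases i
  · rfl
  · rfl
  · rfl
  · rfl
  · show -vec x 4 = vec x 4
    rw [h4, neg_zero]

/-- both signs -/
private theorem OffOf_both {n : ℕ} (hn : 2 ≤ n) {g h : Sph4 ≃ₜ Sph4}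
    (hg : ∀ x, LocalDiffeoAt g x)
    (hfix : ∀ x, g x = x ↔ OnS2 x) (hp : ∀ x y, OnHalf x → OnHalf y → g x = y → OnS2 x)
    (hc : ∀ x, h (g x) = rotS n (h x)) (hh : ∀ x, OnS2 x → LocalDiffeoAt h x) :
    LinearOffOneOrbit g := by
  rcases tube_sign hn (fun x hx => (hfix x).2 hx) hc hh with hpos | hneg
  · exact off_pos hn hg hfix hp hc hh hpos
  · have hg' : ∀ x, LocalDiffeoAt (refHS * g * refHS : Sph4 ≃ₜ Sph4) x := fun x =>
      ld_mul (ld_mul (ld_refS _) (hg _)) (ld_refS x)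
    have hfix' : ∀ x, (refHS * g * refHS : Sph4 ≃ₜ Sph4) x = x ↔ OnS2 x := by
      intro x
      show refS (g (refS x)) = x ↔ OnS2 x
      rw [← OnS2_refS, ← hfix]
      constructor
      · intro h1
        have h2 := congrArg refS h1
        rwa [refS_refS] at h2
      · intro h1
        rw [h1, refS_refS]
    have hc' : ∀ x, (h * refHS : Sph4 ≃ₜ Sph4) ((refHS * g * refHS : Sph4 ≃ₜ Sph4) x) =
        rotS n ((h * refHS : Sph4 ≃ₜ Sph4) x) := by
      intro x
      show h (refS (refS (g (refS x)))) = rotS n (h (refS x))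
      rw [refS_refS, hc]
    have hh' : ∀ x, OnS2 x → LocalDiffeoAt (h * refHS : Sph4 ≃ₜ Sph4) x := fun x hx =>
      ld_mul (hh _ (OnS2_refS.2 hx)) (ld_refS x)
    have hpos' : ∀ x, OnS2 x →
        0 < detA (fderiv ℝ (cone (h * refHS : Sph4 ≃ₜ Sph4)) (vec x)) := by
      intro x hx
      have hfun : cone (h * refHS : Sph4 ≃ₜ Sph4) = fun z => cone h (refL z) := by
        funext z
        exact OffOf_cone_ref h z
      have hv : refL (vec x) = vec x := by
        rw [refL_apply, ← vec_refS, refS_fix hx]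
      have hRG : RG (cone h) (vec x) := (reg_cone (hh x hx)).self_of_nhds
      have hd0 : HasFDerivAt (cone h) (fderiv ℝ (cone h) (vec x)) (refL (vec x)) := by
        rw [hv]
        exact (hRG.1.differentiableAt (by simp)).hasFDerivAt
      have hd : HasFDerivAt (fun z => cone h (refL z))
          ((fderiv ℝ (cone h) (vec x)).comp refL) (vec x) :=
        hd0.comp (vec x) refL.hasFDerivAt
      rw [hfun, hd.fderiv, OffOf_detA_comp]
      linarith [hneg x hx]
    have hp' : ∀ x y, OnHalf x → OnHalf y →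
        (refHS * g * refHS : Sph4 ≃ₜ Sph4) x = y → OnS2 x := by
      intro x y hx hy hxy
      have h1 : refS (g (refS x)) = y := hxy
      rw [OffOf_half hx] at h1
      have h2 := congrArg refS h1
      rw [refS_refS, OffOf_half hy] at h2
      exact hp x y hx hy h2
    have h5 := off_pos hn hg' hfix' hp' hc' hh' hpos'
    refine (linearOff_congr (g := g) (φ := refHS) (g' := refHS * g * refHS) ld_refS
      (fun x => ?_)).2 h5
    show refS (g x) = refS (g (refS (refS x)))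
    rw [refS_refS]

theorem off_of_ball {n : ℕ} (hn : 2 ≤ n) {g : Sph4 → Sph4} (hg : UnknotAction n g)
    (hB : DisjointBall 1 g) : LinearOffOneOrbit g := by
  obtain ⟨σ₀, s1, s2, s3⟩ := hB
  obtain ⟨σ, t1, t2⟩ := homeo_of_isDiffeo s1
  obtain ⟨g₀, u1, u2⟩ := homeo_of_isDiffeo hg.diffeo
  obtain ⟨h, v1, v2⟩ := hg.top
  have hld_inv : ∀ x, LocalDiffeoAt (σ⁻¹ : Sph4 ≃ₜ Sph4) x := by
    intro x
    have h5 := ld_inv (t2 (σ.symm x))
    rwa [σ.apply_symm_apply] at h5
  have hfix : ∀ x, (σ⁻¹ * g₀ * σ : Sph4 ≃ₜ Sph4) x = x ↔ OnS2 x := by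
    intro x
    show σ.symm (g₀ (σ x)) = x ↔ OnS2 x
    rw [Homeomorph.symm_apply_eq, u1, t1]
    exact s2 x
  have h1 : LinearOffOneOrbit (σ⁻¹ * g₀ * σ : Sph4 ≃ₜ Sph4) := by
    refine OffOf_both hn (h := h * σ) (fun x => ld_mul (ld_mul (hld_inv _) (u2 _)) (t2 x)) hfix
      ?_ ?_ ?_
    · intro x y hx hy hxy
      refine s3 x y 1 hx hy one_pos le_rfl ?_
      have h2 : σ.symm (g₀ (σ x)) = y := hxy
      rw [Homeomorph.symm_apply_eq, u1, t1, t1] at h2
      exact h2
    · intro x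
      show h (σ (σ.symm (g₀ (σ x)))) = rotS n (h (σ x))
      rw [σ.apply_symm_apply, u1, v1]
    · intro x hx
      refine ld_mul (v2 _ ?_) (t2 x)
      have h2 := (hfix x).2 hx
      have h3 : σ.symm (g₀ (σ x)) = x := h2
      rw [Homeomorph.symm_apply_eq, u1] at h3
      exact h3
  refine (linearOff_congr (g := g) (φ := σ⁻¹) (g' := σ⁻¹ * g₀ * σ) hld_inv (fun x => ?_)).2 h1
  show σ.symm (g x) = σ.symm (g₀ (σ (σ.symm x)))
  rw [σ.apply_symm_apply, u1]

end Pool.Agent.Rot7
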