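import Pool.Agent.Rot7.NullPush
import Pool.Agent.Rot5.GroupF

/-!
# A small invariant singular set

PROOF. As `offPoint_of_fin` and `off_of_fin` (`Rot5/GroupF.lean`). `space_good hG hT` gives `M`,
`p`, `g` (`OrbitMap g p`, `Extends G g`). `exists_S1S3` gives `X`, `hX.model` gives `p₀ : V4 → X`
with the orbits of `tau` as fibres (`IsModel`, `IsOrbit`: `surj`, `loc`, `fib`; `tauL` of the
identity is `tau`), or `p₀ = Ψ.symm ∘ q₀` with `modelDir` as there. `restr_gen Φ h0` gives `k`, `k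
* g = τ * k`; `descend_gen` gives `F : M ≃ₜ X` with `F (p x) = p₀ (k x)`, a local diffeomorphism
at `p x` if `Reg Φ x`. Let `S = p '' {y : V4 | (y : E4) ∈ B}`. `hBG` gives `(G ^ k) x ∈ B ↔ x ∈ B`
for `k : ℤ`, so `p x ∈ S ↔ (x : E4) ∈ B`; `p` is a surjective open continuous map, so `S` is
closed (`hBc`: `{y : V4 | y ∈ B}` is closed in `V4`, as `B = (B ∪ {0}) ∖ {0}`). `F` is a local
diffeomorphism off `S`. The three cases of `hN`: (1) `null_push` for `p`. (2) `F '' S = p₀ '' {z |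
(z : E4) ∈ Φ '' B}` and `Φ '' B` is invariant under `tau` (`Φ * G = tau * Φ`), `null_push` for
`p₀`. (3) `InBall S` with `φ = p ∘ ψ'`, `ψ' x = ⟨ψ x, _⟩ : V4`: a local diffeomorphism
(`ldAt_iff`, `LDA_val`, `LDA.of_comp`), injective (`hp.fib`, the condition on the translates), so
an open embedding; `S ⊆ range φ`. So `AlmostDiffeo M X`, `almost_off` (`HopfRem/Final.lean`) gives
`OffPointTo M X`, composition with a diffeomorphism `X → S¹ × S³` gives `OffPoint M` (end of the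
proof of `offPoint_of_fin`), and `off_of_offPoint` (with `hT.contr`).
-/

set_option autoImplicit false

open scoped ContDiff Topology Manifold MeasureTheory
open Set Filter Metric Topology

namespace Pool.Agent.Rot7

open Pool.Agent.HopfCov hiding pr
open Pool.Agent.HopfCov.Smooth
open Pool.Agent.HopfFin
open Pool.Agent.Rot4
open Pool.Agent.Rot5
open Pool.Agent.Rot6

private theorem LD_of_Reg_OffSet {T : E4 ≃ₜ E4} {x : E4} (h : Reg T x) :
    ∃ s : ℝ, ∀ᶠ y in 𝓝 x, LD s T y := by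
  have hx := h.self_of_nhds
  have hc : ContinuousAt (fderiv ℝ T) x := hx.1.continuousAt_fderiv (by simp)
  have hd : ContinuousAt (fun y => (fderiv ℝ T y).det) x :=
    ContinuousLinearMap.continuous_det.continuousAt.comp hc
  refine ⟨(fderiv ℝ T x).det, ?_⟩
  have h0 : 0 < (fderiv ℝ T x).det * (fderiv ℝ T x).det := mul_self_pos.2 hx.2
  have h1 : ∀ᶠ y in 𝓝 x, 0 < (fderiv ℝ T x).det * (fderiv ℝ T y).det :=
    (continuousAt_const.mul hd).eventually (isOpen_Ioi.mem_nhds h0)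
  filter_upwards [h, h1] with y hy hy1 using ⟨hy.1, hy1⟩

private theorem zpow_mem_OffSet {G : E4 ≃ₜ E4} {B : Set E4} (hBG : ∀ x, G x ∈ B ↔ x ∈ B)
    (k : ℤ) (x : E4) : (G ^ k : E4 ≃ₜ E4) x ∈ B ↔ x ∈ B := by
  have hnat : ∀ (n : ℕ) (x : E4), (G ^ n : E4 ≃ₜ E4) x ∈ B ↔ x ∈ B := by
    intro n
    induction n with
    | zero =>
      intro x
      rw [pow_zero]
      exact Iff.rfl
    | succ n ih =>
      intro x
      rw [pow_succ']
      exact (hBG _).trans (ih x)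
  rcases Int.eq_nat_or_neg k with ⟨n, rfl | rfl⟩
  · rw [zpow_natCast]
    exact hnat n x
  · have h1 : (G ^ n : E4 ≃ₜ E4) ((G ^ (-(n : ℤ)) : E4 ≃ₜ E4) x) = x := by
      have h2 : (G ^ n * G ^ (-(n : ℤ)) : E4 ≃ₜ E4) = 1 := by
        rw [zpow_neg, zpow_natCast, mul_inv_cancel]
      exact DFunLike.congr_fun h2 x
    have h3 := hnat n ((G ^ (-(n : ℤ)) : E4 ≃ₜ E4) x)
    rw [h1] at h3
    exact h3.symm

private theorem offPoint_of_set_OffSet {M : Mfd4} (hM : T2Space M ∧ CompactSpace M)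
    {p : V4 → M.carrier} {g : V4 ≃ₜ V4} {G Φ : E4 ≃ₜ E4} (hp : OrbitMap g p) (hG : Extends G g)
    (h0 : Φ 0 = 0) (hΦ : Φ * G = tau * Φ) {B : Set E4} (hBc : IsClosed (B ∪ {0}))
    (hBG : ∀ x, G x ∈ B ↔ x ∈ B) (hr : ∀ x, x ≠ 0 → x ∉ B → Reg Φ x)
    (hN : μH[1] B = 0 ∨ μH[1] (Φ '' B) = 0 ∨ ∃ ψ : E4 → E4, (∀ x, Reg ψ x) ∧
      (∀ x, ψ x ≠ 0) ∧
      (∀ (x y : E4) (k : ℤ), (G ^ k : E4 ≃ₜ E4) (ψ x) = ψ y → k = 0 ∧ x = y) ∧
      ∀ b ∈ B, ∃ (k : ℤ) (x : E4), b = (G ^ k : E4 ≃ₜ E4) (ψ x)) : OffPoint M := by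
  obtain ⟨a1, a2⟩ := hM
  have a1' : T2Space M.carrier := a1
  have a2' : CompactSpace M.carrier := a2
  obtain ⟨X, hX⟩ := exists_S1S3
  obtain ⟨p₀, hm⟩ := hX.model
  obtain ⟨b1, b2, -, -, -, τ, hτ, hp₀⟩ := hm.orbit.data
  have hτ' : Extends tau τ := hτ
  obtain ⟨k, k1, -, k3⟩ := restr_gen Φ h0
  have k1' : Extends Φ k := fun x => (k1 x).symm
  have hconj : k * g = τ * k := by
    have d1 : Extends (Φ * G) (k * g) := k1'.mul hG
    have d2 : Extends (tau * Φ) (τ * k) := hτ'.mul k1'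
    rw [hΦ] at d1
    exact d1.eq_of d2
  obtain ⟨F, F1, F2⟩ := descend_gen (M' := X.carrier) (p' := p₀) hp hp₀.surj hp₀.loc hp₀.fib k
    hconj
  have hmem : ∀ x y : V4, p x = p y → ((x : E4) ∈ B ↔ (y : E4) ∈ B) := by
    intro x y hxy
    obtain ⟨n, hn⟩ := (orbit_iff hG x y).2 ((hp.fib x y).1 hxy)
    have h1 : (y : E4) = (G ^ n : E4 ≃ₜ E4) (x : E4) := hn
    rw [h1]
    exact (zpow_mem_OffSet hBG n _).symm
  set S : Set M.carrier := p '' {y : V4 | (y : E4) ∈ B} with hS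
  have hpS : ∀ x : V4, p x ∈ S ↔ (x : E4) ∈ B := by
    intro x
    constructor
    · rintro ⟨y, hy, hyx⟩
      exact (hmem y x hyx).1 hy
    · intro hx
      exact ⟨x, hx, rfl⟩
  have hq : IsQuotientMap p :=
    hp.loc.isOpenMap.isQuotientMap hp.loc.contMDiff.continuous hp.surj
  have hSc : IsClosed S := by
    rw [← hq.isClosed_preimage]
    have h1 : p ⁻¹' S = (fun y : V4 => (y : E4)) ⁻¹' (B ∪ {0}) := by
      ext y
      have hy : (y : E4) ≠ 0 := y.2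
      simp only [mem_preimage, hpS, mem_union, mem_singleton_iff, hy, or_false]
    rw [h1]
    exact hBc.preimage continuous_subtype_val
  have hF : ∀ x, x ∉ S → LDA F x := by
    intro x hx
    obtain ⟨y, rfl⟩ := hp.surj x
    have hy0 : (y : E4) ≠ 0 := y.2
    have hreg : Reg Φ (y : E4) := hr _ hy0 fun h => hx ((hpS y).2 h)
    obtain ⟨s, hs⟩ := LD_of_Reg_OffSet hreg
    exact F2 y (k3 s y hs)
  have hAD : AlmostDiffeo M X := by
    refine ⟨F, S, hSc, hF, ?_⟩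
    rcases hN with hN | hN | ⟨ψ, f1, f2, f3, f4⟩
    · exact Or.inl (null_push (fun x => hp.loc x) hN fun x y hxy => (hmem x y hxy).1)
    · refine Or.inr (Or.inl ?_)
      have h1 : F '' S = p₀ '' {y : V4 | (y : E4) ∈ Φ '' B} := by
        ext z
        constructor
        · rintro ⟨_, ⟨y, hy, rfl⟩, rfl⟩
          refine ⟨k y, ⟨(y : E4), hy, (k1 y).symm⟩, (F1 y).symm⟩
        · rintro ⟨y, ⟨b, hb, hby⟩, rfl⟩
          obtain ⟨x, rfl⟩ := k.surjective y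
          have h2 : b = (x : E4) := Φ.injective (hby.trans (k1 x))
          refine ⟨p x, ⟨x, ?_, rfl⟩, F1 x⟩
          show (x : E4) ∈ B
          rw [← h2]
          exact hb
      rw [h1]
      refine null_push (fun x => hp₀.loc x) hN fun x y hxy hx => ?_
      obtain ⟨n, hn⟩ := (hp₀.fib x y).1 hxy
      obtain ⟨b, hb, hbx⟩ := hx
      obtain ⟨x', rfl⟩ := k.surjective x
      have h2 : b = (x' : E4) := Φ.injective (hbx.trans (k1 x'))
      have h3 : SemiconjBy k g τ := hconj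
      have h4 : k ((g ^ n) x') = (τ ^ n) (k x') := DFunLike.congr_fun (h3.zpow_right n).eq x'
      refine ⟨(((g ^ n) x' : V4) : E4), ?_, ?_⟩
      · have h6 : p x' = p ((g ^ n) x') := (hp.fib _ _).2 ⟨n, rfl⟩
        refine (hmem _ _ h6).1 ?_
        rw [← h2]
        exact hb
      · rw [hn, ← h4]
        exact (k1 _).symm
    · refine Or.inr (Or.inr ?_)
      set ψ' : E4 → V4 := fun x => ⟨ψ x, f2 x⟩ with hψ'
      have hcont : Continuous ψ := continuous_iff_continuousAt.2 fun x =>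
        (f1 x).self_of_nhds.1.continuousAt
      have hcont' : Continuous ψ' := hcont.subtype_mk _
      have h1 : ∀ x, LDA ψ' x := by
        intro x
        refine LDA.of_comp (f := ψ') (g := fun y : V4 => (y : E4)) hcont'.continuousAt
          (LDA_val (ψ' x)) ?_
        exact ldAt_iff.2 (f1 x)
      set φ : E4 → M.carrier := fun x => p (ψ' x) with hφ
      have h2 : ∀ x, LDA φ x := fun x => LDA.comp' (f := ψ') (g := p) (hp.loc (ψ' x)) (h1 x)
      have h2' : IsLocalDiffeomorph (𝓡 4) (𝓡 4) ∞ φ := h2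
      have h3 : Function.Injective φ := by
        intro x y hxy
        obtain ⟨n, hn⟩ := (orbit_iff hG (ψ' x) (ψ' y)).2 ((hp.fib _ _).1 hxy)
        exact (f3 x y n hn.symm).2
      refine ⟨φ, h2'.isLocalHomeomorph.isOpenEmbedding_of_injective h3, h2', ?_⟩
      rintro _ ⟨y, hy, rfl⟩
      obtain ⟨n, x, hnx⟩ := f4 _ hy
      refine ⟨x, ?_⟩
      exact (hp.fib _ _).2 ((orbit_iff hG (ψ' x) y).1 ⟨n, hnx⟩)
  obtain ⟨F', x₀, hF'⟩ := (almost_off (Or.inl hX)).1 hAD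
  obtain ⟨Ψ⟩ := hX
  refine ⟨F'.trans Ψ.toHomeomorph, x₀, fun x hx => ?_⟩
  have h1 : IsLocalDiffeomorphAt (𝓡 4) model13 ∞ Ψ (F' x) := Ψ.isLocalDiffeomorph (F' x)
  exact (hF' x hx).comp (K := model13) (hg := h1)

theorem off_of_set {G T Φ : E4 ≃ₜ E4} (hG : Sm G) (hT : Good G T e0) (h0 : Φ 0 = 0)
    (hΦ : Φ * G = tau * Φ) {B : Set E4} (hBc : IsClosed (B ∪ {0})) (hB0 : (0 : E4) ∉ B)
    (hBG : ∀ x, G x ∈ B ↔ x ∈ B) (hr : ∀ x, x ≠ 0 → x ∉ B → Reg Φ x)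
    (hN : μH[1] B = 0 ∨ μH[1] (Φ '' B) = 0 ∨ ∃ ψ : E4 → E4, (∀ x, Reg ψ x) ∧
      (∀ x, ψ x ≠ 0) ∧
      (∀ (x y : E4) (k : ℤ), (G ^ k : E4 ≃ₜ E4) (ψ x) = ψ y → k = 0 ∧ x = y) ∧
      ∀ b ∈ B, ∃ (k : ℤ) (x : E4), b = (G ^ k : E4 ≃ₜ E4) (ψ x)) : Off G := by
  obtain ⟨M, p, g, i1, i2, i3, i4, i5⟩ := space_good hG hT
  exact off_of_offPoint ⟨i2, i3⟩ i4 i5 hT.contr
    (offPoint_of_set_OffSet ⟨i2, i3⟩ i4 i5 h0 hΦ hBc hBG hr hN)

end Pool.Agent.Rot7
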