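import Pool.Agent.Rot7.NullLoc

/-!
# The preimage in `ℝ⁴ ∖ 0` of a subset of the 4-sphere

`Up n A = {x | Om x ∧ sph n (q1 x) ∈ A}`.

PROOF. `up_closed`: let `x ≠ 0` be a limit of points `xᵢ ∈ Up n A`. If `Om x`: `q1` is continuous
at `x`, `sph n` is continuous, `A` is closed. If not `Om x` then `x = t • e0`, `t > 0`
(`not_Om_iff`), for every `δ` the cone `Cone δ` is a neighbourhood of `x`, so `wsq (q1 xᵢ)` is
large (`wsq_of_cone`) and `sph n (q1 xᵢ) ∉ A` (`sph_near` for `hA2`), contradiction. `zero_up`: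
`Om 0` is false. `up_inv`: `Om (G x) ↔ Om x` (`Nn.om`, `hR.pair.nnG`), `sph n (q1 (G x)) = sph n
(G' (q1 x)) = g (sph n (q1 x))` (`hR.crd`, `hR.lift`). `up_null`: the map `x ↦ sph n (q1 x)` is a
local diffeomorphism at the points with `Om x` (`ld_sph`; `q1` is `Reg` there, see
`Rot4/CoordReg.lean`, `ldAt_iff`), so every point of `Up n A` has a neighbourhood `U` with `μH[1]
(Up n A ∩ U) = 0` (`LenZero.at_point`); `MeasureTheory.measure_null_of_locally_null`. `up_image`: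
`⊆`: `sph n (q1 (Φ x)) = sph n (T (q1 x)) = h (sph n (q1 x))`. `⊇`: let `Om y`, `sph n (q1 y) = h
a`, `a ∈ A`; `x = Φ⁻¹ y` has `Om x` (`Nn.om`), `h (sph n (q1 x)) = sph n (q1 y) = h a`, so `sph n
(q1 x) = a`.
-/

set_option autoImplicit false

open scoped ContDiff Topology Manifold MeasureTheory
open Set Filter Metric

namespace Pool.Agent.Rot7

open Pool.Agent.HopfCov hiding pr
open Pool.Agent.HopfCov.Smooth
open Pool.Agent.HopfFin
open Pool.Agent.Rot4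
open Pool.Agent.Rot5
open Pool.Agent.Rot6

theorem up_closed {n : ℕ} (hn : 0 < n) {A : Set Sph4} (hA : IsClosed A)
    (hA2 : NearS2 fun x => x ∉ A) : IsClosed (Up n A ∪ {0}) := by
  rw [← isOpen_compl_iff, isOpen_iff_mem_nhds]
  intro x hx
  rw [mem_compl_iff, mem_union, not_or, mem_singleton_iff] at hx
  obtain ⟨hx1, hx0⟩ := hx
  have h0 : ∀ᶠ y in 𝓝 x, y ≠ 0 := isOpen_ne.mem_nhds hx0
  have key : ∀ᶠ y in 𝓝 x, y ∉ Up n A := by
    by_cases hO : Om x
    · have h1 : sph n (q1 x) ∉ A := fun h => hx1 ⟨hO, h⟩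
      have h2 : ContinuousAt (fun y => sph n (q1 y)) x :=
        (continuous_sph n).continuousAt.comp (continuousAt_q1 hO)
      filter_upwards [h2.eventually (hA.isOpen_compl.mem_nhds h1)] with y hy hyU
      exact hy hyU.2
    · obtain ⟨t, ht, rfl⟩ := not_Om_iff.1 hO
      have ht0 : 0 < t := by
        rcases ht.lt_or_eq with h | h
        · exact h
        · exact absurd (by rw [← h, zero_smul]) hx0
      obtain ⟨R, -, hR⟩ := sph_near hn hA2
      obtain ⟨δ, hδ, hδ'⟩ := wsq_of_cone R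
      filter_upwards [Cone_mem_nhds hδ ht0] with y hy hyU
      exact hR _ (hδ' y hy hyU.1) hyU.2
  filter_upwards [h0, key] with y hy0 hyU
  rw [mem_compl_iff, mem_union, not_or, mem_singleton_iff]
  exact ⟨hyU, hy0⟩

theorem zero_up {n : ℕ} {A : Set Sph4} : (0 : E4) ∉ Up n A :=
  fun h => h.1.ne rfl

theorem up_inv {n : ℕ} {g : Sph4 ≃ₜ Sph4} {f G H G' : E4 ≃ₜ E4} (hR : Rep n g f G H G')
    {A : Set Sph4} (hA : ∀ x, g x ∈ A ↔ x ∈ A) (x : E4) : G x ∈ Up n A ↔ x ∈ Up n A := by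
  change Om (G x) ∧ sph n (q1 (G x)) ∈ A ↔ Om x ∧ sph n (q1 x) ∈ A
  rw [hR.pair.nnG.om]
  refine and_congr_right fun hO => ?_
  rw [← hR.crd x hO, hR.lift, hA]

theorem up_null {n : ℕ} (hn : 0 < n) {A : Set Sph4} (hA : NullLength A) : μH[1] (Up n A) = 0 := by
  have hA' : LenZero (M := Sph4.carrier) A := hA
  refine MeasureTheory.measure_null_of_locally_null _ fun x hx => ?_
  have h2 : LDA q1 x := ldAt_iff.2 (reg_q1 hx.1)
  have h3 : LDA (Y := Sph4.carrier) (fun y : E4 => sph n (q1 y)) x :=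
    LDA.comp' (Z := Sph4.carrier) (f := q1) (g := sph n) (ld_sph hn _) h2
  obtain ⟨U, hU, hU0⟩ := LenZero.at_point hA' h3
  refine ⟨Up n A ∩ U, inter_mem_nhdsWithin _ hU, ?_⟩
  refine MeasureTheory.measure_mono_null ?_ hU0
  rintro y ⟨hy, hyU⟩
  exact ⟨hy.2, hyU⟩

theorem up_image {n : ℕ} {h : Sph4 ≃ₜ Sph4} {T Φ : E4 ≃ₜ E4}
    (h1 : ∀ z, sph n (T z) = h (sph n z)) (hN : Nn n 0 Φ)
    (h2 : ∀ x, Om x → Om (Φ x) ∧ q1 (Φ x) = T (q1 x)) (A : Set Sph4) :
    Φ '' Up n A = Up n (h '' A) := by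
  ext y
  constructor
  · rintro ⟨x, ⟨hO, hx⟩, rfl⟩
    refine ⟨(h2 x hO).1, ?_⟩
    rw [(h2 x hO).2, h1]
    exact ⟨_, hx, rfl⟩
  · rintro ⟨hO, a, ha, hy⟩
    refine ⟨Φ.symm y, ?_, Φ.apply_symm_apply y⟩
    have hO' : Om (Φ.symm y) := by
      rw [← hN.om, Φ.apply_symm_apply]
      exact hO
    refine ⟨hO', ?_⟩
    have h3 : h (sph n (q1 (Φ.symm y))) = h a := by
      rw [← h1, ← (h2 _ hO').2, Φ.apply_symm_apply]
      exact hy.symm
    rw [h.injective h3]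
    exact ha

end Pool.Agent.Rot7
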