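import Pool.Agent.Rot7.Defs

/-!
# The lift of an open ball which is disjoint from its translates

PROOF. Let `φ : E4 → Sph4` be as in `InTranslates`. `φ x` is not on the 2-sphere: otherwise `g (φ
x) = φ x` (`hg.fix`), contradiction with `k = 1` (`2 ≤ n`). So `sgi (φ x)` is defined (`φ x ≠
infS`, `OnS2_inf`), `¬ OnPlane (sgi (φ x))` (`OnS2_sg`, `sg_sgi`), and `exists_lift`
(`Rot4/LiftC.lean`) for `x ↦ sgi (φ x)` (continuous: `continuousAt_sgi`; choose `u₀` over `sgi (φ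
0)`, `sph_surj`) gives a continuous `φ' : E4 → E4` with `q2 n (φ' x) = sgi (φ x)`, i.e. `sph n (φ'
x) = φ x`. Let `ψ x = b1 (φ' x)`: `Om (ψ x)` (`Om_b1`), `q1 (ψ x) = φ' x` (`q1_b1`). `φ'` is `Reg`
(`ld_sph`, `LDA.of_comp`, `ldAt_iff`), `b1` is `Reg` (`Rot4/CoordReg.lean`), so `ψ` is `Reg`; `ψ x
≠ 0` (`Om.ne`). Let `(G ^ k) (ψ x) = ψ y`; `crd_zpow` (`Rot5/Phi.lean`): `(G' ^ k) (φ' x) = φ' y`.
With `k = n * q + j`, `0 ≤ j < n`: `(G' ^ n) z = shf n z` (`hR.per`), `sph n (shf (n * q) z) = sph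
n z`, `sph n ((G' ^ j) z) = g^[j] (sph n z)` (`hR.lift`), so `g^[j] (φ x) = φ y`, hence `j = 0`
(disjointness), `φ x = φ y`, `x = y` (injectivity); then `shf (n * q) (φ' x) = φ' x`, `q = 0`. Let
`b ∈ Up n A`: `sph n (q1 b) = g^[k] (φ x) = sph n ((G' ^ k) (φ' x))`, so `q1 b = shf (n * j) ((G'
^ k) (φ' x)) = (G' ^ (n * j + k)) (φ' x)` (`sph_eq`, `hR.per`), `= q1 ((G ^ (n * j + k)) (ψ x))`
(`crd_zpow`), and `q1` is injective on `Om` (`b1_q1`).
-/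

set_option autoImplicit false

open scoped ContDiff Topology Manifold
open Set Filter Metric

namespace Pool.Agent.Rot7

open Pool.Agent.HopfCov hiding pr
open Pool.Agent.HopfCov.Smooth
open Pool.Agent.HopfFin
open Pool.Agent.Rot4
open Pool.Agent.Rot5
open Pool.Agent.Rot6

private theorem TransUp_zpow {n : ℕ} {G' : E4 ≃ₜ E4}
    (hp : ∀ z, (G' ^ n : E4 ≃ₜ E4) z = shf n z) (j : ℤ) (z : E4) :
    (G' ^ ((n : ℤ) * j) : E4 ≃ₜ E4) z = shf (n * j) z := by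
  rw [zpow_mul, zpow_natCast]
  induction j using Int.induction_on with
  | zero =>
    rw [zpow_zero, Int.cast_zero, mul_zero, shf_zero]
    rfl
  | succ i ih =>
    have e1 : ((G' ^ n) ^ ((i : ℤ) + 1) : E4 ≃ₜ E4) = G' ^ n * (G' ^ n) ^ (i : ℤ) := by
      rw [add_comm, zpow_one_add]
    rw [e1, mul_apply', ih, hp, shf_shf]
    congr 1
    push_cast
    ring
  | pred i ih =>
    have e1 : ((G' ^ n) ^ (-(i : ℤ)) : E4 ≃ₜ E4) =
        G' ^ n * (G' ^ n) ^ (-(i : ℤ) - 1) := by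
      rw [← zpow_one_add]
      congr 1
      ring
    have h1 : (G' ^ n : E4 ≃ₜ E4) (((G' ^ n) ^ (-(i : ℤ) - 1) : E4 ≃ₜ E4) z) =
        shf (n * ((-(i : ℤ) : ℤ) : ℝ)) z := by
      rw [← mul_apply', ← e1, ih]
    rw [hp] at h1
    have h2 := congrArg (shf (-(n : ℝ))) h1
    rw [shf_shf, shf_shf, neg_add_cancel, shf_zero] at h2
    rw [h2]
    congr 1
    push_cast
    ring

private theorem TransUp_pow {n : ℕ} {g : Sph4 ≃ₜ Sph4} {G' : E4 ≃ₜ E4}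
    (hl : ∀ z, sph n (G' z) = g (sph n z)) (k : ℕ) (z : E4) :
    sph n ((G' ^ k : E4 ≃ₜ E4) z) = g^[k] (sph n z) := by
  induction k with
  | zero => rfl
  | succ k ih =>
    rw [pow_succ', mul_apply', hl, ih, Function.iterate_succ_apply']

private theorem TransUp_inj {x y : E4} (hx : Om x) (hy : Om y) (h : q1 x = q1 y) : x = y := by
  rw [← b1_q1 hx, h, b1_q1 hy]

private theorem TransUp_lift {n : ℕ} (hn : 0 < n) {φ : E4 → Sph4} (hc : Continuous φ)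
    (hφ : ∀ x, LDA (Y := Sph4.carrier) φ x) (ho : ∀ x, ¬ OnS2 (φ x)) :
    ∃ φ' : E4 → E4, (∀ x, sph n (φ' x) = φ x) ∧ ∀ x, Reg φ' x := by
  have h1 : ∀ x, φ x ≠ infS := by
    intro x hx
    apply ho x
    rw [hx]
    exact OnS2_inf
  have h2 : ∀ x, sg (sgi (φ x)) = φ x := fun x => sg_sgi (h1 x)
  have h3 : ∀ x, ¬ OnPlane (sgi (φ x)) := by
    intro x hx
    apply ho x
    rw [← h2 x]
    exact OnS2_sg.2 hx
  have h4 : Continuous fun x => sgi (φ x) :=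
    continuous_iff_continuousAt.2 fun x =>
      ContinuousAt.comp (g := sgi) (continuousAt_sgi (h1 x)) hc.continuousAt
  obtain ⟨u, hu⟩ := sph_surj hn (ho 0)
  have hu' : q2 n u = sgi (φ 0) := by
    apply sg_injective
    rw [h2]
    exact hu
  obtain ⟨φ', hφ'c, hφ', -⟩ := exists_lift hn h4 h3 hu'
  have h5 : ∀ x, sph n (φ' x) = φ x := by
    intro x
    rw [sph, hφ', h2]
  refine ⟨φ', h5, fun x => ldAt_iff.1 ?_⟩
  refine LDA.of_comp (Z := Sph4.carrier) (g := sph n) hφ'c.continuousAt (ld_sph hn _) ?_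
  exact (hφ x).congr' (Eventually.of_forall fun y => (h5 y).symm)

theorem trans_up {n : ℕ} (hn : 2 ≤ n) {g h : Sph4 ≃ₜ Sph4} (hg : NormAct n g h)
    {f G H G' : E4 ≃ₜ E4} (hR : Rep n g f G H G') {A : Set Sph4} (hA : InTranslates n g A) :
    ∃ ψ : E4 → E4, (∀ x, Reg ψ x) ∧ (∀ x, ψ x ≠ 0) ∧
      (∀ (x y : E4) (k : ℤ), (G ^ k : E4 ≃ₜ E4) (ψ x) = ψ y → k = 0 ∧ x = y) ∧
      ∀ b ∈ Up n A, ∃ (k : ℤ) (x : E4), b = (G ^ k : E4 ≃ₜ E4) (ψ x) := by
  have hn0 : 0 < n := by omega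
  have hn0' : (0 : ℤ) < n := by exact_mod_cast hn0
  obtain ⟨φ, hoe, hld, hdis, hcov⟩ := hA
  have ho : ∀ x, ¬ OnS2 (φ x) := by
    intro x hx
    exact hdis x x 1 one_pos (by omega) ((hg.fix hn).2 hx)
  obtain ⟨φ', hs, hreg⟩ := TransUp_lift hn0 hoe.continuous hld ho
  refine ⟨fun x => b1 (φ' x), fun x => (reg_b1 _).comp (hreg x), fun x => (Om_b1 _).ne, ?_, ?_⟩
  · intro x y k hk
    have h1 := crd_zpow hR.pair.nnG hR.crd k (Om_b1 (φ' x))
    rw [hk, q1_b1, q1_b1] at h1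
    have h2 : (G' ^ k : E4 ≃ₜ E4) (φ' x) = φ' y := h1.2
    obtain ⟨j, hj⟩ : ∃ j : ℕ, (j : ℤ) = k % n := ⟨(k % n).toNat, Int.toNat_of_nonneg
      (Int.emod_nonneg _ hn0'.ne')⟩
    have hjn : j < n := by
      have := Int.emod_lt_of_pos k hn0'
      omega
    have hk' : k = n * (k / n) + j := by
      rw [hj]
      exact (Int.mul_ediv_add_emod k n).symm
    have h3 : (G' ^ k : E4 ≃ₜ E4) (φ' x) = shf (n * ((k / n : ℤ) : ℝ))
        ((G' ^ j : E4 ≃ₜ E4) (φ' x)) := by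
      conv_lhs => rw [hk']
      rw [zpow_add, mul_apply', TransUp_zpow hR.per, zpow_natCast]
    have h4 : g^[j] (φ x) = φ y := by
      rw [← hs x, ← TransUp_pow hR.lift, ← hs y, ← h2, h3]
      exact (sph_eq hn0).2 ⟨k / n, rfl⟩
    have hj0 : j = 0 := by
      by_contra hne
      exact hdis x y j (Nat.pos_of_ne_zero hne) hjn h4
    rw [hj0] at h4 hk' h3
    have h5 : x = y := hoe.injective h4
    refine ⟨?_, h5⟩
    rw [h2, ← h5, pow_zero] at h3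
    have h6 : (φ' x) 3 = (φ' x) 3 + n * ((k / n : ℤ) : ℝ) := by
      have h7 := congrArg (fun z : E4 => z 3) h3
      simpa [shf] using h7
    have h8 : (n : ℝ) * ((k / n : ℤ) : ℝ) = 0 := by linarith
    have h9 : ((n * (k / n) : ℤ) : ℝ) = 0 := by
      push_cast
      exact h8
    have h10 : (n : ℤ) * (k / n) = 0 := by exact_mod_cast h9
    rw [hk', h10]
    rfl
  · rintro b ⟨hb, hbA⟩
    obtain ⟨k, x, hkx⟩ := hcov _ hbA
    rw [← hs x, ← TransUp_pow hR.lift] at hkx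
    obtain ⟨j, hj⟩ := (sph_eq hn0).1 hkx.symm
    have h1 := crd_zpow hR.pair.nnG hR.crd ((n : ℤ) * j + k) (Om_b1 (φ' x))
    refine ⟨(n : ℤ) * j + k, x, TransUp_inj hb h1.1 ?_⟩
    rw [← h1.2, q1_b1, hj, zpow_add, mul_apply', TransUp_zpow hR.per, zpow_natCast]

end Pool.Agent.Rot7
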