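import Pool.Agent.Rot7.BallOf
import Pool.Agent.Rot7.OffOf
import Pool.Agent.Rot7.OffSet
import Pool.Agent.Rot7.LiftH
import Pool.Agent.Rot7.SetUp
import Pool.Agent.Rot7.TransUp
import Pool.Agent.Rot7.AlmNorm
import Pool.Agent.Rot7.AlmOf

/-!
# The recognition theorem (helper64)
-/

set_option autoImplicit false

open scoped ContDiff Topology Manifold
open Set Filter Metric

namespace Pool.Agent.Rot7

open Pool.Agent.HopfCov hiding pr
open Pool.Agent.HopfCov.Smooth
open Pool.Agent.HopfFin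
open Pool.Agent.Rot4
open Pool.Agent.Rot5
open Pool.Agent.Rot6

theorem off_of_almost {n : ℕ} (hn : 2 ≤ n) {g : Sph4 → Sph4} (hg : UnknotAction n g)
    (hA : AlmostLinear n g) : LinearOffOneOrbit g := by
  have hn0 : 0 < n := by omega
  obtain ⟨φ, g', h', A, h1, h2, h3, hc, hnear, hinv, hld, hN⟩ := almost_norm hn hg hA
  obtain ⟨f, G, H, G', hR⟩ := rep_exists hn0 h3
  obtain ⟨T, Φ, k1, k2, k3, k4, k5, k6, k7⟩ := lift_h hn0 h3 hR
  have hO : Off G := by
    refine off_of_set (B := Up n A) hR.pair.sm hR.pair.good k3.zero k4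
      (up_closed hn0 hc hnear) zero_up (up_inv hR hinv) ?_ ?_
    · intro x hx hxB
      by_cases hO : Om x
      · exact k6 x hO ((k2 _).1 (hld _ fun h => hxB ⟨hO, h⟩))
      · exact k7 x hx hO
    · rcases hN with h | h | h
      · exact Or.inl (up_null hn0 h)
      · right
        left
        rw [up_image k1 k3 k5]
        exact up_null hn0 h
      · exact Or.inr (Or.inr (trans_up hn h3 hR h))
  exact (of_off_norm hn h1 h2 h3 hR hO).2

/-- **recognition** -/
theorem recognition {n : ℕ} (hn : 2 ≤ n) {g : Sph4 → Sph4} (hg : UnknotAction n g) :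
    (LinearOffOneOrbit g ↔ DisjointBall 1 g) ∧ (LinearOffOneOrbit g ↔ DisjointBall (n - 1) g) ∧
      (LinearOffOneOrbit g ↔ AlmostLinear n g) := by
  refine ⟨⟨fun h => ball_mono (by omega) (ball_of_off hn hg h), off_of_ball hn hg⟩,
    ⟨ball_of_off hn hg, fun h => off_of_ball hn hg (ball_mono (by omega) h)⟩,
    ⟨almost_of_off hn hg, off_of_almost hn hg⟩⟩

/-- the question in terms of disjoint balls -/
theorem question7 {n m : ℕ} (hn : 2 ≤ n) (hm : 2 ≤ m) :
    (∀ g : Sph4 → Sph4, UnknotAction n g → SmoothlyLinear g) ↔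
      (∀ g : Sph4 → Sph4, UnknotAction m g → DisjointBall 1 g) ∧
        ∀ d ∈ grpD, d ^ n ∈ derD → d ∈ derD := by
  rw [question6 hn]
  refine and_congr_left fun _ => ⟨fun h g hg => (recognition hm hg).1.1 (h m hm g hg),
    fun h m' hm' => ?_⟩
  have h1 : ∀ g : Sph4 → Sph4, UnknotAction m g → LinearOffOneOrbit g := fun g hg =>
    (recognition hm hg).1.2 (h g hg)
  exact (off_class6 hm').2 ((off_class6 hm).1 h1)

end Pool.Agent.Rot7
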