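import Pool.Agent.Rot7.Defs
import Pool.Agent.HopfRem.LenPar
import Pool.Agent.HopfRem.ParEx

/-!
# Sets of length zero and local diffeomorphisms

PROOF. `LenZero.at_point`: the proof of `LenZero.par` (`HopfRem/LenPar.lean`) works for a map
which is a local diffeomorphism at the one point `y` (it uses the injectivity and the continuity
of `φ` only near `y`); copy it. `lenZero_of_local`: let `e = chartAt E4 x₀`, and `z = e x`, `x ∈ S
∩ e.source`. Take `φ`, `y`, `U` for `x`. The map `f = e ∘ φ` is smooth at `y`, hence Lipschitz on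
a neighbourhood `W ⊆ U` of `y` with `φ '' W ⊆ e.source`, and `f '' W` is a neighbourhood of `z`
(`f` is a local homeomorphism at `y`). The part of `e '' (S ∩ e.source)` in `f '' W` lies in `f ''
(φ ⁻¹' S ∩ W)` (if `e x' = f w` then `x' = φ w`), a null set
(`LipschitzOnWith.hausdorffMeasure_image_le`). Use `MeasureTheory.measure_null_of_locally_null`.
`null_homeo`: for `f x`, `x ∈ A`: `exists_par x` gives `φ`; `f ∘ φ` is a local diffeomorphism at
`0`, `(f ∘ φ) ⁻¹' (f '' A) = φ ⁻¹' A`; `LenZero.at_point`. `null_finite`: the image of a finite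
set in a chart is finite, and `μH[1]` has no atoms (`MeasureTheory.Measure.noAtoms_hausdorff`, see
`lengthZero_singleton` in `HopfRem/Class3.lean`).
-/

set_option autoImplicit false

open scoped ContDiff Topology Manifold MeasureTheory
open Set Filter Metric

namespace Pool.Agent.Rot7

open Pool.Agent.HopfCov hiding pr
open Pool.Agent.HopfCov.Smooth
open Pool.Agent.HopfFin
open Pool.Agent.Rot4
open Pool.Agent.Rot5
open Pool.Agent.Rot6

variable {M : Type} [TopologicalSpace M] [ChartedSpace E4 M] [IsManifold (𝓡 4) ∞ M]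

theorem LenZero.at_point {S : Set M} (hS : LenZero S) {φ : E4 → M} {y : E4} (hφ : LDA φ y) :
    ∃ U ∈ 𝓝 y, μH[1] (φ ⁻¹' S ∩ U) = 0 := by
  obtain ⟨Φ, hy, hΦ⟩ := hφ
  set e := chartAt E4 (φ y) with he
  have hye : φ y ∈ e.source := mem_chart_source E4 (φ y)
  have hφy : φ y = Φ y := hΦ hy
  have hyt : φ y ∈ Φ.target := by
    rw [hφy]
    exact Φ.map_source hy
  have hφc : ContinuousAt φ y := by
    have h1 : ContinuousAt Φ y :=
      (Φ.contMDiffOn_toFun.continuousOn).continuousAt (Φ.open_source.mem_nhds hy)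
    refine h1.congr ?_
    filter_upwards [Φ.open_source.mem_nhds hy] with z hz
    exact (hΦ hz).symm
  -- the local inverse
  set g : E4 → E4 := fun z => Φ.invFun (e.symm z) with hg
  have hg1 : ContMDiffAt (𝓡 4) (𝓡 4) ∞ g (e (φ y)) := by
    have h1 : ContMDiffAt (𝓡 4) (𝓡 4) ∞ e.symm (e (φ y)) :=
      (contMDiffOn_chart_symm (I := 𝓡 4) (n := ∞) (x := φ y)).contMDiffAt
        (e.open_target.mem_nhds (e.map_source hye))
    have h2 : ContMDiffAt (𝓡 4) (𝓡 4) ∞ Φ.invFun (e.symm (e (φ y))) := by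
      rw [e.left_inv hye]
      exact Φ.contMDiffOn_invFun.contMDiffAt (Φ.open_target.mem_nhds hyt)
    exact h2.comp (e (φ y)) h1
  have hg2 : ContDiffAt ℝ ∞ g (e (φ y)) := hg1.contDiffAt
  have hle : (1 : WithTop ℕ∞) ≤ ∞ := by exact_mod_cast le_top
  obtain ⟨K, t, ht, hK⟩ := (hg2.of_le hle).exists_lipschitzOnWith
  have hcont : ContinuousAt (fun y' => e (φ y')) y :=
    (e.continuousAt hye).comp hφc
  have hO : Φ.source ∩ (φ ⁻¹' e.source ∩ (fun y' => e (φ y')) ⁻¹' t) ∈ 𝓝 y :=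
    inter_mem (Φ.open_source.mem_nhds hy)
      (inter_mem (hφc.preimage_mem_nhds (e.open_source.mem_nhds hye))
        (hcont.preimage_mem_nhds ht))
  refine ⟨_, hO, ?_⟩
  have hsub : φ ⁻¹' S ∩ (Φ.source ∩ (φ ⁻¹' e.source ∩ (fun y' => e (φ y')) ⁻¹' t)) ⊆
      g '' (t ∩ e '' (S ∩ e.source)) := by
    rintro y' ⟨h1, h2, h3, h4⟩
    refine ⟨e (φ y'), ⟨h4, φ y', ⟨h1, h3⟩, rfl⟩, ?_⟩
    rw [hg]
    simp only
    rw [e.left_inv h3, hΦ h2]
    exact Φ.left_inv h2
  have h0 : μH[1] (t ∩ e '' (S ∩ e.source)) = 0 :=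
    MeasureTheory.measure_mono_null inter_subset_right (hS (φ y))
  refine MeasureTheory.measure_mono_null hsub ?_
  have h5 := (hK.mono (inter_subset_left (s := t)
    (t := e '' (S ∩ e.source)))).hausdorffMeasure_image_le (show (0 : ℝ) ≤ 1 by norm_num)
  rw [h0, mul_zero] at h5
  exact le_antisymm h5 zero_le

theorem lenZero_of_local {S : Set M} (h : ∀ x ∈ S, ∃ (φ : E4 → M) (y : E4) (U : Set E4),
    φ y = x ∧ LDA φ y ∧ U ∈ 𝓝 y ∧ μH[1] (φ ⁻¹' S ∩ U) = 0) : LenZero S := by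
  intro x₀
  set e := chartAt E4 x₀ with he
  refine MeasureTheory.measure_null_of_locally_null _ fun z hz => ?_
  obtain ⟨x, ⟨hxS, hxe⟩, rfl⟩ := hz
  obtain ⟨φ, y, U, rfl, ⟨Φ, hy, hΦ⟩, hU, hμ⟩ := h x hxS
  have hφy : φ y = Φ y := hΦ hy
  have hyt : φ y ∈ Φ.target := by
    rw [hφy]
    exact Φ.map_source hy
  have hye : Φ y ∈ e.source := hφy ▸ hxe
  -- the chart expression of the parametrisation
  have hf1 : ContMDiffAt (𝓡 4) (𝓡 4) ∞ (fun w => e (Φ w)) y := by
    have h1 : ContMDiffAt (𝓡 4) (𝓡 4) ∞ Φ y :=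
      Φ.contMDiffOn_toFun.contMDiffAt (Φ.open_source.mem_nhds hy)
    have h2 : ContMDiffAt (𝓡 4) (𝓡 4) ∞ e (Φ y) :=
      (contMDiffOn_chart (I := 𝓡 4) (n := ∞) (x := x₀)).contMDiffAt
        (e.open_source.mem_nhds hye)
    exact h2.comp y h1
  have hf2 : ContDiffAt ℝ ∞ (fun w => e (Φ w)) y := hf1.contDiffAt
  have hle : (1 : WithTop ℕ∞) ≤ ∞ := by exact_mod_cast le_top
  obtain ⟨K, t, ht, hK⟩ := (hf2.of_le hle).exists_lipschitzOnWith
  have hinv : Φ.invFun (φ y) = y := by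
    rw [hφy]
    exact Φ.left_inv hy
  -- continuity of the inverse at the point
  have hg : ContinuousAt (fun z => Φ.invFun (e.symm z)) (e (φ y)) := by
    have h1 : ContinuousAt e.symm (e (φ y)) := e.symm.continuousAt (e.map_source hxe)
    have h2 : ContinuousAt Φ.invFun (e.symm (e (φ y))) := by
      rw [e.left_inv hxe]
      exact (Φ.contMDiffOn_invFun.continuousOn).continuousAt (Φ.open_target.mem_nhds hyt)
    exact h2.comp h1
  have hgy : Φ.invFun (e.symm (e (φ y))) = y := by rw [e.left_inv hxe, hinv]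
  have hN : (fun z => Φ.invFun (e.symm z)) ⁻¹' (U ∩ (t ∩ Φ.source)) ∩ e.symm ⁻¹' Φ.target ∈
      𝓝 (e (φ y)) := by
    refine inter_mem (hg.preimage_mem_nhds ?_) ?_
    · show U ∩ (t ∩ Φ.source) ∈ 𝓝 (Φ.invFun (e.symm (e (φ y))))
      rw [hgy]
      exact inter_mem hU (inter_mem ht (Φ.open_source.mem_nhds hy))
    · refine (e.symm.continuousAt (e.map_source hxe)).preimage_mem_nhds ?_
      rw [e.left_inv hxe]
      exact Φ.open_target.mem_nhds hyt
  refine ⟨_, inter_mem self_mem_nhdsWithin (mem_nhdsWithin_of_mem_nhds hN), ?_⟩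
  have hsub : e '' (S ∩ e.source) ∩ ((fun z => Φ.invFun (e.symm z)) ⁻¹' (U ∩ (t ∩ Φ.source)) ∩
      e.symm ⁻¹' Φ.target) ⊆ (fun w => e (Φ w)) '' (t ∩ (φ ⁻¹' S ∩ U)) := by
    rintro _ ⟨⟨x', ⟨hS', hs'⟩, rfl⟩, ⟨h1, h2, h3⟩, h4⟩
    simp only [mem_preimage] at h1 h2 h3 h4
    rw [e.left_inv hs'] at h1 h2 h3 h4
    have h5 : Φ (Φ.invFun x') = x' := Φ.right_inv h4
    refine ⟨Φ.invFun x', ⟨h2, ?_, h1⟩, ?_⟩
    · rw [mem_preimage, hΦ h3, h5]
      exact hS'
    · simp only
      rw [h5]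
  have h0 : μH[1] (t ∩ (φ ⁻¹' S ∩ U)) = 0 :=
    MeasureTheory.measure_mono_null inter_subset_right hμ
  refine MeasureTheory.measure_mono_null hsub ?_
  have h5 := (hK.mono (inter_subset_left (s := t)
    (t := φ ⁻¹' S ∩ U))).hausdorffMeasure_image_le (show (0 : ℝ) ≤ 1 by norm_num)
  rw [h0, mul_zero] at h5
  exact le_antisymm h5 zero_le

theorem null_homeo {f : Sph4 ≃ₜ Sph4} (hf : ∀ x, LocalDiffeoAt f x) {A : Set Sph4}
    (hA : NullLength A) : NullLength (f '' A) := by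
  have hA' : LenZero (M := Sph4.carrier) A := hA
  refine lenZero_of_local (M := Sph4.carrier) ?_
  rintro _ ⟨x, hx, rfl⟩
  obtain ⟨φ, hφ, hφ0, -⟩ := exists_par (M := Sph4.carrier) x Filter.univ_mem
  obtain ⟨U, hU, hU0⟩ := LenZero.at_point hA' (hφ.loc 0)
  refine ⟨fun y => f (φ y), 0, U, congrArg f hφ0, ?_, hU, ?_⟩
  · have h1 : LDA (f : Sph4.carrier → Sph4.carrier) (φ 0) := hf (φ 0)
    exact LDA.comp' (f := φ) (g := f) h1 (hφ.loc 0)
  · have h2 : (fun y => f (φ y)) ⁻¹' (f '' A) = φ ⁻¹' A := by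
      ext y
      exact f.injective.mem_set_image
    rw [h2]
    exact hU0

theorem null_finite {M : Mfd4} {A : Set M} (hA : A.Finite) : NullLength A := by
  intro x
  have : MeasureTheory.NullSingletonClass (μH[1] : MeasureTheory.Measure E4) :=
    MeasureTheory.Measure.nullSingletonClass_hausdorff E4 one_pos
  exact ((hA.subset inter_subset_left).image _).measure_zero _

theorem null_mono {M : Mfd4} {A A' : Set M} (hA : NullLength A) (h : A' ⊆ A) : NullLength A' :=
  fun x => MeasureTheory.measure_mono_null (image_mono (inter_subset_inter_left _ h)) (hA x)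

end Pool.Agent.Rot7
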