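import Pool.Agent.Rot7.NullLoc
import Pool.Agent.HopfRem.InBall

/-!
# The image of a set of length zero under a covering

PROOF. `lenZero_of_local` (`NullLength` for `M : Mfd4` is `LenZero` for `M.carrier`, `Iff.rfl`).
Let `x = P y`, `(y : E4) ∈ B`. Let `ι : E4 → V4` be `z ↦ ⟨z, _⟩` if `z ≠ 0` and `y` otherwise; it
is a local diffeomorphism at `(y : E4)` (`LDA_val` in `HopfRem/InBall.lean` and `LDA.of_comp`:
`val ∘ ι = id` near `y`, `ι` is continuous there). Put `φ = P ∘ ι`, `U = {z | z ≠ 0}`. If `z ∈ U`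
and `φ z = P y'` with `(y' : E4) ∈ B` then `z ∈ B` by `hinv`. So `φ ⁻¹' S ∩ U ⊆ B` is a null set.
-/

set_option autoImplicit false

open scoped ContDiff Topology Manifold MeasureTheory
open Set Filter Metric

namespace Pool.Agent.Rot7

open Pool.Agent.HopfCov hiding pr
open Pool.Agent.HopfCov.Smooth
open Pool.Agent.HopfFin
open Pool.Agent.Rot4
open Pool.Agent.Rot5
open Pool.Agent.Rot6

theorem null_push {M : Mfd4} {P : V4 → M.carrier} (hP : ∀ x, LDA P x) {B : Set E4}
    (hB : μH[1] B = 0) (hinv : ∀ x y : V4, P x = P y → (x : E4) ∈ B → (y : E4) ∈ B) :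
    NullLength (M := M) (P '' {y : V4 | (y : E4) ∈ B}) := by
  classical
  have key : LenZero (P '' {y : V4 | (y : E4) ∈ B}) := by
    refine lenZero_of_local ?_
    rintro x ⟨y, hy, rfl⟩
    have hy0 : (y : E4) ≠ 0 := fun h => (show (y : E4) ∈ ({0}ᶜ : Set E4) from y.2) h
    let ι : E4 → V4 := fun z => if h : z ≠ 0 then ⟨z, h⟩ else y
    have hιv : ∀ z : E4, z ≠ 0 → ((ι z : V4) : E4) = z := by
      intro z hz
      change (((if h : z ≠ 0 then ⟨z, h⟩ else y : V4)) : E4) = z
      rw [dif_pos hz]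
    have hιy : ι (y : E4) = y := Subtype.ext (hιv _ hy0)
    have hnb : ∀ᶠ z in 𝓝 (y : E4), ((ι z : V4) : E4) = z := by
      filter_upwards [isOpen_ne.mem_nhds hy0] with z hz
      exact hιv z hz
    have hcont : ContinuousAt ι (y : E4) := by
      rw [Topology.IsInducing.subtypeVal.continuousAt_iff]
      exact continuousAt_id.congr (hnb.mono fun z hz => hz.symm)
    have hLι : LDA ι (y : E4) :=
      LDA.of_comp (f := ι) (g := fun w : V4 => (w : E4)) hcont (LDA_val _)
        ((LDA_id (y : E4)).congr' (hnb.mono fun z hz => hz.symm))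
    have hLφ : LDA (fun z => P (ι z)) (y : E4) := LDA.comp' (f := ι) (g := P) (hP _) hLι
    refine ⟨fun z => P (ι z), (y : E4), {z | z ≠ 0}, ?_, hLφ, isOpen_ne.mem_nhds hy0, ?_⟩
    · change P (ι (y : E4)) = P y
      rw [hιy]
    · refine MeasureTheory.measure_mono_null ?_ hB
      rintro z ⟨⟨y', hy', h⟩, hz⟩
      have h2 := hinv y' (ι z) h hy'
      rwa [hιv z hz] at h2
  exact key

end Pool.Agent.Rot7
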